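import Mathlib

/-!
# No gaps, part D: numerical inequalities for binomial coefficients
-/

set_option autoImplicit false

namespace Pool.Agent.Work.MP_0ea01d_co

private theorem ch2 (x : ℕ) : (x + 2).choose 2 * 2 = (x + 2) * (x + 1) := by
  induction x with
  | zero => rfl
  | succ x ih =>
    have h1 : (x + 1 + 2).choose 2 = (x + 2).choose 1 + (x + 2).choose 2 := rfl
    rw [h1, Nat.choose_one_right, add_mul, ih]
    ring

private theorem ch3 (x : ℕ) : (x + 2).choose 3 * 6 = (x + 2) * (x + 1) * x := by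
  induction x with
  | zero => rfl
  | succ x ih =>
    have h1 : (x + 1 + 2).choose 3 = (x + 2).choose 2 + (x + 2).choose 3 := rfl
    have h2 := ch2 x
    rw [h1, add_mul, ih]
    have h3 : (x + 2).choose 2 * 6 = 3 * ((x + 2) * (x + 1)) := by
      rw [← h2]
      ring
    rw [h3]
    ring

private theorem step_n (A : ℕ) {n l : ℕ} (hl : 1 ≤ l) (hn : l + 2 ≤ n)
    (h : A * n.choose 3 < n.choose (l + 2)) : A * (n + 1).choose 3 < (n + 1).choose (l + 2) := by
  have e1 : (n + 1).choose 3 = n.choose 2 + n.choose 3 := rfl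
  have e2 : (n + 1).choose (l + 2) = n.choose (l + 1) + n.choose (l + 2) := rfl
  have e3 : n.choose 3 * 3 = n.choose 2 * (n - 2) := Nat.choose_succ_right_eq n 2
  have e4 : n.choose (l + 2) * (l + 2) = n.choose (l + 1) * (n - (l + 1)) :=
    Nat.choose_succ_right_eq n (l + 1)
  have key : A * n.choose 2 ≤ n.choose (l + 1) := by
    by_contra hcon
    push Not at hcon
    -- multiply by `n - 2`
    have h1 : n.choose (l + 1) * (n - 2) < A * n.choose 2 * (n - 2) :=
      Nat.mul_lt_mul_of_pos_right hcon (by omega)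
    have h2 : A * n.choose 2 * (n - 2) = A * n.choose 3 * 3 := by
      rw [mul_assoc, ← e3, mul_assoc]
    have h3 : A * n.choose 3 * 3 ≤ n.choose (l + 2) * 3 := Nat.mul_le_mul_right 3 h.le
    have h4 : n.choose (l + 2) * 3 ≤ n.choose (l + 2) * (l + 2) :=
      Nat.mul_le_mul_left _ (by omega)
    have h5 : n.choose (l + 1) * (n - (l + 1)) ≤ n.choose (l + 1) * (n - 2) :=
      Nat.mul_le_mul_left _ (by omega)
    omega
  rw [e1, e2, mul_add]
  omega

private theorem mono_n (A : ℕ) {n₀ n l : ℕ} (hl : 1 ≤ l) (hn₀ : l + 2 ≤ n₀) (hn : n₀ ≤ n)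
    (h : A * n₀.choose 3 < n₀.choose (l + 2)) : A * n.choose 3 < n.choose (l + 2) := by
  induction n, hn using Nat.le_induction with
  | base => exact h
  | succ n hn ih => exact step_n A hl (by omega) ih

private theorem diag (k : ℕ) : 2 * ((k + 15) * (k + 19).choose 3) * (2 * k + 33).choose 3 <
    (2 * k + 33).choose (k + 19) := by
  induction k with
  | zero => decide +kernel
  | succ k ih =>
    have e1 : 2 * (k + 1) + 33 = 2 * k + 35 := by ring
    have e2 : k + 1 + 19 = k + 20 := by ring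
    have e3 : k + 1 + 15 = k + 16 := by ring
    rw [e1, e2, e3]
    have a1 := ch3 (k + 17)
    have a2 := ch3 (k + 18)
    have a3 := ch3 (2 * k + 31)
    have a4 := ch3 (2 * k + 33)
    have f1 : k + 17 + 2 = k + 19 := by ring
    have f2 : k + 18 + 2 = k + 20 := by ring
    have f3 : 2 * k + 31 + 2 = 2 * k + 33 := by ring
    have f4 : 2 * k + 33 + 2 = 2 * k + 35 := by ring
    rw [f1] at a1
    rw [f2] at a2
    rw [f3] at a3
    rw [f4] at a4
    have hA : 2 * ((k + 16) * (k + 20).choose 3) * (2 * k + 35).choose 3 ≤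
        2 * (2 * ((k + 15) * (k + 19).choose 3) * (2 * k + 33).choose 3) := by
      have h1 : 36 * (2 * ((k + 16) * (k + 20).choose 3) * (2 * k + 35).choose 3) =
          2 * (k + 16) * ((k + 20).choose 3 * 6) * ((2 * k + 35).choose 3 * 6) := by ring
      have h2 : 36 * (2 * (2 * ((k + 15) * (k + 19).choose 3) * (2 * k + 33).choose 3)) =
          4 * (k + 15) * ((k + 19).choose 3 * 6) * ((2 * k + 33).choose 3 * 6) := by ring
      have h3 : 2 * (k + 16) * ((k + 20).choose 3 * 6) * ((2 * k + 35).choose 3 * 6) ≤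
          4 * (k + 15) * ((k + 19).choose 3 * 6) * ((2 * k + 33).choose 3 * 6) := by
        rw [a1, a2, a3, a4]
        have h4 : 2 * (k + 16) * ((k + 20) * (k + 18 + 1) * (k + 18)) *
            ((2 * k + 35) * (2 * k + 33 + 1) * (2 * k + 33)) =
            ((k + 18) * (k + 19) * (2 * k + 33)) *
              (2 * (k + 16) * (k + 20) * ((2 * k + 35) * (2 * k + 34))) := by ring
        have h5 : 4 * (k + 15) * ((k + 19) * (k + 17 + 1) * (k + 17)) *
            ((2 * k + 33) * (2 * k + 31 + 1) * (2 * k + 31)) =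
            ((k + 18) * (k + 19) * (2 * k + 33)) *
              (4 * (k + 15) * (k + 17) * ((2 * k + 32) * (2 * k + 31))) := by ring
        rw [h4, h5]
        apply Nat.mul_le_mul_left
        nlinarith [sq_nonneg k]
      omega
    have hB : 2 * (2 * k + 33).choose (k + 19) ≤ (2 * k + 35).choose (k + 20) := by
      have b1 : (2 * k + 35).choose (k + 20) =
          (2 * k + 34).choose (k + 19) + (2 * k + 34).choose (k + 20) := rfl
      have b2 : (2 * k + 34).choose (k + 19) =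
          (2 * k + 33).choose (k + 18) + (2 * k + 33).choose (k + 19) := rfl
      have b3 : (2 * k + 33).choose (k + 19) ≤ (2 * k + 33).choose (k + 18) := by
        have c1 : (2 * k + 33).choose (k + 19) = (2 * k + 33).choose (k + 14) :=
          Nat.choose_symm_of_eq_add (by omega)
        have c2 : (2 * k + 33).choose (k + 18) = (2 * k + 33).choose (k + 15) :=
          Nat.choose_symm_of_eq_add (by omega)
        rw [c1, c2]
        exact Nat.choose_le_succ_of_lt_half_left (by omega)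
      omega
    omega

/-- The first numerical inequality. -/
theorem num_one {n l : ℕ} (hl : 3 ≤ l) (hn : 32 ≤ n) (hln : 2 * l ≤ n + 1) :
    2 * ((l - 2) * ((l + 2).choose 3 * n.choose 3)) < n.choose (l + 2) := by
  have e : 2 * ((l - 2) * ((l + 2).choose 3 * n.choose 3)) =
      2 * ((l - 2) * (l + 2).choose 3) * n.choose 3 := by ring
  rw [e]
  rcases le_or_gt 17 l with h17 | h17
  · obtain ⟨k, rfl⟩ := Nat.exists_eq_add_of_le h17
    have h1 := diag k
    have e1 : 17 + k - 2 = k + 15 := by omega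
    have e2 : 17 + k + 2 = k + 19 := by omega
    rw [e1, e2]
    have h2 := mono_n (2 * ((k + 15) * (k + 19).choose 3)) (n₀ := 2 * k + 33) (n := n)
      (l := k + 17) (by omega) (by omega) (by omega) (by
        have e3 : k + 17 + 2 = k + 19 := by omega
        rw [e3]
        exact h1)
    have e3 : k + 17 + 2 = k + 19 := by omega
    rwa [e3] at h2
  · refine mono_n _ (by omega) (show l + 2 ≤ 32 by omega) hn ?_
    interval_cases l <;> decide +kernel

/-- The second numerical inequality. -/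
theorem num_two {n l : ℕ} (hl : 3 ≤ l) (hn : 32 ≤ n) (hln : 2 * l ≤ n + 1) :
    2 * (n.choose l * ((l + 1).choose 2 * n.choose 3)) ≤
      (4 * l ^ 4 * n + 1) * n.choose (l + 2) := by
  have e1 : n.choose (l + 1) * (l + 1) = n.choose l * (n - l) := Nat.choose_succ_right_eq n l
  have e2 : n.choose (l + 2) * (l + 2) = n.choose (l + 1) * (n - (l + 1)) :=
    Nat.choose_succ_right_eq n (l + 1)
  obtain ⟨k, rfl⟩ := Nat.exists_eq_add_of_le hl
  obtain ⟨j, rfl⟩ := Nat.exists_eq_add_of_le (show 2 ≤ n by omega)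
  have e3 := ch3 j
  have e4 := ch2 (k + 2)
  have e5 : 3 + k + 1 = k + 2 + 2 := by ring
  have e6 : 2 + j = j + 2 := by ring
  rw [e6] at e1 e2 hn hln ⊢
  rw [e5] at e1 e2 ⊢
  -- multiply by `(l+1)(l+2)`
  have h1 : (j + 2).choose (3 + k + 2) * ((k + 2 + 2) * (3 + k + 2)) =
      (j + 2).choose (3 + k) * ((j + 2 - (3 + k)) * (j + 2 - (k + 2 + 2))) := by
    calc (j + 2).choose (3 + k + 2) * ((k + 2 + 2) * (3 + k + 2))
        = ((j + 2).choose (3 + k + 2) * (3 + k + 2)) * (k + 2 + 2) := by ring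
      _ = ((j + 2).choose (k + 2 + 2) * (j + 2 - (k + 2 + 2))) * (k + 2 + 2) := by rw [e2]
      _ = ((j + 2).choose (k + 2 + 2) * (k + 2 + 2)) * (j + 2 - (k + 2 + 2)) := by ring
      _ = _ := by rw [e1]; ring
  have hpos : 0 < (k + 2 + 2) * (3 + k + 2) := by positivity
  refine Nat.le_of_mul_le_mul_right ?_ hpos
  rw [mul_assoc (4 * (3 + k) ^ 4 * (j + 2) + 1), h1]
  have hmain : 2 * ((k + 2 + 2).choose 2 * (j + 2).choose 3) * ((k + 2 + 2) * (3 + k + 2)) ≤
      (4 * (3 + k) ^ 4 * (j + 2) + 1) * ((j + 2 - (3 + k)) * (j + 2 - (k + 2 + 2))) := by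
    obtain ⟨a, ha⟩ : ∃ a, j + 2 = 3 + k + 1 + a := Nat.exists_eq_add_of_le (by omega)
    have f1 : j + 2 - (3 + k) = a + 1 := by omega
    have f2 : j + 2 - (k + 2 + 2) = a := by omega
    rw [f1, f2]
    have hja : j + 2 ≤ 2 * a + 3 := by omega
    have ha14 : 14 ≤ a := by omega
    have g1 : (j + 2) ^ 2 ≤ 8 * ((a + 1) * a) := by
      have : (j + 2) ^ 2 ≤ (2 * a + 3) ^ 2 := Nat.pow_le_pow_left hja 2
      nlinarith
    have g2 : (j + 2).choose 3 * 6 ≤ (j + 2) ^ 3 := by
      rw [e3]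
      have : (j + 2) * (j + 1) * j ≤ (j + 2) * (j + 2) * (j + 2) := by gcongr <;> omega
      calc _ ≤ _ := this
        _ = _ := by ring
    have g3 : (k + 2 + 2) * (k + 2 + 2) * (3 + k + 2) ≤ 3 * (3 + k) ^ 3 := by nlinarith [sq_nonneg k]
    have g4 : 6 * (2 * ((k + 2 + 2).choose 2 * (j + 2).choose 3) * ((k + 2 + 2) * (3 + k + 2))) =
        ((k + 2 + 2).choose 2 * 2) * ((j + 2).choose 3 * 6) * ((k + 2 + 2) * (3 + k + 2)) := by ring
    have g5 : ((k + 2 + 2).choose 2 * 2) * ((j + 2).choose 3 * 6) * ((k + 2 + 2) * (3 + k + 2)) ≤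
        ((k + 2 + 2) * (k + 2 + 1)) * (j + 2) ^ 3 * ((k + 2 + 2) * (3 + k + 2)) := by
      rw [e4]
      gcongr
    have g6 : ((k + 2 + 2) * (k + 2 + 1)) * (j + 2) ^ 3 * ((k + 2 + 2) * (3 + k + 2)) =
        ((k + 2 + 2) * (k + 2 + 2) * (3 + k + 2)) * ((3 + k) * (j + 2)) * (j + 2) ^ 2 := by ring
    have g7 : ((k + 2 + 2) * (k + 2 + 2) * (3 + k + 2)) * ((3 + k) * (j + 2)) * (j + 2) ^ 2 ≤
        (3 * (3 + k) ^ 3) * ((3 + k) * (j + 2)) * (8 * ((a + 1) * a)) := by gcongr
    have g8 : (3 * (3 + k) ^ 3) * ((3 + k) * (j + 2)) * (8 * ((a + 1) * a)) =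
        6 * ((4 * (3 + k) ^ 4 * (j + 2)) * ((a + 1) * a)) := by ring
    have g9 : (4 * (3 + k) ^ 4 * (j + 2)) * ((a + 1) * a) ≤
        (4 * (3 + k) ^ 4 * (j + 2) + 1) * ((a + 1) * a) := by gcongr; omega
    omega
  calc 2 * ((j + 2).choose (3 + k) * ((k + 2 + 2).choose 2 * (j + 2).choose 3)) *
        ((k + 2 + 2) * (3 + k + 2))
      = (j + 2).choose (3 + k) * (2 * ((k + 2 + 2).choose 2 * (j + 2).choose 3) *
        ((k + 2 + 2) * (3 + k + 2))) := by ring
    _ ≤ (j + 2).choose (3 + k) * ((4 * (3 + k) ^ 4 * (j + 2) + 1) *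
        ((j + 2 - (3 + k)) * (j + 2 - (k + 2 + 2)))) := Nat.mul_le_mul_left _ hmain
    _ = _ := by ring

/-- The value of the blocks. -/
theorem num_three {l : ℕ} (hl : 1 ≤ l) : (l - 1) * (l + 1).choose 2 ≤ l ^ 3 / 2 := by
  obtain ⟨k, rfl⟩ := Nat.exists_eq_add_of_le hl
  have h := ch2 k
  have e1 : 1 + k + 1 = k + 2 := by ring
  have e2 : 1 + k - 1 = k := by omega
  rw [e1, e2, Nat.le_div_iff_mul_le (by norm_num)]
  calc k * (k + 2).choose 2 * 2 = k * ((k + 2).choose 2 * 2) := by ring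
    _ = k * ((k + 2) * (k + 1)) := by rw [h]
    _ ≤ (1 + k) ^ 3 := by nlinarith [sq_nonneg k]

end Pool.Agent.Work.MP_0ea01d_co
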