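import Pool.Agent.Work.MP_0ea01d_co.GapC

/-!
# No gaps, part E: the sizes just below `C(n,l)`
-/

set_option autoImplicit false

namespace Pool.Agent.Work.MP_0ea01d_co

open Finset

section General

variable {V : Type} [DecidableEq V] {l : ℕ}

/-- Interpolation in a closed family, upwards. -/
theorem interp_up (D : ℕ) (F : Finset (Finset V)) (h : Clo l F)
    (hdeg : ∀ Y : Finset V, Y.card = l → (F.filter fun T => Y ⊆ T).card ≤ D + 1) (τ : ℤ)
    (h0 : τ ≤ 0) (h1 : NN l F ≤ τ + D) :
    ∃ F' ⊆ F, Clo l F' ∧ τ ≤ NN l F' ∧ NN l F' ≤ τ + D := by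
  induction hN : F.card using Nat.strong_induction_on generalizing F with
  | _ N ih =>
    by_cases hdone : τ ≤ NN l F
    · exact ⟨F, Subset.refl _, h, hdone, h1⟩
    push Not at hdone
    have hne : F.Nonempty := by
      rw [nonempty_iff_ne_empty]
      rintro rfl
      rw [NN_empty] at hdone
      linarith
    have hdeg' : ∀ F₁ ⊆ F, ∀ Y : Finset V, Y.card = l →
        (F₁.filter fun T => Y ⊆ T).card ≤ D + 1 := fun F₁ h₁ Y hY =>
      (card_le_card (filter_subset_filter _ h₁)).trans (hdeg Y hY)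
    by_cases hpriv : ∃ T ∈ F, ∃ Y, Y ⊆ T ∧ Y.card = l ∧ ∀ T' ∈ F, Y ⊆ T' → T' = T
    · obtain ⟨T, hT, Y, hYT, hYc, huniq⟩ := hpriv
      have hYn : ∀ T' ∈ F.erase T, ¬ Y ⊆ T' := by
        intro T' hT' hYT'
        exact (mem_erase.1 hT').1 (huniq T' (mem_of_mem_erase hT') hYT')
      have hclo : Clo l (F.erase T) := by
        refine ⟨fun Z hZ => h.card Z (mem_of_mem_erase hZ), fun Z hZ hall => ?_⟩
        have hZF : Z ∈ F := by
          apply h.closed Z hZ
          intro W hW hWc
          obtain ⟨T', hT', hWT'⟩ := hall W hW hWc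
          exact ⟨T', mem_of_mem_erase hT', hWT'⟩
        rw [mem_erase]
        refine ⟨?_, hZF⟩
        rintro rfl
        obtain ⟨T', hT', hYT'⟩ := hall Y hYT hYc
        exact hYn T' hT' hYT'
      have hcard : (F.erase T).card + 1 = F.card := card_erase_add_one hT
      have hGr : insert Y (Gr l (F.erase T)) ⊆ Gr l F := by
        intro W hW
        rcases mem_insert.1 hW with rfl | hW
        · exact mem_Gr.2 ⟨T, hT, hYT, hYc⟩
        · obtain ⟨T', hT', hWT', hWc⟩ := mem_Gr.1 hW
          exact mem_Gr.2 ⟨T', mem_of_mem_erase hT', hWT', hWc⟩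
      have hYG : Y ∉ Gr l (F.erase T) := by
        intro hY
        obtain ⟨T', hT', hYT', _⟩ := mem_Gr.1 hY
        exact hYn T' hT' hYT'
      have hstep : NN l (F.erase T) ≤ NN l F := by
        have h2 := card_le_card hGr
        rw [card_insert_of_notMem hYG] at h2
        unfold NN
        have h3 : ((Gr l (F.erase T)).card : ℤ) + 1 ≤ (Gr l F).card := by exact_mod_cast h2
        have h4 : ((F.erase T).card : ℤ) + 1 = F.card := by exact_mod_cast hcard
        linarith
      obtain ⟨F', hF', h3, h4, h5⟩ := ih (F.erase T).card (by omega) (F.erase T) hclo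
        (hdeg' _ (erase_subset _ _)) (by linarith) rfl
      exact ⟨F', hF'.trans (erase_subset _ _), h3, h4, h5⟩
    · push Not at hpriv
      obtain ⟨T₀, hT₀⟩ := hne
      obtain ⟨Y₀, hY₀, hYc₀⟩ := exists_subset_card_eq
        (show l ≤ T₀.card by rw [h.card T₀ hT₀]; omega)
      set F₁ := F.filter (fun T => ¬ Y₀ ⊆ T) with hF₁
      have hsub : F₁ ⊆ F := filter_subset _ _
      have hclo : Clo l F₁ := by
        refine ⟨fun Z hZ => h.card Z (hsub hZ), fun Z hZ hall => ?_⟩
        have hZF : Z ∈ F := by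
          apply h.closed Z hZ
          intro W hW hWc
          obtain ⟨T', hT', hWT'⟩ := hall W hW hWc
          exact ⟨T', hsub hT', hWT'⟩
        rw [mem_filter]
        refine ⟨hZF, fun hcon => ?_⟩
        obtain ⟨T', hT', hYT'⟩ := hall Y₀ hcon hYc₀
        exact (mem_filter.1 hT').2 hYT'
      have hlt : F₁.card < F.card := by
        apply card_lt_card
        refine ⟨hsub, fun hcon => ?_⟩
        exact (mem_filter.1 (hcon hT₀)).2 hY₀
      have hge : F.card ≤ F₁.card + (D + 1) := by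
        have h2 := hdeg Y₀ hYc₀
        have h3 := card_filter_add_card_filter_not (s := F) (fun T => Y₀ ⊆ T)
        rw [← hF₁] at h3
        omega
      have hGr : Gr l F₁ ⊆ (Gr l F).erase Y₀ := by
        intro Y hY
        obtain ⟨T, hT, hYT, hYc⟩ := mem_Gr.1 hY
        refine mem_erase.2 ⟨?_, mem_Gr.2 ⟨T, hsub hT, hYT, hYc⟩⟩
        rintro rfl
        exact (mem_filter.1 hT).2 hYT
      have hYG : Y₀ ∈ Gr l F := mem_Gr.2 ⟨T₀, hT₀, hY₀, hYc₀⟩
      have hstep : NN l F₁ ≤ NN l F + D := by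
        have h2 := card_le_card hGr
        have h2' := card_erase_add_one hYG
        unfold NN
        have h3 : ((Gr l F₁).card : ℤ) + 1 ≤ (Gr l F).card := by
          have : (Gr l F₁).card + 1 ≤ (Gr l F).card := by omega
          exact_mod_cast this
        have h4 : (F.card : ℤ) ≤ F₁.card + (D + 1) := by exact_mod_cast hge
        linarith
      obtain ⟨F', hF', h3, h4, h5⟩ := ih F₁.card (by omega) F₁ hclo (hdeg' _ hsub)
        (by linarith) rfl
      exact ⟨F', hF'.trans hsub, h3, h4, h5⟩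

theorem deg_full (W Y : Finset V) (hY : Y.card = l) (D : ℕ) (hW : W.card = l + D + 1) :
    ((powersetCard (l + 1) W).filter fun T => Y ⊆ T).card ≤ D + 1 := by
  by_cases hYW : Y ⊆ W
  · have h1 : ((powersetCard (l + 1) W).filter fun T => Y ⊆ T) ⊆
        (W \ Y).image fun x => insert x Y := by
      intro T hT
      obtain ⟨hT1, hYT⟩ := mem_filter.1 hT
      obtain ⟨hTW, hTc⟩ := mem_powersetCard.1 hT1
      have h2 : (T \ Y).card = 1 := by
        rw [card_sdiff_of_subset hYT, hTc, hY]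
        omega
      obtain ⟨x, hx⟩ := card_eq_one.1 h2
      have hxT : x ∈ T \ Y := by
        rw [hx]
        exact mem_singleton_self x
      obtain ⟨hx1, hx2⟩ := mem_sdiff.1 hxT
      refine mem_image.2 ⟨x, mem_sdiff.2 ⟨hTW hx1, hx2⟩, ?_⟩
      rw [← sdiff_union_of_subset hYT, hx]
      rfl
    refine (card_le_card h1).trans (card_image_le.trans ?_)
    rw [card_sdiff_of_subset hYW, hW, hY]
    omega
  · have h1 : ((powersetCard (l + 1) W).filter fun T => Y ⊆ T) = ∅ := by
      apply filter_eq_empty_iff.2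
      intro T hT hYT
      exact hYW (hYT.trans (mem_powersetCard.1 hT).1)
    rw [h1]
    simp

end General

private theorem ch2 (x : ℕ) : (x + 2).choose 2 * 2 = (x + 2) * (x + 1) := by
  induction x with
  | zero => rfl
  | succ x ih =>
    have h1 : (x + 1 + 2).choose 2 = (x + 2).choose 1 + (x + 2).choose 2 := rfl
    rw [h1, Nat.choose_one_right, add_mul, ih]
    ring

private theorem ch3 (x : ℕ) : (x + 2).choose 3 * 6 = (x + 2) * (x + 1) * x := by
  induction x with
  | zero => rfl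
  | succ x ih =>
    have h1 : (x + 1 + 2).choose 3 = (x + 2).choose 2 + (x + 2).choose 3 := rfl
    have h2 := ch2 x
    rw [h1, add_mul, ih]
    have h3 : (x + 2).choose 2 * 6 = 3 * ((x + 2) * (x + 1)) := by
      rw [← h2]
      ring
    rw [h3]
    ring

/-- The complete family on `2 l + 3` points has very negative gain. -/
private theorem neg_aux (k : ℕ) : (k + 5) * (k + 4) ^ 2 * (k + 3) ≤ 4 * (2 * k + 9).choose (k + 3) := by
  induction k with
  | zero => decide +kernel
  | succ k ih =>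
    have e1 : 2 * (k + 1) + 9 = 2 * k + 11 := by ring
    have e2 : k + 1 + 3 = k + 4 := by ring
    rw [e1, e2]
    have b1 : (2 * k + 11).choose (k + 4) =
        (2 * k + 10).choose (k + 3) + (2 * k + 10).choose (k + 4) := rfl
    have b2 : (2 * k + 10).choose (k + 3) =
        (2 * k + 9).choose (k + 2) + (2 * k + 9).choose (k + 3) := rfl
    have b3 : (2 * k + 10).choose (k + 4) =
        (2 * k + 9).choose (k + 3) + (2 * k + 9).choose (k + 4) := rfl
    have b4 : (2 * k + 9).choose (k + 3) ≤ (2 * k + 9).choose (k + 4) :=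
      Nat.choose_le_succ_of_lt_half_left (by omega)
    have h3 : (k + 1 + 5) * (k + 1 + 4) ^ 2 * (k + 4) ≤ 3 * ((k + 5) * (k + 4) ^ 2 * (k + 3)) := by
      nlinarith [sq_nonneg k, Nat.zero_le (k ^ 3), Nat.zero_le (k ^ 4)]
    omega

theorem NN_neg {l : ℕ} (hl : 3 ≤ l) :
    NN l (powersetCard (l + 1) (univ : Finset (Fin (2 * l + 3)))) ≤
      -((l + 2 : ℕ) * (l + 1).choose 2 : ℕ) := by
  have h1 : Gr l (powersetCard (l + 1) (univ : Finset (Fin (2 * l + 3)))) =
      powersetCard l univ := by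
    ext Y
    rw [mem_Gr, mem_powersetCard]
    constructor
    · rintro ⟨T, _, _, hYc⟩
      exact ⟨subset_univ _, hYc⟩
    · rintro ⟨_, hYc⟩
      obtain ⟨T, hYT, -, hTc⟩ := exists_subsuperset_card_eq (subset_univ Y)
        (show Y.card ≤ l + 1 by omega) (by rw [card_univ, Fintype.card_fin]; omega)
      exact ⟨T, mem_powersetCard.2 ⟨subset_univ _, hTc⟩, hYT, hYc⟩
  unfold NN
  rw [h1, card_powersetCard, card_powersetCard, card_univ, Fintype.card_fin]
  obtain ⟨k, rfl⟩ := Nat.exists_eq_add_of_le' hl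
  have e1 : 2 * (k + 3) + 3 = 2 * k + 9 := by ring
  rw [e1]
  have h2 := neg_aux k
  have h3 : (2 * k + 9).choose (k + 3 + 1) * (k + 3 + 1) =
      (2 * k + 9).choose (k + 3) * (2 * k + 9 - (k + 3)) := Nat.choose_succ_right_eq _ _
  have h4 : 2 * k + 9 - (k + 3) = k + 6 := by omega
  rw [h4] at h3
  have h5 := ch2 (k + 2)
  have e2 : k + 2 + 2 = k + 3 + 1 := by ring
  rw [e2] at h5
  -- everything times `2 (k + 4)`
  have h6 : (((2 * k + 9).choose (k + 3) : ℕ) : ℤ) + ((k + 3 + 2) * (k + 3 + 1).choose 2 : ℕ) ≤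
      ((2 * k + 9).choose (k + 3 + 1) : ℕ) := by
    have h7 : (2 * k + 9).choose (k + 3) + (k + 3 + 2) * (k + 3 + 1).choose 2 ≤
        (2 * k + 9).choose (k + 3 + 1) := by
      refine Nat.le_of_mul_le_mul_right (c := 2 * (k + 4)) ?_ (by positivity)
      calc ((2 * k + 9).choose (k + 3) + (k + 3 + 2) * (k + 3 + 1).choose 2) * (2 * (k + 4))
          = 2 * (k + 4) * (2 * k + 9).choose (k + 3) +
            (k + 5) * (k + 4) * ((k + 3 + 1).choose 2 * 2) := by ring
        _ = 2 * (k + 4) * (2 * k + 9).choose (k + 3) + (k + 5) * (k + 4) ^ 2 * (k + 3) := by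
            rw [h5]
            ring
        _ ≤ 2 * (k + 4) * (2 * k + 9).choose (k + 3) + 4 * (2 * k + 9).choose (k + 3) := by
            gcongr
        _ = 2 * ((2 * k + 9).choose (k + 3) * (k + 6)) := by ring
        _ = 2 * ((2 * k + 9).choose (k + 3 + 1) * (k + 3 + 1)) := by rw [h3]
        _ = (2 * k + 9).choose (k + 3 + 1) * (2 * (k + 4)) := by ring
    exact_mod_cast h7
  push_cast at h6 ⊢
  linarith

private theorem step_n (A : ℕ) {n l : ℕ} (hl : 1 ≤ l) (hn : l + 2 ≤ n)
    (h : A * n.choose 3 < n.choose (l + 2)) : A * (n + 1).choose 3 < (n + 1).choose (l + 2) := by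
  have e1 : (n + 1).choose 3 = n.choose 2 + n.choose 3 := rfl
  have e2 : (n + 1).choose (l + 2) = n.choose (l + 1) + n.choose (l + 2) := rfl
  have e3 : n.choose 3 * 3 = n.choose 2 * (n - 2) := Nat.choose_succ_right_eq n 2
  have e4 : n.choose (l + 2) * (l + 2) = n.choose (l + 1) * (n - (l + 1)) :=
    Nat.choose_succ_right_eq n (l + 1)
  have key : A * n.choose 2 ≤ n.choose (l + 1) := by
    by_contra hcon
    push Not at hcon
    have h1 : n.choose (l + 1) * (n - 2) < A * n.choose 2 * (n - 2) :=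
      Nat.mul_lt_mul_of_pos_right hcon (by omega)
    have h2 : A * n.choose 2 * (n - 2) = A * n.choose 3 * 3 := by
      rw [mul_assoc, ← e3, mul_assoc]
    have h3 : A * n.choose 3 * 3 ≤ n.choose (l + 2) * 3 := Nat.mul_le_mul_right 3 h.le
    have h4 : n.choose (l + 2) * 3 ≤ n.choose (l + 2) * (l + 2) :=
      Nat.mul_le_mul_left _ (by omega)
    have h5 : n.choose (l + 1) * (n - (l + 1)) ≤ n.choose (l + 1) * (n - 2) :=
      Nat.mul_le_mul_left _ (by omega)
    omega
  rw [e1, e2, mul_add]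
  omega

private theorem mono_n (A : ℕ) {n₀ n l : ℕ} (hl : 1 ≤ l) (hn₀ : l + 2 ≤ n₀) (hn : n₀ ≤ n)
    (h : A * n₀.choose 3 < n₀.choose (l + 2)) : A * n.choose 3 < n.choose (l + 2) := by
  induction n, hn using Nat.le_induction with
  | base => exact h
  | succ n hn ih => exact step_n A hl (by omega) ih

private theorem diag (k : ℕ) : 2 * ((k + 4) * (k + 5).choose 3) * (2 * k + 53).choose 3 <
    (2 * k + 53).choose (k + 5) := by
  induction k with
  | zero => decide +kernel
  | succ k ih =>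
    have e1 : 2 * (k + 1) + 53 = 2 * k + 55 := by ring
    have e2 : k + 1 + 5 = k + 6 := by ring
    have e3 : k + 1 + 4 = k + 5 := by ring
    rw [e1, e2, e3]
    have a1 := ch3 (k + 3)
    have a2 := ch3 (k + 4)
    have a3 := ch3 (2 * k + 51)
    have a4 := ch3 (2 * k + 53)
    have f1 : k + 3 + 2 = k + 5 := by ring
    have f2 : k + 4 + 2 = k + 6 := by ring
    have f3 : 2 * k + 51 + 2 = 2 * k + 53 := by ring
    have f4 : 2 * k + 53 + 2 = 2 * k + 55 := by ring
    rw [f1] at a1
    rw [f2] at a2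
    rw [f3] at a3
    rw [f4] at a4
    have hA : 2 * ((k + 5) * (k + 6).choose 3) * (2 * k + 55).choose 3 ≤
        3 * (2 * ((k + 4) * (k + 5).choose 3) * (2 * k + 53).choose 3) := by
      have h1 : 36 * (2 * ((k + 5) * (k + 6).choose 3) * (2 * k + 55).choose 3) =
          2 * (k + 5) * ((k + 6).choose 3 * 6) * ((2 * k + 55).choose 3 * 6) := by ring
      have h2 : 36 * (3 * (2 * ((k + 4) * (k + 5).choose 3) * (2 * k + 53).choose 3)) =
          6 * (k + 4) * ((k + 5).choose 3 * 6) * ((2 * k + 53).choose 3 * 6) := by ring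
      have h3 : 2 * (k + 5) * ((k + 6).choose 3 * 6) * ((2 * k + 55).choose 3 * 6) ≤
          6 * (k + 4) * ((k + 5).choose 3 * 6) * ((2 * k + 53).choose 3 * 6) := by
        rw [a1, a2, a3, a4]
        have h4 : 2 * (k + 5) * ((k + 6) * (k + 4 + 1) * (k + 4)) *
            ((2 * k + 55) * (2 * k + 53 + 1) * (2 * k + 53)) =
            ((k + 4) * (k + 5) * (2 * k + 53)) *
              (2 * (k + 5) * (k + 6) * ((2 * k + 55) * (2 * k + 54))) := by ring
        have h5 : 6 * (k + 4) * ((k + 5) * (k + 3 + 1) * (k + 3)) *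
            ((2 * k + 53) * (2 * k + 51 + 1) * (2 * k + 51)) =
            ((k + 4) * (k + 5) * (2 * k + 53)) *
              (6 * (k + 4) * (k + 3) * ((2 * k + 52) * (2 * k + 51))) := by ring
        rw [h4, h5]
        apply Nat.mul_le_mul_left
        nlinarith [sq_nonneg k, Nat.zero_le (k ^ 3), Nat.zero_le (k ^ 4)]
      omega
    have hB : 3 * (2 * k + 53).choose (k + 5) ≤ (2 * k + 55).choose (k + 6) := by
      have b1 : (2 * k + 55).choose (k + 6) =
          (2 * k + 54).choose (k + 5) + (2 * k + 54).choose (k + 6) := rfl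
      have b2 : (2 * k + 54).choose (k + 5) =
          (2 * k + 53).choose (k + 4) + (2 * k + 53).choose (k + 5) := rfl
      have b3 : (2 * k + 54).choose (k + 6) =
          (2 * k + 53).choose (k + 5) + (2 * k + 53).choose (k + 6) := rfl
      have b4 : (2 * k + 53).choose (k + 5) ≤ (2 * k + 53).choose (k + 6) :=
        Nat.choose_le_succ_of_lt_half_left (by omega)
      omega
    omega

theorem num_four {N l : ℕ} (hl : 3 ≤ l) (hN : 2 * l + 47 ≤ N) :
    2 * ((l + 1) * ((l + 2).choose 3 * N.choose 3)) < N.choose (l + 2) := by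
  have e : 2 * ((l + 1) * ((l + 2).choose 3 * N.choose 3)) =
      2 * ((l + 1) * (l + 2).choose 3) * N.choose 3 := by ring
  rw [e]
  refine mono_n _ (by omega) (show l + 2 ≤ 2 * l + 47 by omega) hN ?_
  obtain ⟨k, rfl⟩ := Nat.exists_eq_add_of_le' hl
  have h1 := diag k
  have e1 : 2 * (k + 3) + 47 = 2 * k + 53 := by ring
  rw [e1]
  exact h1

/-- The sizes just below `C(n,l)`. -/
theorem gap_top {n l m : ℕ} (hl : 3 ≤ l) (hn : 4 * l + 50 ≤ n)
    (h1 : n.choose l ≤ m + (l + 2) * (l + 1).choose 2) (h2 : m ≤ n.choose l) : m ∈ S n l := by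
  obtain ⟨N, rfl⟩ := Nat.exists_eq_add_of_le' (show 2 * l + 3 ≤ n by omega)
  obtain ⟨B, hBc, hB1, hB2, -⟩ := exists_family (n := N) (by omega) ∅ (by simp) 0 (l + 1)
    (num_four hl (by omega)) (by simp) (l + 2) (by omega)
  set τ : ℤ := ((N + (2 * l + 3)).choose l : ℤ) - m - ((l + 2) * (l + 1).choose 2 : ℕ) with hτ
  have hτ0 : τ ≤ 0 := by
    have h3 : (((N + (2 * l + 3)).choose l : ℕ) : ℤ) ≤ m + ((l + 2) * (l + 1).choose 2 : ℕ) := by
      exact_mod_cast h1
    rw [hτ]
    linarith
  have hτ1 : -(((l + 2) * (l + 1).choose 2 : ℕ) : ℤ) ≤ τ := by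
    have h3 : (m : ℤ) ≤ ((N + (2 * l + 3)).choose l : ℕ) := by exact_mod_cast h2
    rw [hτ]
    linarith
  have hneg := NN_neg hl
  obtain ⟨F', hF', hF'c, h3, h4⟩ := interp_up (l + 2)
    (powersetCard (l + 1) (univ : Finset (Fin (2 * l + 3)))) (clo_full (by omega) _)
    (fun Y hY => deg_full _ Y hY (l + 2) (by rw [card_univ, Fintype.card_fin]; omega)) τ hτ0 (by
      push_cast at hneg hτ1 ⊢
      linarith)
  obtain ⟨s, hs⟩ : ∃ s : ℕ, (s : ℤ) = NN l F' - τ :=
    ⟨(NN l F' - τ).toNat, Int.toNat_of_nonneg (by linarith)⟩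
  have hsl : s ≤ B.card := by
    have h6 : (s : ℤ) ≤ (l + 2 : ℕ) := by
      rw [hs]
      linarith
    rw [hBc]
    exact_mod_cast h6
  obtain ⟨Q, -, h7, h8⟩ := exists_blocks (by omega) B hB1 hB2 s hsl
  have hcard : Fintype.card (Fin N ⊕ Fin (2 * l + 3)) ≤ Fintype.card (Fin (N + (2 * l + 3))) := by
    rw [Fintype.card_sum, Fintype.card_fin, Fintype.card_fin, Fintype.card_fin]
  obtain ⟨e⟩ := Function.Embedding.nonempty_of_card_le hcard
  have hdisj : ∀ T ∈ mapF (Function.Embedding.inl (β := Fin (2 * l + 3))) Q,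
      ∀ T' ∈ mapF (Function.Embedding.inr (α := Fin N)) F', Disjoint T T' := by
    intro T hT T' hT'
    obtain ⟨T₁, _, rfl⟩ := mem_mapF.1 hT
    obtain ⟨T₂, _, rfl⟩ := mem_mapF.1 hT'
    rw [disjoint_left]
    intro v hv hv'
    obtain ⟨w, _, rfl⟩ := mem_map.1 hv
    obtain ⟨w', _, hw'⟩ := mem_map.1 hv'
    simp at hw'
  have g1 : Clo l (mapF (Function.Embedding.inl (β := Fin (2 * l + 3))) Q) := h7.map (by omega) _
  have g2 : Clo l (mapF (Function.Embedding.inr (α := Fin N)) F') := hF'c.map (by omega) _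
  have g3 := (g1.union (by omega) g2 hdisj).map (by omega) e
  obtain ⟨m', hm', hm'e⟩ := g3.mem_S (by omega)
  rw [NN_mapF, NN_union (by omega) g1.card hdisj, NN_mapF, NN_mapF, h8, hBc] at hm'e
  have : m' = m := by
    have h9 : (m' : ℤ) = m := by
      rw [hm'e, hs, hτ]
      push_cast
      ring
    exact_mod_cast h9
  rwa [this] at hm'

end Pool.Agent.Work.MP_0ea01d_co
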