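import Pool.Agent.Work.MP_0ea01d_co.GapC
import Pool.Agent.Work.MP_0ea01d_co.GapD
import Pool.Agent.Work.MP_0ea01d_co.GapE

/-!
# No gaps, final part
-/

set_option autoImplicit false

namespace Pool.Agent.Work.MP_0ea01d_co

/-- The interval theorem, up to `C(n,l) - l ^ 3 / 2`, for `n ≥ 32`. -/
theorem gap_uniform {n l m₀ m : ℕ} (hl : 3 ≤ l) (hn : 32 ≤ n) (hln : 2 * l ≤ n + 1)
    (hm₀ : m₀ ∈ S n l) (h1 : m₀ + 4 * l ^ 6 * n ≤ m) (h2 : m + l ^ 3 / 2 ≤ n.choose l) :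
    m ∈ S n l := by
  refine gap_core hl (by omega) (K := 4 * l ^ 4 * n) hm₀ (num_one hl hn hln) (num_two hl hn hln)
    ?_ ?_
  · refine le_trans ?_ h1
    have h3 : l * ((l - 1) * (4 * l ^ 4 * n)) ≤ l * (l * (4 * l ^ 4 * n)) := by
      gcongr
      omega
    have h4 : l * (l * (4 * l ^ 4 * n)) = 4 * l ^ 6 * n := by ring
    omega
  · have h3 := num_three (l := l) (by omega)
    omega

/-- For `n < 32` the interval is empty. -/
theorem num_small' {n l : ℕ} (hl : 3 ≤ l) (hn : n < 32) (hln : 2 * l ≤ n + 1) :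
    n.choose l < 4 * l ^ 6 * n := by
  have h : ∀ n < 32, ∀ l < 17, 3 ≤ l → 2 * l ≤ n + 1 → n.choose l < 4 * l ^ 6 * n := by
    decide +kernel
  exact h n hn l (by omega) hl hln

theorem num_cube (l : ℕ) : l ^ 3 / 2 ≤ (l + 2) * (l + 1).choose 2 := by
  have h1 : (l + 1).choose 2 = (l + 1) * l / 2 := by
    have := Nat.choose_two_right (l + 1)
    simpa using this
  have h2 : 2 ∣ (l + 1) * l := by
    have := Nat.even_mul_succ_self l
    rw [mul_comm]
    exact this.two_dvd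
  obtain ⟨c, hc⟩ := h2
  have h3 : (l + 1).choose 2 = c := by
    rw [h1, hc]
    simp
  rw [h3]
  have h4 : l ^ 3 ≤ 2 * ((l + 2) * c) := by
    have h5 : 2 * ((l + 2) * c) = (l + 2) * ((l + 1) * l) := by
      rw [hc]
      ring
    rw [h5]
    nlinarith [sq_nonneg l]
  omega

/-- No gaps in `S n l` from its minimum plus `4 l ^ 6 n` on. -/
theorem gap_final {l n m₀ m : ℕ} (hl : 3 ≤ l) (hln : 2 * l ≤ n + 1) (hm₀ : m₀ ∈ S n l)
    (h1 : m₀ + 4 * l ^ 6 * n ≤ m)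
    (h2 : m + l ^ 3 / 2 ≤ n.choose l ∨ 4 * l + 50 ≤ n ∧ m ≤ n.choose l) : m ∈ S n l := by
  rcases Nat.lt_or_ge n 32 with hn | hn
  · have h3 := num_small' hl hn hln
    omega
  · by_cases h3 : m + l ^ 3 / 2 ≤ n.choose l
    · exact gap_uniform hl hn hln hm₀ h1 h3
    · rcases h2 with h2 | ⟨h2, h4⟩
      · exact gap_uniform hl hn hln hm₀ h1 h2
      · have h5 := num_cube l
        exact gap_top hl h2 (by omega) h4

end Pool.Agent.Work.MP_0ea01d_co
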