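import Pool.Agent.Work.MP_0ea01d_co.Four

set_option autoImplicit false

namespace Pool.Agent.Work.MP_0ea01d_co

open Finset Filter Topology

theorem choose_ge (M : ℕ) : ∀ l : ℕ, 1 ≤ l → M + 1 ≤ (M + l).choose l := by
  intro l hl
  induction l, hl using Nat.le_induction with
  | base => simp
  | succ l _ ih =>
    have e : (M + (l + 1)).choose (l + 1) = (M + l).choose l + (M + l).choose (l + 1) :=
      Nat.choose_succ_succ' (M + l) l
    rw [e]
    omega

/-- Comparison of binomial coefficients. -/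
theorem choose_ratio (l : ℕ) (θ C δ : ℝ) (hθ : 0 < θ) (hδ : 0 < δ) :
    ∀ᶠ n : ℕ in atTop, ∀ b : ℕ, θ * n - C ≤ b → (θ ^ l - δ) * n.choose l ≤ b.choose l := by
  have h1 : Tendsto (fun n : ℕ => (θ - (C + l) / (n : ℝ)) ^ l) atTop (𝓝 ((θ - 0) ^ l)) :=
    (tendsto_const_nhds.sub (tendsto_const_div_atTop_nhds_zero_nat (C + l))).pow l
  rw [sub_zero] at h1
  have h2 : Tendsto (fun n : ℕ => θ - (C + l) / (n : ℝ)) atTop (𝓝 (θ - 0)) :=
    tendsto_const_nhds.sub (tendsto_const_div_atTop_nhds_zero_nat (C + l))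
  rw [sub_zero] at h2
  have e1 : ∀ᶠ n : ℕ in atTop, θ ^ l - δ < (θ - (C + l) / (n : ℝ)) ^ l :=
    h1.eventually (lt_mem_nhds (by linarith))
  have e2 : ∀ᶠ n : ℕ in atTop, 0 < θ - (C + l) / (n : ℝ) :=
    h2.eventually (lt_mem_nhds hθ)
  filter_upwards [e1, e2, eventually_ge_atTop 1] with n e1 e2 hn b hb
  have hn0 : (0 : ℝ) < n := by exact_mod_cast hn
  rcases le_or_gt (θ ^ l - δ) 0 with hneg | hpos
  · have h3 : (0 : ℝ) ≤ n.choose l := by positivity
    have h4 : (0 : ℝ) ≤ b.choose l := by positivity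
    nlinarith
  · have h3 : (n : ℝ) * (θ - (C + l) / (n : ℝ)) = θ * n - C - l := by
      field_simp
      ring
    have h4 : (0 : ℝ) < θ * n - C - l := by
      rw [← h3]
      positivity
    have h5 : θ * n - C - l ≤ ((b + 1 - l : ℕ) : ℝ) := by
      have h6 : l ≤ b := by
        have : (l : ℝ) ≤ b := by linarith
        exact_mod_cast this
      rw [Nat.cast_sub (by omega)]
      push_cast
      linarith
    have h7 : (((b + 1 - l : ℕ) : ℝ) ^ l) / l.factorial ≤ b.choose l := Nat.pow_le_choose l b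
    have h8 : (n.choose l : ℝ) ≤ (n : ℝ) ^ l / l.factorial := Nat.choose_le_pow_div l n
    have hf : (0 : ℝ) < l.factorial := by exact_mod_cast l.factorial_pos
    calc (θ ^ l - δ) * n.choose l ≤ (θ ^ l - δ) * ((n : ℝ) ^ l / l.factorial) :=
          mul_le_mul_of_nonneg_left h8 hpos.le
      _ ≤ (θ - (C + l) / (n : ℝ)) ^ l * ((n : ℝ) ^ l / l.factorial) :=
          mul_le_mul_of_nonneg_right e1.le (by positivity)
      _ = ((n : ℝ) * (θ - (C + l) / (n : ℝ))) ^ l / l.factorial := by
          rw [mul_pow]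
          ring
      _ = (θ * n - C - l) ^ l / l.factorial := by rw [h3]
      _ ≤ (((b + 1 - l : ℕ) : ℝ) ^ l) / l.factorial := by
          apply div_le_div_of_nonneg_right _ hf.le
          exact pow_le_pow_left₀ h4.le h5 l
      _ ≤ b.choose l := h7

/-- The asymptotic interval for all `l ≥ 3`. -/
theorem four_asym (l : ℕ) (hl : 3 ≤ l) (ε : ℝ) (hε : 0 < ε) :
    ∀ᶠ n : ℕ in atTop, ∀ m : ℕ,
      (1 - (((l : ℝ) - 1) / l) ^ l + ε) * n.choose l ≤ m → m ≤ n.choose l → m ∈ S n l := by
  have hl0 : (0 : ℝ) < l := by exact_mod_cast (by omega : 0 < l)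
  have hl3 : (3 : ℝ) ≤ l := by exact_mod_cast hl
  obtain ⟨g, hg⟩ : ∃ g, g = (2 * l + 2) + (l + 1) ^ 2 := ⟨_, rfl⟩
  have hθ : 0 < ((l : ℝ) - 1) / l := by
    apply div_pos
    · linarith
    · exact hl0
  have h1 := choose_ratio l (((l : ℝ) - 1) / l) (g + l) ε hθ hε
  filter_upwards [h1, eventually_ge_atTop (g + l * ((2 * l + 2).choose (l + 1) + l + 1) + l)]
    with n h1 hn m hm1 hm2
  obtain ⟨a, ha⟩ : ∃ a, a = (n - g) / l := ⟨_, rfl⟩
  have hmod := Nat.div_add_mod (n - g) l
  have hmlt := Nat.mod_lt (n - g) (show 0 < l by omega)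
  rw [← ha] at hmod
  have ha1 : (2 * l + 2).choose (l + 1) + l + 1 ≤ a := by
    rw [ha, Nat.le_div_iff_mul_le (by omega), mul_comm]
    omega
  have hla : l * a + g ≤ n := by omega
  have hla' : n < l * a + g + l := by omega
  have hb : ((l : ℝ) - 1) / l * n - (g + l) ≤ (((l - 1) * a : ℕ) : ℝ) := by
    have e1 : (((l - 1) * a : ℕ) : ℝ) = ((l : ℝ) - 1) * a := by
      push_cast [show 1 ≤ l by omega]
      ring
    rw [e1]
    have e2 : (n : ℝ) ≤ l * a + g + l := by exact_mod_cast hla'.le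
    have e3 : ((l : ℝ) - 1) / l * n ≤ ((l : ℝ) - 1) / l * (l * a + g + l) :=
      mul_le_mul_of_nonneg_left e2 hθ.le
    have e4 : ((l : ℝ) - 1) / l * (l * a + g + l) = ((l : ℝ) - 1) * a +
        ((l : ℝ) - 1) / l * (g + l) := by
      field_simp
      ring
    have e5 : ((l : ℝ) - 1) / l * (g + l) ≤ 1 * (g + l) := by
      apply mul_le_mul_of_nonneg_right
      · rw [div_le_one hl0]
        linarith
      · positivity
    linarith
  have h2 := h1 ((l - 1) * a) hb
  have hbig : (2 * l + 2).choose (l + 1) ≤ ((l - 1) * a).choose l := by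
    have e1 : (2 * l + 2).choose (l + 1) + l ≤ (l - 1) * a := by
      calc (2 * l + 2).choose (l + 1) + l ≤ 1 * a := by omega
        _ ≤ (l - 1) * a := Nat.mul_le_mul_right _ (by omega)
    have e2 := choose_ge ((2 * l + 2).choose (l + 1)) l (by omega)
    exact (by omega : (2 * l + 2).choose (l + 1) ≤ _).trans (Nat.choose_le_choose l e1)
  obtain ⟨t, ht, hte⟩ := four_interval hl (n := n) (a := a) (by omega) (by rw [hg] at hla; omega)
    hbig ((n.choose l : ℤ) - m) (by
      have : (m : ℤ) ≤ n.choose l := by exact_mod_cast hm2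
      linarith) (by
      have e3 : ((n.choose l : ℝ)) - m ≤ ((l - 1) * a).choose l := by
        have : (1 - (((l : ℝ) - 1) / l) ^ l + ε) * n.choose l = n.choose l -
          ((((l : ℝ) - 1) / l) ^ l - ε) * n.choose l := by ring
        rw [this] at hm1
        linarith
      have e4 : ((n.choose l : ℝ)) ≤ ((l - 1) * a).choose l + m := by linarith
      have e5 : n.choose l ≤ ((l - 1) * a).choose l + m := by exact_mod_cast e4
      have e6 : (n.choose l : ℤ) ≤ ((l - 1) * a).choose l + m := by exact_mod_cast e5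
      linarith)
  have : m = t := by
    have : (m : ℤ) = t := by rw [hte]; ring
    exact_mod_cast this
  rw [this]
  exact ht

end Pool.Agent.Work.MP_0ea01d_co
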