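import Pool.Agent.Work.MP_0ea01d_co.TwoStars

set_option autoImplicit false

namespace Pool.Agent.Work.MP_0ea01d_co

open Finset Classical

variable {n : ℕ}

theorem pick3 (u v : ℕ) : ∃ w, 1 ≤ w ∧ w ≤ 3 ∧ w ≠ u ∧ w ≠ v := by
  by_cases h1 : u = 1 ∨ v = 1
  · by_cases h2 : u = 2 ∨ v = 2
    · exact ⟨3, by omega, by omega, by omega, by omega⟩
    · exact ⟨2, by omega, by omega, by omega, by omega⟩
  · exact ⟨1, by omega, by omega, by omega, by omega⟩

theorem pick4 (u v z : ℕ) : ∃ w, 1 ≤ w ∧ w ≤ 4 ∧ w ≠ u ∧ w ≠ v ∧ w ≠ z := by
  by_cases h1 : u = 1 ∨ v = 1 ∨ z = 1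
  · by_cases h2 : u = 2 ∨ v = 2 ∨ z = 2
    · by_cases h3 : u = 3 ∨ v = 3 ∨ z = 3
      · exact ⟨4, by omega, by omega, by omega, by omega, by omega⟩
      · exact ⟨3, by omega, by omega, by omega, by omega, by omega⟩
    · exact ⟨2, by omega, by omega, by omega, by omega, by omega⟩
  · exact ⟨1, by omega, by omega, by omega, by omega, by omega⟩

theorem not_adj {a b c s : ℕ} {x y : Fin n} (h1 : ¬ HE n a b c s x y) (h2 : ¬ HE n a b c s y x) :
    ¬ (H n a b c s).Adj x y := by
  simp only [H, SimpleGraph.fromRel_adj]
  tauto

/-- Case `b = 0`. -/
theorem cover0 {a s : ℕ} (hn : 5 ≤ n) (ha : 1 ≤ a) (f2 : a + 2 * s ≤ n - 1)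
    (m3 : s ≠ 0 → a ≤ n - 4) (m4 : a + 2 * s < n - 1 → a ≤ n - 3) (u v : Fin n) (huv : u < v)
    (hadj : ¬ HE n a 0 0 s u v) :
    ∃ w, w ≠ u ∧ w ≠ v ∧ ¬ (H n a 0 0 s).Adj u w ∧ ¬ (H n a 0 0 s).Adj v w := by
  obtain ⟨u, hu⟩ := u
  obtain ⟨v, hv⟩ := v
  have huv' : u < v := huv
  unfold HE at hadj
  simp only [not_or] at hadj
  obtain ⟨n1, -, n3⟩ := hadj
  rcases Nat.eq_zero_or_pos u with h0 | h0
  · -- `u` is the centre
    have hva : a < v := by omega
    by_cases hvs : v ≤ a + 2 * s
    · -- `v` is matched
      have hs : s ≠ 0 := by omega
      have ha4 := m3 hs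
      clear n1 n3 m3 m4
      by_cases hv2 : v ≤ a + 2
      · refine ⟨⟨a + 3, by omega⟩, ?_, ?_, not_adj ?_ ?_, not_adj ?_ ?_⟩
        · intro h; have := congrArg Fin.val h; simp only at this; omega
        · intro h; have := congrArg Fin.val h; simp only at this; omega
        all_goals
          unfold HE
          simp only
          rintro (h | h | h) <;> omega
      · refine ⟨⟨a + 1, by omega⟩, ?_, ?_, not_adj ?_ ?_, not_adj ?_ ?_⟩
        · intro h; have := congrArg Fin.val h; simp only at this; omega
        · intro h; have := congrArg Fin.val h; simp only at this; omega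
        all_goals
          unfold HE
          simp only
          rintro (h | h | h) <;> omega
    · have ha3 := m4 (by omega)
      clear n1 n3 m3 m4
      by_cases hv2 : v = a + 1
      · refine ⟨⟨a + 2, by omega⟩, ?_, ?_, not_adj ?_ ?_, not_adj ?_ ?_⟩
        · intro h; have := congrArg Fin.val h; simp only at this; omega
        · intro h; have := congrArg Fin.val h; simp only at this; omega
        all_goals
          unfold HE
          simp only
          rintro (h | h | h) <;> omega
      · refine ⟨⟨a + 1, by omega⟩, ?_, ?_, not_adj ?_ ?_, not_adj ?_ ?_⟩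
        · intro h; have := congrArg Fin.val h; simp only at this; omega
        · intro h; have := congrArg Fin.val h; simp only at this; omega
        all_goals
          unfold HE
          simp only
          rintro (h | h | h) <;> omega
  · clear m3 m4 n1
    by_cases hua : u ≤ a
    · clear n3
      by_cases hvs : a < v ∧ v ≤ a + 2 * s
      · -- leaf and matched
        obtain ⟨z, hz⟩ : ∃ z, z = if (v + 0 - (a + 0 + 1)) % 2 = 0 then v + 1 else v - 1 := ⟨_, rfl⟩
        obtain ⟨w, w1, w2, w3, w4, w5⟩ := pick4 u v z
        refine ⟨⟨w, by omega⟩, ?_, ?_, not_adj ?_ ?_, not_adj ?_ ?_⟩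
        · intro h; exact w3 (congrArg Fin.val h)
        · intro h; exact w4 (congrArg Fin.val h)
        all_goals
          unfold HE
          simp only
          split_ifs at hz <;> rintro (h | h | h) <;> omega
      · obtain ⟨w, w1, w2, w3, w4⟩ := pick3 u v
        refine ⟨⟨w, by omega⟩, ?_, ?_, not_adj ?_ ?_, not_adj ?_ ?_⟩
        · intro h; exact w3 (congrArg Fin.val h)
        · intro h; exact w4 (congrArg Fin.val h)
        all_goals
          unfold HE
          simp only
          rintro (h | h | h) <;> omega
    · clear n3
      refine ⟨⟨0, by omega⟩, ?_, ?_, not_adj ?_ ?_, not_adj ?_ ?_⟩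
      · intro h; have := congrArg Fin.val h; simp only at this; omega
      · intro h; have := congrArg Fin.val h; simp only at this; omega
      all_goals
        unfold HE
        simp only
        rintro (h | h | h) <;> omega

/-- Case `b ≥ 1`. -/
theorem cover1 {a b c s : ℕ} (hn : 5 ≤ n) (hb : 1 ≤ b) (hba : b ≤ a) (hcb : c ≤ b)
    (f1 : a + b - c + 2 * s ≤ n - 2) (m1 : a + b - c ≤ n - 3) (m6 : c ≠ 0 → s ≠ 0 → 6 ≤ n)
    (u v : Fin n) (huv : u < v) (hadj : ¬ HE n a b c s u v) (hadj' : ¬ HE n a b c s v u) :
    ∃ w, w ≠ u ∧ w ≠ v ∧ ¬ (H n a b c s).Adj u w ∧ ¬ (H n a b c s).Adj v w := by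
  obtain ⟨u, hu⟩ := u
  obtain ⟨v, hv⟩ := v
  have huv' : u < v := huv
  unfold HE at hadj hadj'
  simp only [not_or] at hadj hadj'
  obtain ⟨n1, -, -⟩ := hadj
  obtain ⟨-, n2, -⟩ := hadj'
  rcases Nat.eq_zero_or_pos u with h0 | h0
  · clear n2
    have hva : a < v := by omega
    clear n1
    by_cases hvn : v = n - 1
    · clear m6
      refine ⟨⟨a + b - c + 1, by omega⟩, ?_, ?_, not_adj ?_ ?_, not_adj ?_ ?_⟩
      · intro h; have := congrArg Fin.val h; simp only at this; omega
      · intro h; have := congrArg Fin.val h; simp only at this; omega
      all_goals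
        unfold HE
        simp only
        rintro (h | h | h) <;> omega
    · by_cases hvL : v ≤ a + b - c
      · clear m6
        by_cases hv1 : v = a + 1
        · refine ⟨⟨a + 2, by omega⟩, ?_, ?_, not_adj ?_ ?_, not_adj ?_ ?_⟩
          · intro h; have := congrArg Fin.val h; simp only at this; omega
          · intro h; have := congrArg Fin.val h; simp only at this; omega
          all_goals
            unfold HE
            simp only
            rintro (h | h | h) <;> omega
        · refine ⟨⟨a + 1, by omega⟩, ?_, ?_, not_adj ?_ ?_, not_adj ?_ ?_⟩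
          · intro h; have := congrArg Fin.val h; simp only at this; omega
          · intro h; have := congrArg Fin.val h; simp only at this; omega
          all_goals
            unfold HE
            simp only
            rintro (h | h | h) <;> omega
      · clear m6
        refine ⟨⟨n - 1, by omega⟩, ?_, ?_, not_adj ?_ ?_, not_adj ?_ ?_⟩
        · intro h; have := congrArg Fin.val h; simp only at this; omega
        · intro h; have := congrArg Fin.val h; simp only at this; omega
        all_goals
          unfold HE
          simp only
          rintro (h | h | h) <;> omega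
  · clear n1
    by_cases hvn : v = n - 1
    · clear m6
      have hu2 : ¬ (a + 1 ≤ u + c ∧ u + c ≤ a + b) := fun h => n2 ⟨hvn, h⟩
      clear n2
      by_cases hua : u ≤ a
      · have hu3 : u + c < a + 1 := by omega
        clear hu2
        refine ⟨⟨a + b - c + 1, by omega⟩, ?_, ?_, not_adj ?_ ?_, not_adj ?_ ?_⟩
        · intro h; have := congrArg Fin.val h; simp only at this; omega
        · intro h; have := congrArg Fin.val h; simp only at this; omega
        all_goals
          unfold HE
          simp only
          rintro (h | h | h) <;> omega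
      · have hu3 : a + b < u + c := by omega
        clear hu2
        refine ⟨⟨0, by omega⟩, ?_, ?_, not_adj ?_ ?_, not_adj ?_ ?_⟩
        · intro h; have := congrArg Fin.val h; simp only at this; omega
        · intro h; have := congrArg Fin.val h; simp only at this; omega
        all_goals
          unfold HE
          simp only
          rintro (h | h | h) <;> omega
    · clear n2
      by_cases huL : u ≤ a + b - c
      · by_cases hvs : a + b - c < v ∧ v ≤ a + b - c + 2 * s
        · have hs : s ≠ 0 := by omega
          by_cases huc : u + c < a + 1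
          · clear m6
            refine ⟨⟨n - 1, by omega⟩, ?_, ?_, not_adj ?_ ?_, not_adj ?_ ?_⟩
            · intro h; have := congrArg Fin.val h; simp only at this; omega
            · intro h; have := congrArg Fin.val h; simp only at this; omega
            all_goals
              unfold HE
              simp only
              rintro (h | h | h) <;> omega
          · by_cases hua : a < u
            · clear m6
              refine ⟨⟨0, by omega⟩, ?_, ?_, not_adj ?_ ?_, not_adj ?_ ?_⟩
              · intro h; have := congrArg Fin.val h; simp only at this; omega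
              · intro h; have := congrArg Fin.val h; simp only at this; omega
              all_goals
                unfold HE
                simp only
                rintro (h | h | h) <;> omega
            · have hn6 := m6 (by omega) hs
              clear m6
              obtain ⟨z, hz⟩ : ∃ z, z = if (v + c - (a + b + 1)) % 2 = 0 then v + 1 else v - 1 :=
                ⟨_, rfl⟩
              obtain ⟨w, w1, w2, w3, w4, w5⟩ := pick4 u v z
              refine ⟨⟨w, by omega⟩, ?_, ?_, not_adj ?_ ?_, not_adj ?_ ?_⟩
              · intro h; exact w3 (congrArg Fin.val h)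
              · intro h; exact w4 (congrArg Fin.val h)
              all_goals
                unfold HE
                simp only
                split_ifs at hz <;> rintro (h | h | h) <;> omega
        · clear m6
          obtain ⟨w, w1, w2, w3, w4⟩ := pick3 u v
          refine ⟨⟨w, by omega⟩, ?_, ?_, not_adj ?_ ?_, not_adj ?_ ?_⟩
          · intro h; exact w3 (congrArg Fin.val h)
          · intro h; exact w4 (congrArg Fin.val h)
          all_goals
            unfold HE
            simp only
            rintro (h | h | h) <;> omega
      · clear m6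
        refine ⟨⟨0, by omega⟩, ?_, ?_, not_adj ?_ ?_, not_adj ?_ ?_⟩
        · intro h; have := congrArg Fin.val h; simp only at this; omega
        · intro h; have := congrArg Fin.val h; simp only at this; omega
        all_goals
          unfold HE
          simp only
          rintro (h | h | h) <;> omega

end Pool.Agent.Work.MP_0ea01d_co
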