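import Mathlib

set_option autoImplicit false

namespace Pool.Agent.Work.MP_0ea01d_co

/-- `S(n,l)`: the sizes of the maximal antichains of `B_n` (the subsets of an `n`-element set,
ordered by inclusion) all of whose members have `l` or `l + 1` elements. -/
def S (n l : ℕ) : Set ℕ :=
  {m | ∃ A : Finset (Finset (Fin n)), (∀ X ∈ A, X.card = l ∨ X.card = l + 1) ∧
    IsMaxAntichain (· ⊆ ·) (A : Set (Finset (Fin n))) ∧ A.card = m}

end Pool.Agent.Work.MP_0ea01d_co
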