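import Pool.Agent.Work.MP_0ea01d_co.Cover

set_option autoImplicit false

namespace Pool.Agent.Work.MP_0ea01d_co

open Finset

variable {n : ℕ}

theorem mem_S_of_graph (hn : 3 ≤ n) (G : SimpleGraph (Fin n))
    (hcov : ∀ u v : Fin n, u < v → ¬ G.Adj u v →
      ∃ w, w ≠ u ∧ w ≠ v ∧ ¬ G.Adj u w ∧ ¬ G.Adj v w) :
    n.choose 2 - (Ind G 2).card + (Ind G 3).card ∈ S n 2 := by
  classical
  have hcov' : ∀ u v : Fin n, u ≠ v → ¬ G.Adj u v →
      ∃ w, w ≠ u ∧ w ≠ v ∧ ¬ G.Adj u w ∧ ¬ G.Adj v w := by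
    intro u v huv hadj
    rcases lt_or_gt_of_ne huv with h | h
    · exact hcov u v h hadj
    · obtain ⟨w, h1, h2, h3, h4⟩ := hcov v u h (fun hh => hadj hh.symm)
      exact ⟨w, h2, h1, h4, h3⟩
  have h := mem_S_of_family (l := 2) (by omega) (Ind G 2) (fun X hX => (mem_Ind.1 hX).1) (by
    intro X hX
    obtain ⟨hc, hind⟩ := mem_Ind.1 hX
    obtain ⟨u, v, huv, rfl⟩ := card_eq_two.1 hc
    obtain ⟨w, h1, h2, h3, h4⟩ := hcov' u v huv (hind u (by simp) v (by simp))
    refine ⟨{u, v, w}, ?_, ?_⟩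
    · rw [K_Ind, mem_Ind]
      constructor
      · rw [card_insert_of_notMem, card_pair h2.symm]
        simp only [mem_insert, mem_singleton, not_or]
        exact ⟨huv, h1.symm⟩
      · have huv' := hind u (by simp) v (by simp)
        intro p hp q hq hpq
        simp only [mem_insert, mem_singleton] at hp hq
        rcases hp with rfl | rfl | rfl <;> rcases hq with rfl | rfl | rfl
        · exact G.irrefl hpq
        · exact huv' hpq
        · exact h3 hpq
        · exact huv' hpq.symm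
        · exact G.irrefl hpq
        · exact h4 hpq
        · exact h3 hpq.symm
        · exact h4 hpq.symm
        · exact G.irrefl hpq
    · intro x hx
      simp only [mem_insert, mem_singleton] at hx ⊢
      tauto)
  rw [K_Ind] at h
  exact h

theorem two_choose (a : ℕ) : 2 * (a.choose 2 : ℤ) = a * (a - 1) := by
  have h := Nat.triangle_succ a
  induction a with
  | zero => simp
  | succ a ih =>
    have e : (a + 1).choose 2 = a + a.choose 2 := by
      rw [Nat.choose_succ_succ' a 1, Nat.choose_one_right]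
    rw [e]
    push_cast
    linarith [ih (Nat.triangle_succ a)]

/-- The realization in the good case. -/
theorem good_mem {a b c s : ℕ} (hn : 5 ≤ n) (hba : b ≤ a) (hcb : c ≤ b) (ha : 1 ≤ a)
    (f1 : b ≠ 0 → a + b - c + 2 * s ≤ n - 2) (f2 : b = 0 → a + 2 * s ≤ n - 1)
    (m1 : b ≠ 0 → a + b - c ≤ n - 3) (m3 : b = 0 → s ≠ 0 → a ≤ n - 4)
    (m4 : b = 0 → a + 2 * s < n - 1 → a ≤ n - 3) (m6 : c ≠ 0 → s ≠ 0 → 6 ≤ n) :
    ∃ m ∈ S n 2, (m : ℤ) = n.choose 3 - (a + b + s) * ((n : ℤ) - 3) + a.choose 2 + b.choose 2 + c := by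
  have hcov : ∀ u v : Fin n, u < v → ¬ (H n a b c s).Adj u v →
      ∃ w, w ≠ u ∧ w ≠ v ∧ ¬ (H n a b c s).Adj u w ∧ ¬ (H n a b c s).Adj v w := by
    intro u v huv hadj
    have hne := huv.ne
    simp only [H, SimpleGraph.fromRel_adj, not_and, not_or] at hadj
    obtain ⟨h1, h2⟩ := hadj hne
    rcases Nat.eq_zero_or_pos b with hb | hb
    · subst hb
      have hc0 : c = 0 := by omega
      subst hc0
      exact cover0 hn ha (f2 rfl) (m3 rfl) (m4 rfl) u v huv h1
    · exact cover1 hn hb hba hcb (f1 (by omega)) (m1 (by omega)) m6 u v huv h1 h2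
  have hmem := mem_S_of_graph (by omega) (H n a b c s) hcov
  obtain ⟨e1, e2⟩ := card3 (n := n) a b c (by omega) hcb (by
      rcases Nat.eq_zero_or_pos b with hb | hb
      · have := f2 hb; omega
      · have := f1 (by omega); omega) (fun hb => by have := f1 hb; omega) s (by
      rcases Nat.eq_zero_or_pos b with hb | hb
      · have := f2 hb; omega
      · have := f1 (by omega); omega) (fun hb => by have := f1 hb; omega)
  refine ⟨_, hmem, ?_⟩
  have hle : (Ind (H n a b c s) 2).card ≤ n.choose 2 := by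
    have : ((Ind (H n a b c s) 2).card : ℤ) ≤ n.choose 2 := by
      have : (0 : ℤ) ≤ (a : ℤ) + b + s := by positivity
      linarith
    exact_mod_cast this
  rw [Nat.cast_add, Nat.cast_sub hle]
  linarith

/-- The case `l = 2`. -/
theorem upper_two {t a b c : ℕ} (hn : 5 ≤ n) (hba : b ≤ a) (hcb : c ≤ b) (h1 : 1 ≤ a + b)
    (ht : a + b ≤ t) (htn : t ≤ n - 1)
    (hT : ((t : ℤ) - ((n - 1) / 2 : ℕ)) * ((n : ℤ) - 3) < a.choose 2 + b.choose 2 + c) :
    ∃ m ∈ S n 2, (m : ℤ) = n.choose 3 - t * ((n : ℤ) - 3) + a.choose 2 + b.choose 2 + c := by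
  have ca := two_choose a
  have cb := two_choose b
  set s := (n - 1) / 2 with hs
  have hs1 : 2 * (s : ℤ) ≤ n - 1 := by omega
  have hs2 : (n : ℤ) - 2 ≤ 2 * s := by omega
  have hn5 : (5 : ℤ) ≤ n := by exact_mod_cast hn
  have hba' : (b : ℤ) ≤ a := by exact_mod_cast hba
  have hcb' : (c : ℤ) ≤ b := by exact_mod_cast hcb
  have hb0 : (0 : ℤ) ≤ b := by positivity
  have hc0 : (0 : ℤ) ≤ c := by positivity
  have ht' : (a : ℤ) + b ≤ t := by exact_mod_cast ht
  have htn' : (t : ℤ) ≤ n - 1 := by omega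
  have hkey : (2 * (t : ℤ) - n + 1) * ((n : ℤ) - 3) < a * (a - 1) + b * (b - 1) + 2 * c := by
    have : (2 * (t : ℤ) - n + 1) * ((n : ℤ) - 3) ≤ 2 * (((t : ℤ) - s) * ((n : ℤ) - 3)) := by
      nlinarith
    linarith
  have hF1 : b ≠ 0 → 2 * (t : ℤ) - a - b - c ≤ n - 2 := by
    intro hb
    by_contra hcon
    push Not at hcon
    have hb1 : (1 : ℤ) ≤ b := by omega
    have q1 : (a : ℤ) + b + c ≤ 2 * t - n + 1 := by linarith
    have q2 : (a : ℤ) - 1 ≤ n - 3 - c := by linarith
    have q3 : (a : ℤ) * (a - 1) ≤ a * (n - 3 - c) := mul_le_mul_of_nonneg_left q2 (by linarith)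
    have q4 : (b : ℤ) * (b - 1) ≤ b * (n - 3 - c) :=
      mul_le_mul_of_nonneg_left (by linarith) (by linarith)
    have q5 : (c : ℤ) * 2 ≤ c * (a + b) := mul_le_mul_of_nonneg_left (by linarith) hc0
    have q6 : ((a : ℤ) + b) * (n - 3) ≤ (2 * t - n + 1) * (n - 3) :=
      mul_le_mul_of_nonneg_right (by linarith) (by linarith)
    nlinarith
  have hF2 : b = 0 → 2 * (t : ℤ) - a ≤ n - 1 := by
    intro hb
    subst hb
    have hc00 : c = 0 := by omega
    subst hc00
    by_contra hcon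
    push Not at hcon
    push_cast at *
    have q1 : (a : ℤ) ≤ 2 * t - n := by linarith
    have q2 : (a : ℤ) * (a - 1) ≤ a * (n - 3) :=
      mul_le_mul_of_nonneg_left (by linarith) (by positivity)
    have q3 : (a : ℤ) * (n - 3) ≤ (2 * t - n + 1) * (n - 3) :=
      mul_le_mul_of_nonneg_right (by linarith) (by linarith)
    nlinarith
  have hM1 : b ≠ 0 → a + b - c ≤ n - 3 := by
    intro hb
    have hF := hF1 hb
    by_contra hcon
    push Not at hcon
    have hb1 : (1 : ℤ) ≤ b := by omega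
    have e1 : (a : ℤ) + b - c ≥ n - 2 := by omega
    have e2 : (a : ℤ) + b = t := by linarith
    have e3 : (a : ℤ) + b = n - 2 + c := by linarith
    have e4 : (c : ℤ) ≤ 1 := by linarith
    have hc01 : c = 0 ∨ c = 1 := by omega
    rcases hc01 with rfl | rfl
    · push_cast at *
      have q1 : (a : ℤ) * (a - 1) ≤ a * (n - 4) :=
        mul_le_mul_of_nonneg_left (by linarith) (by linarith)
      have q2 : (b : ℤ) * (b - 1) ≤ b * (n - 4) :=
        mul_le_mul_of_nonneg_left (by linarith) (by linarith)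
      have e5 : (t : ℤ) = n - 2 := by linarith
      rw [e5] at hkey
      have e6 : (a : ℤ) * (n - 4) + b * (n - 4) = (n - 2) * (n - 4) := by
        rw [← add_mul, e3]; ring
      nlinarith
    · push_cast at *
      have e5 : (t : ℤ) = n - 1 := by linarith
      rw [e5] at hkey
      have e6 : (a : ℤ) = n - 1 - b := by linarith
      rw [e6] at hkey
      have q1 : (b : ℤ) ≤ n - 1 - b := by linarith
      nlinarith [mul_nonneg (show (0 : ℤ) ≤ b - 1 by linarith) (show (0 : ℤ) ≤ n - 2 - b by linarith)]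
  have hM3 : b = 0 → t - a - b ≠ 0 → a ≤ n - 4 := by
    intro hb hs0
    have hF := hF2 hb
    subst hb
    have hc00 : c = 0 := by omega
    subst hc00
    by_contra hcon
    push Not at hcon
    push_cast at *
    have e1 : (a : ℤ) ≥ n - 3 := by omega
    have e2 : (t : ℤ) ≥ a + 1 := by omega
    have e3 : (a : ℤ) = n - 3 := by linarith
    have e4 : (t : ℤ) = n - 2 := by linarith
    rw [e4, e3] at hkey
    nlinarith
  have hM6 : c ≠ 0 → t - a - b ≠ 0 → 6 ≤ n := by
    intro hc hs0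
    have hF := hF1 (by omega)
    by_contra hcon
    have hn5' : n = 5 := by omega
    subst hn5'
    have : a = 1 ∧ b = 1 ∧ c = 1 ∧ t = 3 := by omega
    obtain ⟨rfl, rfl, rfl, rfl⟩ := this
    norm_num at hkey
  have hts : (((t - a - b : ℕ)) : ℤ) = t - a - b := by omega
  by_cases hex : b = 0 ∧ a + 2 * (t - a - b) < n - 1 ∧ ¬ a ≤ n - 3
  · -- the exceptional case
    obtain ⟨hb, hx1, hx2⟩ := hex
    subst hb
    have hc00 : c = 0 := by omega
    subst hc00
    have ha2 : a = n - 2 := by omega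
    have ht2 : t = n - 2 := by omega
    obtain ⟨m, hm, hme⟩ := good_mem (n := n) (a := n - 3) (b := 0) (c := 0) (s := 0) hn (by omega)
      (by omega) (by omega) (by omega) (by omega) (by omega) (by omega) (by omega) (by omega)
    refine ⟨m, hm, ?_⟩
    rw [hme, ha2, ht2]
    have e1 : ((n - 3 : ℕ) : ℤ) = n - 3 := by omega
    have e2 : ((n - 2 : ℕ) : ℤ) = n - 2 := by omega
    have e3 := two_choose (n - 3)
    have e4 := two_choose (n - 2)
    rw [e1] at e3
    rw [e2] at e4
    push_cast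
    rw [e1, e2]
    simp only [Nat.choose_zero_succ, Nat.cast_zero, add_zero]
    nlinarith
  · obtain ⟨m, hm, hme⟩ := good_mem (n := n) (a := a) (b := b) (c := c) (s := t - a - b) hn hba hcb
      (by omega) (fun hb => by have := hF1 hb; omega) (fun hb => by have := hF2 hb; omega) hM1
      hM3 (fun hb hh => by
        by_contra hcon
        exact hex ⟨hb, hh, hcon⟩) hM6
    refine ⟨m, hm, ?_⟩
    rw [hme, hts]
    ring

/-- All levels, by coning. -/
theorem upper_all (d : ℕ) (hd : 3 ≤ d) {t a b c : ℕ} (hba : b ≤ a) (hcb : c ≤ b) (h1 : 1 ≤ a + b)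
    (ht : a + b ≤ t) (htd : t ≤ d + 1)
    (hT : ((t : ℤ) - ((d + 1) / 2 : ℕ)) * ((d : ℤ) - 1) < a.choose 2 + b.choose 2 + c) :
    ∀ k : ℕ, ∃ m ∈ S (k + 2 + d) (k + 2), (m : ℤ) = (k + 2 + d).choose (k + 3) -
      t * ((d : ℤ) - 1) + a.choose 2 + b.choose 2 + c := by
  intro k
  induction k with
  | zero =>
    obtain ⟨m, hm, hme⟩ := upper_two (n := 0 + 2 + d) (t := t) (a := a) (b := b) (c := c) (by omega)
      hba hcb h1 ht (by omega) (by
        have e1 : (0 + 2 + d - 1) / 2 = (d + 1) / 2 := by congr 1; omega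
        rw [e1]
        have e2 : (((0 + 2 + d : ℕ)) : ℤ) - 3 = d - 1 := by push_cast; ring
        rw [e2]
        exact hT)
    refine ⟨m, hm, ?_⟩
    rw [hme]
    have e2 : (((0 + 2 + d : ℕ)) : ℤ) - 3 = d - 1 := by push_cast; ring
    rw [e2]
  | succ k ih =>
    obtain ⟨m, hm, hme⟩ := ih
    have h := cone (n := k + 2 + d) (l := k + 2) (by omega) hm
    have e1 : k + 1 + 2 + d = (k + 2 + d) + 1 := by omega
    rw [e1]
    refine ⟨_, h, ?_⟩
    rw [Nat.cast_add, hme]
    have e2 : (k + 2 + d + 1).choose (k + 1 + 3) = (k + 2 + d).choose (k + 3) +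
        (k + 2 + d).choose (k + 2 + 2) := Nat.choose_succ_succ' (k + 2 + d) (k + 3)
    rw [e2]
    push_cast
    ring

end Pool.Agent.Work.MP_0ea01d_co
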