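import Pool.Agent.Work.MP_0ea01d_co.Defs

set_option autoImplicit false

namespace Pool.Agent.Work.MP_0ea01d_co

open Finset

variable {n l : ℕ}

/-- The `(l+1)`-sets all of whose `l`-subsets lie in `G`. -/
def K (l : ℕ) (G : Finset (Finset (Fin n))) : Finset (Finset (Fin n)) :=
  (univ.powersetCard (l + 1)).filter fun T => ∀ Y ∈ T.powersetCard l, Y ∈ G

theorem mem_K {G : Finset (Finset (Fin n))} {T : Finset (Fin n)} :
    T ∈ K l G ↔ T.card = l + 1 ∧ ∀ Y, Y ⊆ T → Y.card = l → Y ∈ G := by
  simp only [K, mem_filter, mem_powersetCard, subset_univ, true_and, and_imp]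

/-- The main criterion. -/
theorem mem_S_of_family (hl : l + 1 ≤ n) (G : Finset (Finset (Fin n)))
    (hG : ∀ X ∈ G, X.card = l) (hcov : ∀ X ∈ G, ∃ T ∈ K l G, X ⊆ T) :
    n.choose l - G.card + (K l G).card ∈ S n l := by
  classical
  have hGsub : G ⊆ univ.powersetCard l := by
    intro X hX
    rw [mem_powersetCard]
    exact ⟨subset_univ _, hG X hX⟩
  have hKc : ∀ T ∈ K l G, T.card = l + 1 := fun T hT => (mem_K.1 hT).1
  have hA : ∀ X, X ∈ (univ.powersetCard l \ G) ∪ K l G ↔ ((X.card = l ∧ X ∉ G) ∨ X ∈ K l G) := by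
    intro X
    simp only [mem_union, mem_sdiff, mem_powersetCard, subset_univ, true_and]
  refine ⟨(univ.powersetCard l \ G) ∪ K l G, ?_, ⟨?_, ?_⟩, ?_⟩
  · intro X hX
    rcases (hA X).1 hX with h | h
    · exact Or.inl h.1
    · exact Or.inr (hKc X h)
  · intro X hX Y hY hne hsub
    rw [mem_coe, hA] at hX hY
    have hcard := card_le_card hsub
    rcases hX with hX | hX
    · rcases hY with hY | hY
      · exact hne (eq_of_subset_of_card_le hsub (by rw [hX.1, hY.1]))
      · exact hX.2 ((mem_K.1 hY).2 X hsub hX.1)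
    · rcases hY with hY | hY
      · rw [hKc X hX, hY.1] at hcard
        omega
      · exact hne (eq_of_subset_of_card_le hsub (by rw [hKc X hX, hKc Y hY]))
  · intro t ht hsub
    refine Set.Subset.antisymm hsub ?_
    intro Z hZ
    by_contra hZA
    rw [mem_coe, hA, not_or] at hZA
    -- it suffices to find a member of the family comparable with `Z`
    have key : ∀ X, ((X.card = l ∧ X ∉ G) ∨ X ∈ K l G) → X ≠ Z → ¬ (X ⊆ Z) ∧ ¬ (Z ⊆ X) := by
      intro X hX hne
      have hXt : X ∈ t := hsub (by rw [mem_coe, hA]; exact hX)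
      exact ⟨ht hXt hZ hne, ht hZ hXt hne.symm⟩
    have key' : ∀ X, ((X.card = l ∧ X ∉ G) ∨ X ∈ K l G) → ¬ (X ⊆ Z) ∧ ¬ (Z ⊆ X) := by
      intro X hX
      refine key X hX ?_
      rintro rfl
      rcases hX with h | h
      · exact hZA.1 h
      · exact hZA.2 h
    rcases le_or_gt (l + 1) Z.card with hc | hc
    · obtain ⟨T, hTZ, hTc⟩ := exists_subset_card_eq hc
      by_cases hT : T ∈ K l G
      · exact (key' T (Or.inr hT)).1 hTZ
      · rw [mem_K] at hT
        push Not at hT
        obtain ⟨Y, hY1, hY2, hY3⟩ := hT hTc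
        exact (key' Y (Or.inl ⟨hY2, hY3⟩)).1 (hY1.trans hTZ)
    · obtain ⟨X, hZX, -, hXc⟩ := exists_subsuperset_card_eq (subset_univ Z)
        (show Z.card ≤ l by omega) (by rw [card_univ, Fintype.card_fin]; omega)
      by_cases hX : X ∈ G
      · obtain ⟨T, hT, hXT⟩ := hcov X hX
        exact (key' T (Or.inr hT)).2 (hZX.trans hXT)
      · exact (key' X (Or.inl ⟨hXc, hX⟩)).2 hZX
  · rw [card_union_of_disjoint, card_sdiff_of_subset hGsub, card_powersetCard, card_univ,
      Fintype.card_fin]
    rw [disjoint_left]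
    intro X hX hX'
    have h1 := hKc X hX'
    have h2 := (mem_powersetCard.1 (mem_sdiff.1 hX).1).2
    omega

/-- Coning: `S(n+1,l+1)` contains `S(n,l) + C(n,l+2)`. -/
theorem cone (hl : l + 2 ≤ n) {m : ℕ} (hm : m ∈ S n l) : m + n.choose (l + 2) ∈ S (n + 1) (l + 1) := by
  classical
  obtain ⟨A, hA1, hA2, rfl⟩ := hm
  let e : Fin n ↪ Fin (n + 1) := Fin.castSuccEmb
  have he : ∀ x : Fin n, e x ≠ Fin.last n := fun x => (Fin.castSucc_lt_last x).ne
  have hlast : ∀ X : Finset (Fin n), Fin.last n ∉ X.map e := by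
    intro X h
    obtain ⟨x, _, hx⟩ := mem_map.1 h
    exact he x hx
  let f : Finset (Fin n) → Finset (Fin (n + 1)) := fun X => insert (Fin.last n) (X.map e)
  have hfc : ∀ X, (f X).card = X.card + 1 := by
    intro X
    rw [card_insert_of_notMem (hlast X), card_map]
  have hflast : ∀ X, Fin.last n ∈ f X := fun X => mem_insert_self _ _
  have hfsub : ∀ X Y, f X ⊆ f Y ↔ X ⊆ Y := by
    intro X Y
    constructor
    · intro h x hx
      have h1 : e x ∈ f X := mem_insert_of_mem (mem_map_of_mem e hx)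
      have h2 := h h1
      rcases mem_insert.1 h2 with h3 | h3
      · exact absurd h3 (he x)
      · exact (mem_map' e).1 h3
    · intro h
      exact insert_subset_insert _ (map_subset_map.2 h)
  have hfinj : Function.Injective f := by
    intro X Y h
    exact Subset.antisymm ((hfsub X Y).1 h.subset) ((hfsub Y X).1 h.symm.subset)
  -- every set is either a cone or an embedded set
  have hcase : ∀ Z : Finset (Fin (n + 1)), (∃ X, Z = f X) ∨ (∃ X : Finset (Fin n), Z = X.map e) := by
    intro Z
    have hrep : ∀ W : Finset (Fin (n + 1)), Fin.last n ∉ W →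
        (univ.filter fun x : Fin n => e x ∈ W).map e = W := by
      intro W hW
      ext y
      simp only [mem_map, mem_filter, mem_univ, true_and]
      constructor
      · rintro ⟨x, hx, rfl⟩
        exact hx
      · intro hy
        have hne : y ≠ Fin.last n := by
          rintro rfl
          exact hW hy
        refine ⟨y.castPred hne, ?_, ?_⟩
        · have : e (y.castPred hne) = y := Fin.castSucc_castPred y hne
          rw [this]
          exact hy
        · exact Fin.castSucc_castPred y hne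
    by_cases hZ : Fin.last n ∈ Z
    · left
      refine ⟨univ.filter fun x : Fin n => e x ∈ Z.erase (Fin.last n), ?_⟩
      have h := hrep (Z.erase (Fin.last n)) (notMem_erase _ _)
      change Z = insert (Fin.last n) (map e (univ.filter fun x : Fin n => e x ∈ Z.erase (Fin.last n)))
      rw [h, insert_erase hZ]
    · right
      exact ⟨_, (hrep Z hZ).symm⟩
  let B : Finset (Finset (Fin (n + 1))) := (univ.powersetCard (l + 2)).map ⟨fun X => X.map e,
    fun X Y h => map_injective e h⟩
  have hB : ∀ Z, Z ∈ B ↔ ∃ X : Finset (Fin n), X.card = l + 2 ∧ X.map e = Z := by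
    intro Z
    simp only [B, mem_map, mem_powersetCard, subset_univ, true_and, Function.Embedding.coeFn_mk]
  have hmem : ∀ Z, Z ∈ A.image f ∪ B ↔ (∃ X ∈ A, f X = Z) ∨
      ∃ X : Finset (Fin n), X.card = l + 2 ∧ X.map e = Z := by
    intro Z
    rw [mem_union, mem_image, hB]
  refine ⟨A.image f ∪ B, ?_, ⟨?_, ?_⟩, ?_⟩
  · intro Z hZ
    rcases (hmem Z).1 hZ with ⟨X, hX, rfl⟩ | ⟨X, hX, rfl⟩
    · rw [hfc]
      rcases hA1 X hX with h | h <;> omega
    · rw [card_map, hX]
      right; rfl
  · intro Z hZ W hW hne hsub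
    have hZ := (hmem Z).1 (mem_coe.1 hZ)
    have hW := (hmem W).1 (mem_coe.1 hW)
    rcases hZ with ⟨X, hX, rfl⟩ | ⟨X, hX, rfl⟩
    · rcases hW with ⟨Y, hY, rfl⟩ | ⟨Y, hY, rfl⟩
      · exact hA2.1 hX hY (fun h => hne (by rw [h])) ((hfsub X Y).1 hsub)
      · exact hlast Y (hsub (hflast X))
    · rcases hW with ⟨Y, hY, rfl⟩ | ⟨Y, hY, rfl⟩
      · have hc := card_le_card hsub
        rw [hfc, card_map, hX] at hc
        have hXY : X ⊆ Y := by
          intro x hx
          have h2 := hsub (mem_map_of_mem e hx)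
          rcases mem_insert.1 h2 with h3 | h3
          · exact absurd h3 (he x)
          · exact (mem_map' e).1 h3
        have hc2 := card_le_card hXY
        rcases hA1 Y hY with h | h <;> omega
      · exact hne (eq_of_subset_of_card_le hsub (by rw [card_map, card_map, hX, hY]))
  · intro t ht hsub
    refine Set.Subset.antisymm hsub ?_
    intro Z hZ
    by_contra hZA
    have key : ∀ X, X ∈ A.image f ∪ B → ¬ (X ⊆ Z) ∧ ¬ (Z ⊆ X) := by
      intro X hX
      have hne : X ≠ Z := by
        rintro rfl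
        exact hZA (mem_coe.2 hX)
      have hXt : X ∈ t := hsub (mem_coe.2 hX)
      exact ⟨ht hXt hZ hne, ht hZ hXt hne.symm⟩
    rcases hcase Z with ⟨X, rfl⟩ | ⟨X, rfl⟩
    · -- `X` must be comparable with a member of `A`
      have hXA : X ∉ A := by
        intro h
        exact hZA (mem_coe.2 ((hmem _).2 (Or.inl ⟨X, h, rfl⟩)))
      have h1 : IsAntichain (· ⊆ ·) (insert X (A : Set (Finset (Fin n)))) := by
        rw [isAntichain_insert]
        refine ⟨hA2.1, ?_⟩
        intro Y hY hne
        have h2 := key (f Y) ((hmem _).2 (Or.inl ⟨Y, hY, rfl⟩))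
        rw [hfsub, hfsub] at h2
        exact ⟨h2.2, h2.1⟩
      have h3 := hA2.2 h1 (Set.subset_insert _ _)
      have h4 : X ∈ (A : Set (Finset (Fin n))) := by
        rw [h3]
        exact Set.mem_insert _ _
      exact hXA (mem_coe.1 h4)
    · rcases le_or_gt (l + 2) X.card with hc | hc
      · obtain ⟨T, hTX, hTc⟩ := exists_subset_card_eq hc
        exact (key (T.map e) ((hmem _).2 (Or.inr ⟨T, hTc, rfl⟩))).1 (map_subset_map.2 hTX)
      · obtain ⟨Y, hXY, -, hYc⟩ := exists_subsuperset_card_eq (subset_univ X)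
          (show X.card ≤ l + 2 by omega) (by rw [card_univ, Fintype.card_fin]; omega)
        exact (key (Y.map e) ((hmem _).2 (Or.inr ⟨Y, hYc, rfl⟩))).2 (map_subset_map.2 hXY)
  · rw [card_union_of_disjoint, card_image_of_injective _ hfinj, card_map, card_powersetCard,
      card_univ, Fintype.card_fin]
    rw [disjoint_left]
    intro Z hZ hZ'
    obtain ⟨X, _, rfl⟩ := mem_image.1 hZ
    obtain ⟨Y, _, h⟩ := (hB _).1 hZ'
    apply hlast Y
    rw [h]
    exact hflast X

end Pool.Agent.Work.MP_0ea01d_co
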