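import Pool.Agent.Work.MP_0ea01d_co.ThreeBound

set_option autoImplicit false

namespace Pool.Agent.Work.MP_0ea01d_co

open Finset

variable {a b l : ℕ}

/-- The label. -/
def rs (T : Finset (Fin a ⊕ ZMod b)) : ZMod b := ∑ x ∈ T.toRight, x

/-- The family `{v} ∪ X` with `v` in the first part and `X` an `l`-subset of `ℤ/b` with sum `s`. -/
def F4 [NeZero b] (a l : ℕ) (s : ZMod b) : Finset (Finset (Fin a ⊕ ZMod b)) :=
  univ.filter fun T => T.toLeft.card = 1 ∧ T.toRight.card = l ∧ rs T = s

theorem mem_F4 [NeZero b] {s : ZMod b} {T : Finset (Fin a ⊕ ZMod b)} :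
    T ∈ F4 a l s ↔ T.toLeft.card = 1 ∧ T.toRight.card = l ∧ rs T = s := by
  simp [F4]

theorem card_lr (T : Finset (Fin a ⊕ ZMod b)) : T.toLeft.card + T.toRight.card = T.card :=
  card_toLeft_add_card_toRight

theorem F4_priv [NeZero b] {s : ZMod b} {T T' : Finset (Fin a ⊕ ZMod b)}
    (hT : T ∈ F4 a l s) (hT' : T' ∈ F4 a l s) {x : ZMod b} (hx : Sum.inr x ∈ T)
    (hsub : T.erase (Sum.inr x) ⊆ T') : T' = T := by
  obtain ⟨h1, h2, h3⟩ := mem_F4.1 hT
  obtain ⟨h1', h2', h3'⟩ := mem_F4.1 hT'
  have hL : T.toLeft ⊆ T'.toLeft := by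
    intro v hv
    rw [mem_toLeft] at hv ⊢
    exact hsub (mem_erase.2 ⟨by simp, hv⟩)
  have hLe : T.toLeft = T'.toLeft := eq_of_subset_of_card_le hL (by rw [h1, h1'])
  have hR : T.toRight.erase x ⊆ T'.toRight := by
    intro v hv
    rw [mem_erase, mem_toRight] at hv
    rw [mem_toRight]
    apply hsub
    rw [mem_erase]
    exact ⟨fun h => hv.1 (Sum.inr.inj h), hv.2⟩
  have hxR : x ∈ T.toRight := mem_toRight.2 hx
  have hRc : (T.toRight.erase x).card + 1 = T'.toRight.card := by
    rw [card_erase_add_one hxR, h2, h2']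
  obtain ⟨u, hu, hue⟩ := exists_eq_insert_iff.2 ⟨hR, hRc⟩
  have hux : u = x := by
    have e1 : rs T' = u + ∑ y ∈ T.toRight.erase x, y := by
      unfold rs
      rw [← hue, sum_insert hu]
    have e2 : rs T = x + ∑ y ∈ T.toRight.erase x, y := by
      unfold rs
      rw [← add_sum_erase _ (fun y => y) hxR]
    rw [h3'] at e1
    rw [h3] at e2
    have := e1.symm.trans e2
    exact add_right_cancel this
  have hRe : T.toRight = T'.toRight := by
    rw [← hue, hux, insert_erase hxR]
  rw [← toLeft_disjSum_toRight (u := T), ← toLeft_disjSum_toRight (u := T'), hLe, hRe]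

theorem good_F4 [NeZero b] (hl : 2 ≤ l) (s : ZMod b) : Good l (F4 a l s) := by
  refine ⟨?_, ?_, ?_⟩
  · intro T hT
    obtain ⟨h1, h2, _⟩ := mem_F4.1 hT
    rw [← card_lr, h1, h2]
    omega
  · intro T hT
    obtain ⟨h1, h2, _⟩ := mem_F4.1 hT
    obtain ⟨x, hx⟩ := card_pos.1 (show 0 < T.toRight.card by omega)
    rw [mem_toRight] at hx
    refine ⟨T.erase (Sum.inr x), erase_subset _ _, ?_, ?_⟩
    · rw [card_erase_of_mem hx, ← card_lr, h1, h2]
      omega
    · intro T' hT' hsub
      exact F4_priv hT hT' hx hsub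
  · intro T hT hall
    have hall' : ∀ v ∈ T, ∃ T' ∈ F4 a l s, T.erase v ⊆ T' := by
      intro v hv
      exact hall (T.erase v) (erase_subset _ _) (by rw [card_erase_of_mem hv, hT]; rfl)
    have hlr := card_lr T
    rw [hT] at hlr
    -- at most one element on the left
    have hL1 : T.toLeft.card ≤ 1 := by
      by_contra hcon
      push Not at hcon
      obtain ⟨v, hv, v', hv', hne⟩ := one_lt_card.1 hcon
      rw [mem_toLeft] at hv hv'
      obtain ⟨w, hw, hw1, hw2⟩ : ∃ w ∈ T, w ≠ Sum.inl v ∧ w ≠ Sum.inl v' := by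
        by_contra hcon'
        push Not at hcon'
        have hsub : T ⊆ {Sum.inl v, Sum.inl v'} := by
          intro w hw
          rw [mem_insert, mem_singleton]
          by_cases h : w = Sum.inl v
          · exact Or.inl h
          · exact Or.inr (hcon' w hw h)
        have := (card_le_card hsub).trans (card_le_two)
        omega
      obtain ⟨T', hT', hsub⟩ := hall' w hw
      have m1 : v ∈ T'.toLeft := mem_toLeft.2 (hsub (mem_erase.2 ⟨hw1.symm, hv⟩))
      have m2 : v' ∈ T'.toLeft := mem_toLeft.2 (hsub (mem_erase.2 ⟨hw2.symm, hv'⟩))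
      have := one_lt_card.2 ⟨v, m1, v', m2, hne⟩
      have := (mem_F4.1 hT').1
      omega
    rcases Nat.eq_zero_or_pos T.toLeft.card with h0 | h0
    · -- everything on the right: impossible
      exfalso
      have hR : T.toRight.card = l + 1 := by omega
      have hsum : ∀ x ∈ T.toRight, rs T - x = s := by
        intro x hx
        obtain ⟨T', hT', hsub⟩ := hall' (Sum.inr x) (mem_toRight.1 hx)
        obtain ⟨h1', h2', h3'⟩ := mem_F4.1 hT'
        have hRs : T.toRight.erase x ⊆ T'.toRight := by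
          intro v hv
          rw [mem_erase, mem_toRight] at hv
          rw [mem_toRight]
          apply hsub
          rw [mem_erase]
          exact ⟨fun h => hv.1 (Sum.inr.inj h), hv.2⟩
        have he : T.toRight.erase x = T'.toRight := by
          apply eq_of_subset_of_card_le hRs
          rw [card_erase_of_mem hx, h2', hR]
          exact le_refl _
        have e1 : rs T = x + ∑ y ∈ T.toRight.erase x, y := by
          unfold rs
          rw [← add_sum_erase _ (fun y => y) hx]
        have e2 : rs T' = ∑ y ∈ T.toRight.erase x, y := by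
          unfold rs
          rw [he]
        rw [e1, ← e2, h3']
        ring
      obtain ⟨x, hx, x', hx', hne⟩ := one_lt_card.1 (show 1 < T.toRight.card by omega)
      apply hne
      have e1 := hsum x hx
      have e2 := hsum x' hx'
      linear_combination e2 - e1
    · have h1 : T.toLeft.card = 1 := by omega
      have hR : T.toRight.card = l := by omega
      obtain ⟨v, hv⟩ := card_pos.1 h0
      obtain ⟨T', hT', hsub⟩ := hall' (Sum.inl v) (mem_toLeft.1 hv)
      obtain ⟨h1', h2', h3'⟩ := mem_F4.1 hT'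
      have hRs : T.toRight ⊆ T'.toRight := by
        intro w hw
        rw [mem_toRight] at hw ⊢
        exact hsub (mem_erase.2 ⟨by simp, hw⟩)
      have he : T.toRight = T'.toRight := eq_of_subset_of_card_le hRs (by rw [hR, h2'])
      rw [mem_F4]
      refine ⟨h1, hR, ?_⟩
      unfold rs at h3' ⊢
      rw [he, h3']

theorem NN_F4 [NeZero b] (hl : 2 ≤ l) (s : ZMod b) :
    ((l : ℤ) - 1) * (F4 a l s).card ≤ NN l (F4 a l s) := by
  have hcard : ∀ T ∈ F4 a l s, T.card = l + 1 := (good_F4 hl s).card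
  have h := NN_ge (l := l) (F4 a l s) (fun _ => l) (by
    intro T hT
    refine ⟨T.toRight.map Function.Embedding.inr, ?_, ?_, ?_⟩
    · intro v hv
      obtain ⟨x, hx, rfl⟩ := mem_map.1 hv
      exact mem_toRight.1 hx
    · rw [card_map, (mem_F4.1 hT).2.1]
    · intro v hv T' hT' hsub
      obtain ⟨x, hx, rfl⟩ := mem_map.1 hv
      exact F4_priv hT hT' (mem_toRight.1 hx) hsub) hcard
  rw [sum_const, smul_eq_mul] at h
  push_cast at h
  linarith

theorem exists_F4 (a : ℕ) [NeZero b] (l : ℕ) : ∃ s : ZMod b,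
    (a : ℚ) * b.choose l / b ≤ (F4 a l s).card := by
  classical
  have hb : (0 : ℚ) < b := by exact_mod_cast Nat.pos_of_ne_zero (NeZero.ne b)
  let A : Finset (Finset (Fin a ⊕ ZMod b)) :=
    univ.filter fun T => T.toLeft.card = 1 ∧ T.toRight.card = l
  have hA : a * b.choose l ≤ A.card := by
    have h1 : ((powersetCard 1 (univ : Finset (Fin a))) ×ˢ
        (powersetCard l (univ : Finset (ZMod b)))).card = a * b.choose l := by
      rw [card_product, card_powersetCard, card_powersetCard, card_univ, card_univ,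
        Fintype.card_fin, ZMod.card, Nat.choose_one_right]
    rw [← h1]
    apply card_le_card_of_injOn (fun p => p.1.disjSum p.2)
    · intro p hp
      rw [mem_coe, mem_product, mem_powersetCard, mem_powersetCard] at hp
      rw [mem_coe, mem_filter]
      refine ⟨mem_univ _, ?_, ?_⟩
      · rw [toLeft_disjSum, hp.1.2]
      · rw [toRight_disjSum, hp.2.2]
    · intro p _ q _ h
      have h1 : p.1.disjSum p.2 = q.1.disjSum q.2 := h
      have e1 := congrArg toLeft h1
      have e2 := congrArg toRight h1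
      rw [toLeft_disjSum, toLeft_disjSum] at e1
      rw [toRight_disjSum, toRight_disjSum] at e2
      exact Prod.ext e1 e2
  obtain ⟨s, _, hs⟩ := exists_le_card_fiber_of_nsmul_le_card_of_maps_to (s := A)
    (t := (univ : Finset (ZMod b))) (f := rs) (b := (a : ℚ) * b.choose l / b)
    (fun _ _ => mem_univ _) univ_nonempty (by
      rw [card_univ, ZMod.card, nsmul_eq_mul, mul_div_cancel₀ _ hb.ne']
      exact_mod_cast hA)
  refine ⟨s, hs.trans ?_⟩
  have : (A.filter fun T => rs T = s) ⊆ F4 a l s := by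
    intro T hT
    rw [mem_filter, mem_filter] at hT
    rw [mem_F4]
    exact ⟨hT.1.2.1, hT.1.2.2, hT.2⟩
  exact_mod_cast card_le_card this

/-- Everything up to `C((l-1)a, l)` is a gain. -/
theorem four_interval (hl : 3 ≤ l) {n a : ℕ} (ha : 1 ≤ a)
    (hn : l * a + (2 * l + 2) + (l + 1) ^ 2 ≤ n)
    (hbig : (2 * l + 2).choose (l + 1) ≤ ((l - 1) * a).choose l) (x : ℤ) (h0 : 0 ≤ x)
    (h1 : x ≤ ((l - 1) * a).choose l) : ∃ t ∈ S n l, (t : ℤ) = n.choose l - x := by
  obtain ⟨b, hb⟩ : ∃ b, b = (l - 1) * a := ⟨_, rfl⟩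
  have hb0 : b ≠ 0 := by
    rw [hb]
    exact Nat.mul_ne_zero (by omega) (by omega)
  have : NeZero b := ⟨hb0⟩
  obtain ⟨s, hs⟩ := exists_F4 a (b := b) l
  have hN := NN_F4 (a := a) (b := b) (l := l) (by omega) s
  rw [← hb] at h1 hbig
  have hbQ : (b : ℚ) = (l - 1) * a := by
    rw [hb]
    push_cast [show 1 ≤ l by omega]
    ring
  have hgain : ((b.choose l : ℤ)) ≤ NN l (F4 a l s) := by
    have hbpos : (0 : ℚ) < b := by exact_mod_cast Nat.pos_of_ne_zero hb0
    have e1 : (b.choose l : ℚ) = ((l : ℚ) - 1) * ((a : ℚ) * b.choose l / b) := by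
      field_simp
      rw [hbQ]
      ring
    have e2 : ((l : ℚ) - 1) * ((a : ℚ) * b.choose l / b) ≤ ((l : ℚ) - 1) * (F4 a l s).card := by
      apply mul_le_mul_of_nonneg_left hs
      have : (3 : ℚ) ≤ l := by exact_mod_cast hl
      linarith
    have e3 : (b.choose l : ℚ) ≤ ((l : ℚ) - 1) * (F4 a l s).card := by rw [e1]; exact e2
    have e4 : (b.choose l : ℤ) ≤ ((l : ℤ) - 1) * (F4 a l s).card := by exact_mod_cast e3
    linarith
  refine interval hl (F4 a l s) (good_F4 (by omega) s) ?_ ?_ x h0 (h1.trans hgain)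
  · rw [Fintype.card_sum, Fintype.card_fin, ZMod.card, hb]
    have : a + (l - 1) * a = l * a := by
      obtain ⟨k, rfl⟩ : ∃ k, l = k + 1 := ⟨l - 1, by omega⟩
      rw [Nat.add_sub_cancel]
      ring
    omega
  · rw [NN_clq]
    have : ((2 * l + 2).choose (l + 1) : ℤ) ≤ b.choose l := by exact_mod_cast hbig
    have h3 : (0 : ℤ) ≤ (2 * l + 2).choose l := by positivity
    linarith

end Pool.Agent.Work.MP_0ea01d_co
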