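import Pool.Agent.Work.MP_0ea01d_co.Good

set_option autoImplicit false

namespace Pool.Agent.Work.MP_0ea01d_co

open Finset

section Count

variable {V ι : Type} [DecidableEq V] [Fintype ι] [DecidableEq ι] {l : ℕ}

omit [DecidableEq ι] in
theorem card_Gr_indexed (T δ : ι → Finset V) (hT : ∀ i, (T i).card = l + 1)
    (hδ : ∀ i, δ i ⊆ T i) (hδc : ∀ i, (δ i).card = l)
    (h : ∀ i i', i ≠ i' → ∀ Y : Finset V, Y ⊆ T i → Y ⊆ T i' → Y.card = l → Y = δ i) :
    (Gr l (univ.image T)).card = l * Fintype.card ι + (univ.image δ).card := by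
  have h1 : Gr l (univ.image T) =
      (univ.biUnion fun i => powersetCard l (T i) \ {δ i}) ∪ univ.image δ := by
    ext Y
    simp only [mem_Gr, mem_image, mem_univ, true_and, mem_union, mem_biUnion, mem_sdiff,
      mem_powersetCard, mem_singleton]
    constructor
    · rintro ⟨_, ⟨i, rfl⟩, hY, hYc⟩
      by_cases hd : Y = δ i
      · exact Or.inr ⟨i, hd.symm⟩
      · exact Or.inl ⟨i, ⟨hY, hYc⟩, hd⟩
    · rintro (⟨i, ⟨hY, hYc⟩, _⟩ | ⟨i, rfl⟩)
      · exact ⟨_, ⟨i, rfl⟩, hY, hYc⟩
      · exact ⟨_, ⟨i, rfl⟩, hδ i, hδc i⟩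
  have h2 : Disjoint (univ.biUnion fun i => powersetCard l (T i) \ {δ i}) (univ.image δ) := by
    rw [disjoint_left]
    intro Y hY hY'
    simp only [mem_biUnion, mem_univ, true_and, mem_sdiff, mem_powersetCard, mem_singleton] at hY
    simp only [mem_image, mem_univ, true_and] at hY'
    obtain ⟨i, ⟨hYi, hYc⟩, hne⟩ := hY
    obtain ⟨i', rfl⟩ := hY'
    have hii : i ≠ i' := by
      rintro rfl
      exact hne rfl
    exact hne (h i i' hii _ hYi (hδ i') hYc)
  rw [h1, card_union_of_disjoint h2, card_biUnion]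
  · have h3 : ∀ i ∈ (univ : Finset ι), (powersetCard l (T i) \ {δ i}).card = l := by
      intro i _
      rw [card_sdiff_of_subset, card_powersetCard, hT, Nat.choose_succ_self_right, card_singleton]
      · rfl
      · rw [singleton_subset_iff, mem_powersetCard]
        exact ⟨hδ i, hδc i⟩
    rw [sum_congr rfl h3, sum_const, card_univ, smul_eq_mul, mul_comm]
  · intro i _ i' _ hne
    refine disjoint_left.2 fun Y hY hY' => ?_
    simp only [mem_sdiff, mem_powersetCard, mem_singleton] at hY hY'
    exact hY.2 (h i i' hne Y hY.1.1 hY'.1.1 hY.1.2)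

end Count

/-- The ground set of the gadget. -/
abbrev GV (l : ℕ) : Type := (Fin (l + 1) × Fin l) ⊕ Fin (l + 1)

/-- The `p`-th core. -/
def core (l : ℕ) (p : Fin (l + 1)) : Finset (GV l) :=
  (univ : Finset (Fin l)).map ⟨fun y => Sum.inl (p, y), fun y y' h => by
    have := Sum.inl.inj h
    exact (Prod.mk.inj this).2⟩

/-- Index of the core used by the `i`-th member. -/
def pf (l j : ℕ) (i : Fin (l + 1)) : Fin (l + 1) := ⟨min i.val (j - 1), by omega⟩

/-- The `i`-th member. -/
def gm (l j : ℕ) (i : Fin (l + 1)) : Finset (GV l) := insert (Sum.inr i) (core l (pf l j i))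

/-- The gadget. -/
def gad (l j : ℕ) : Finset (Finset (GV l)) := univ.image (gm l j)

variable {l : ℕ}

theorem mem_core {p : Fin (l + 1)} {v : GV l} : v ∈ core l p ↔ ∃ y, v = Sum.inl (p, y) := by
  unfold core
  simp only [mem_map, mem_univ, true_and, Function.Embedding.coeFn_mk]
  exact ⟨fun ⟨y, h⟩ => ⟨y, h.symm⟩, fun ⟨y, h⟩ => ⟨y, h.symm⟩⟩

theorem card_core (p : Fin (l + 1)) : (core l p).card = l := by
  unfold core
  rw [card_map, card_univ, Fintype.card_fin]

theorem inr_notMem_core {p i : Fin (l + 1)} : (Sum.inr i : GV l) ∉ core l p := by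
  rw [mem_core]
  rintro ⟨y, h⟩
  simp at h

theorem card_gm (j : ℕ) (i : Fin (l + 1)) : (gm l j i).card = l + 1 := by
  unfold gm
  rw [card_insert_of_notMem inr_notMem_core, card_core]

theorem inr_mem_gm {j : ℕ} {i i' : Fin (l + 1)} : (Sum.inr i : GV l) ∈ gm l j i' ↔ i = i' := by
  unfold gm
  rw [mem_insert]
  constructor
  · rintro (h | h)
    · exact Sum.inr.inj h
    · exact (inr_notMem_core h).elim
  · rintro rfl
    exact Or.inl rfl

theorem gm_inj (j : ℕ) : Function.Injective (gm l j) := by
  intro i i' h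
  have : (Sum.inr i : GV l) ∈ gm l j i' := by
    rw [← h]
    exact inr_mem_gm.2 rfl
  exact inr_mem_gm.1 this

theorem eq_core {j : ℕ} {i : Fin (l + 1)} {Y : Finset (GV l)} (hY : Y ⊆ gm l j i)
    (hYc : Y.card = l) (hi : Sum.inr i ∉ Y) : Y = core l (pf l j i) := by
  apply eq_of_subset_of_card_le
  · intro v hv
    rcases mem_insert.1 (hY hv) with h | h
    · rw [h] at hv
      exact (hi hv).elim
    · exact h
  · rw [card_core, hYc]

theorem core_inj (hl : 1 ≤ l) : Function.Injective (core l) := by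
  intro p p' h
  have h1 : (Sum.inl (p, ⟨0, by omega⟩) : GV l) ∈ core l p' := by
    rw [← h, mem_core]
    exact ⟨_, rfl⟩
  obtain ⟨y, hy⟩ := mem_core.1 h1
  exact (Prod.mk.inj (Sum.inl.inj hy)).1

theorem NN_gad {j : ℕ} (hl : 1 ≤ l) (hj1 : 1 ≤ j) (hj : j ≤ l + 1) :
    NN l (gad l j) = (l : ℤ) ^ 2 - 1 + j := by
  have h1 := card_Gr_indexed (l := l) (gm l j) (fun i => core l (pf l j i)) (card_gm j)
    (fun i => subset_insert _ _) (fun i => card_core _) (by
      intro i i' hne Y hY hY' hYc
      apply eq_core hY hYc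
      intro h
      exact hne (inr_mem_gm.1 (hY' h)))
  have h2 : (univ.image (gm l j)).card = l + 1 := by
    rw [card_image_of_injective _ (gm_inj j), card_univ, Fintype.card_fin]
  have h3 : (univ.image fun i => core l (pf l j i)).card = j := by
    have e1 : (univ.image fun i => core l (pf l j i)) =
        ((univ : Finset (Fin (l + 1))).filter fun p => p.val < j).image (core l) := by
      ext Y
      simp only [mem_image, mem_univ, true_and, mem_filter]
      constructor
      · rintro ⟨i, rfl⟩
        exact ⟨pf l j i, by unfold pf; simp only; omega, rfl⟩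
      · rintro ⟨p, hp, rfl⟩
        refine ⟨p, ?_⟩
        congr 1
        ext
        unfold pf
        simp only
        omega
    rw [e1, card_image_of_injective _ (core_inj hl)]
    have e2 : ((univ : Finset (Fin (l + 1))).filter fun p => p.val < j).card = j := by
      rw [← card_image_of_injective _ Fin.val_injective]
      have : ((univ : Finset (Fin (l + 1))).filter fun p => p.val < j).image Fin.val = range j := by
        ext k
        simp only [mem_image, mem_filter, mem_univ, true_and, mem_range]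
        constructor
        · rintro ⟨p, hp, rfl⟩
          exact hp
        · intro hk
          exact ⟨⟨k, by omega⟩, hk, rfl⟩
      rw [this, card_range]
    exact e2
  unfold NN gad
  rw [h1, h2, h3, Fintype.card_fin]
  push_cast
  ring

theorem good_gad {j : ℕ} (hl : 2 ≤ l) : Good l (gad l j) := by
  refine ⟨?_, ?_, ?_⟩
  · intro T hT
    obtain ⟨i, _, rfl⟩ := mem_image.1 hT
    exact card_gm j i
  · intro T hT
    obtain ⟨i, _, rfl⟩ := mem_image.1 hT
    have hx : (Sum.inl (pf l j i, ⟨0, by omega⟩) : GV l) ∈ gm l j i :=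
      mem_insert_of_mem (mem_core.2 ⟨_, rfl⟩)
    refine ⟨(gm l j i).erase (Sum.inl (pf l j i, ⟨0, by omega⟩)), erase_subset _ _, ?_, ?_⟩
    · rw [card_erase_of_mem hx, card_gm]
      rfl
    · intro T' hT' hsub
      obtain ⟨i', _, rfl⟩ := mem_image.1 hT'
      have h1 : (Sum.inr i : GV l) ∈ gm l j i' := by
        apply hsub
        rw [mem_erase]
        exact ⟨by simp, inr_mem_gm.2 rfl⟩
      rw [inr_mem_gm.1 h1]
  · intro T hT hall
    have hall' : ∀ v ∈ T, ∃ i, T.erase v ⊆ gm l j i := by
      intro v hv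
      obtain ⟨T', hT', hsub⟩ := hall (T.erase v) (erase_subset _ _) (by
        rw [card_erase_of_mem hv, hT]; rfl)
      obtain ⟨i, _, rfl⟩ := mem_image.1 hT'
      exact ⟨i, hsub⟩
    by_cases hex : ∃ i, (Sum.inr i : GV l) ∈ T
    · obtain ⟨i, hi⟩ := hex
      -- the rest of `T` is a core
      obtain ⟨i₁, h₁⟩ := hall' _ hi
      have hnoinr : (Sum.inr i₁ : GV l) ∉ T.erase (Sum.inr i) := by
        intro hmem
        have hne : (Sum.inr i₁ : GV l) ≠ Sum.inr i := (mem_erase.1 hmem).1
        have hi₁ : (Sum.inr i₁ : GV l) ∈ T := (mem_erase.1 hmem).2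
        -- remove a third element
        have hc : 2 < T.card := by omega
        obtain ⟨v, hv, hv1, hv2⟩ : ∃ v ∈ T, v ≠ Sum.inr i ∧ v ≠ Sum.inr i₁ := by
          by_contra hcon
          push Not at hcon
          have hsub : T ⊆ {Sum.inr i, Sum.inr i₁} := by
            intro v hv
            rw [mem_insert, mem_singleton]
            by_cases h : v = Sum.inr i
            · exact Or.inl h
            · exact Or.inr (hcon v hv h)
          have := (card_le_card hsub).trans (card_le_two)
          omega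
        obtain ⟨i₂, h₂⟩ := hall' v hv
        have e1 := inr_mem_gm.1 (h₂ (mem_erase.2 ⟨hv1.symm, hi⟩))
        have e2 := inr_mem_gm.1 (h₂ (mem_erase.2 ⟨hv2.symm, hi₁⟩))
        exact hne (by rw [e1, e2])
      have hcore := eq_core h₁ (by rw [card_erase_of_mem hi, hT]; rfl) hnoinr
      -- remove an element of the core
      have hx : (Sum.inl (pf l j i₁, ⟨0, by omega⟩) : GV l) ∈ T := by
        have : (Sum.inl (pf l j i₁, ⟨0, by omega⟩) : GV l) ∈ T.erase (Sum.inr i) := by
          rw [hcore, mem_core]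
          exact ⟨_, rfl⟩
        exact (mem_erase.1 this).2
      have hx' : (Sum.inl (pf l j i₁, ⟨1, by omega⟩) : GV l) ∈ T := by
        have : (Sum.inl (pf l j i₁, ⟨1, by omega⟩) : GV l) ∈ T.erase (Sum.inr i) := by
          rw [hcore, mem_core]
          exact ⟨_, rfl⟩
        exact (mem_erase.1 this).2
      obtain ⟨i₂, h₂⟩ := hall' _ hx
      have e1 : i = i₂ := inr_mem_gm.1 (h₂ (mem_erase.2 ⟨by simp, hi⟩))
      have e2 : (Sum.inl (pf l j i₁, ⟨1, by omega⟩) : GV l) ∈ gm l j i₂ := by
        apply h₂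
        rw [mem_erase]
        refine ⟨?_, hx'⟩
        intro h
        have := (Prod.mk.inj (Sum.inl.inj h)).2
        simp [Fin.ext_iff] at this
      have e3 : pf l j i₁ = pf l j i₂ := by
        rcases mem_insert.1 e2 with h | h
        · simp at h
        · obtain ⟨y, hy⟩ := mem_core.1 h
          exact (Prod.mk.inj (Sum.inl.inj hy)).1
      have e4 : T = gm l j i := by
        unfold gm
        rw [← insert_erase hi, hcore, e3, ← e1]
      rw [e4]
      exact mem_image_of_mem _ (mem_univ _)
    · exfalso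
      push Not at hex
      have hc : 1 < T.card := by omega
      obtain ⟨v, hv, v', hv', hne⟩ := one_lt_card.1 hc
      obtain ⟨i, h⟩ := hall' v hv
      obtain ⟨i', h'⟩ := hall' v' hv'
      have c1 := eq_core h (by rw [card_erase_of_mem hv, hT]; rfl)
        (fun hm => hex _ (mem_erase.1 hm).2)
      have c2 := eq_core h' (by rw [card_erase_of_mem hv', hT]; rfl)
        (fun hm => hex _ (mem_erase.1 hm).2)
      -- a common third element
      obtain ⟨u, hu, hu1, hu2⟩ : ∃ u ∈ T, u ≠ v ∧ u ≠ v' := by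
        by_contra hcon
        push Not at hcon
        have hsub : T ⊆ {v, v'} := by
          intro u hu
          rw [mem_insert, mem_singleton]
          by_cases h : u = v
          · exact Or.inl h
          · exact Or.inr (hcon u hu h)
        have := (card_le_card hsub).trans (card_le_two)
        omega
      have m1 : u ∈ core l (pf l j i) := by
        rw [← c1]
        exact mem_erase.2 ⟨hu1, hu⟩
      have m2 : u ∈ core l (pf l j i') := by
        rw [← c2]
        exact mem_erase.2 ⟨hu2, hu⟩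
      obtain ⟨y, rfl⟩ := mem_core.1 m1
      obtain ⟨y', hy'⟩ := mem_core.1 m2
      have e1 := (Prod.mk.inj (Sum.inl.inj hy')).1
      rw [← e1, ← c1] at c2
      have : v' ∈ T.erase v := mem_erase.2 ⟨hne.symm, hv'⟩
      rw [← c2] at this
      exact (mem_erase.1 this).1 rfl

/-- A complete family. -/
def clq (l : ℕ) : Finset (Finset (Fin (2 * l + 2))) := powersetCard (l + 1) univ

theorem clo_clq : Clo l (clq l) :=
  ⟨fun _ hT => (mem_powersetCard.1 hT).2, fun _ hT _ => mem_powersetCard.2 ⟨subset_univ _, hT⟩⟩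

theorem NN_clq : NN l (clq l) = (2 * l + 2).choose l - (2 * l + 2).choose (l + 1) := by
  have h1 : Gr l (clq l) = powersetCard l univ := by
    ext Y
    rw [mem_Gr, mem_powersetCard]
    constructor
    · rintro ⟨T, _, _, hYc⟩
      exact ⟨subset_univ _, hYc⟩
    · rintro ⟨_, hYc⟩
      obtain ⟨T, hYT, -, hTc⟩ := exists_subsuperset_card_eq (subset_univ Y)
        (show Y.card ≤ l + 1 by omega) (by rw [card_univ, Fintype.card_fin]; omega)
      exact ⟨T, mem_powersetCard.2 ⟨subset_univ _, hTc⟩, hYT, hYc⟩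
  unfold NN
  rw [h1]
  unfold clq
  rw [card_powersetCard, card_powersetCard, card_univ, Fintype.card_fin]

theorem NN_clq_le (hl : 3 ≤ l) : NN l (clq l) ≤ -(l : ℤ) ^ 2 := by
  rw [NN_clq]
  have h1 : (2 * l + 2).choose (l + 1) * (l + 1) = (2 * l + 2).choose l * (2 * l + 2 - l) :=
    Nat.choose_succ_right_eq _ _
  have h2 : l * l * (l + 1) ≤ (2 * l + 2).choose l := by
    -- `C(2l+2,l) ≥ C(2l+2,3)`
    have h3 : (2 * l + 2).choose 3 ≤ (2 * l + 2).choose l := by
      have key : ∀ k, 3 ≤ k → k ≤ l → (2 * l + 2).choose 3 ≤ (2 * l + 2).choose k := by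
        intro k hk
        induction k, hk using Nat.le_induction with
        | base => intro _; exact le_refl _
        | succ k hk ih =>
          intro hkl
          refine (ih (by omega)).trans ?_
          exact Nat.choose_le_succ_of_lt_half_left (by omega)
      exact key l hl (le_refl _)
    have h4 : l * l * (l + 1) ≤ (2 * l + 2).choose 3 := by
      have h5 : (2 * l + 2).choose 3 * 6 = (2 * l + 2) * (2 * l + 1) * (2 * l) := by
        have e0 := Nat.choose_succ_right_eq (2 * l + 2) 2
        have e1 := Nat.choose_succ_right_eq (2 * l + 2) 1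
        have e2 : (2 * l + 2).choose 1 = 2 * l + 2 := Nat.choose_one_right _
        have e3 : 2 * l + 2 - 2 = 2 * l := by omega
        have e4 : 2 * l + 2 - 1 = 2 * l + 1 := by omega
        rw [e3] at e0
        rw [e4, e2] at e1
        have e5 : (2 * l + 2).choose (2 + 1) * (2 + 1) * 2 = (2 * l + 2) * (2 * l + 1) * (2 * l) := by
          rw [e0, ← e1]
          ring
        linarith
      nlinarith
    exact h4.trans h3
  have h6 : 2 * l + 2 - l = l + 2 := by omega
  rw [h6] at h1
  have h7 : ((2 * l + 2).choose (l + 1) : ℤ) * (l + 1) = (2 * l + 2).choose l * (l + 2) := by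
    exact_mod_cast h1
  have h8 : (l : ℤ) * l * (l + 1) ≤ (2 * l + 2).choose l := by exact_mod_cast h2
  nlinarith

/-- Combining a subfamily, the gadget and one more closed family. -/
theorem combine {W U : Type} [Fintype W] [DecidableEq W] [Fintype U] [DecidableEq U] {n : ℕ}
    (hl : 2 ≤ l) (F : Finset (Finset W)) (h : Good l F) (C : Finset (Finset U)) (hC : Clo l C)
    (hn : Fintype.card W + Fintype.card U + (l + 1) ^ 2 ≤ n) (x : ℤ)
    (h1 : (l : ℤ) ^ 2 + NN l C ≤ x) (h2 : x ≤ NN l F + l ^ 2 + NN l C) :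
    ∃ m ∈ S n l, (m : ℤ) = n.choose l - x := by
  obtain ⟨F', hF', a1, a2⟩ := exists_sub (l := l) F h.card (x - l ^ 2 - NN l C) (by linarith)
    (by linarith)
  obtain ⟨ρ, hρ⟩ : ∃ ρ : ℕ, (ρ : ℤ) = x - l ^ 2 - NN l C - NN l F' :=
    ⟨(x - l ^ 2 - NN l C - NN l F').toNat, Int.toNat_of_nonneg (by linarith)⟩
  have hρl : ρ ≤ l := by
    have : (ρ : ℤ) ≤ l := by linarith
    exact_mod_cast this
  have hcard : Fintype.card ((W ⊕ U) ⊕ GV l) ≤ Fintype.card (Fin n) := by
    rw [Fintype.card_sum, Fintype.card_sum, Fintype.card_sum, Fintype.card_prod, Fintype.card_fin,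
      Fintype.card_fin, Fintype.card_fin]
    nlinarith
  obtain ⟨e⟩ := Function.Embedding.nonempty_of_card_le hcard
  have hdisj : ∀ {A B : Type} [DecidableEq A] [DecidableEq B] (F₀ : Finset (Finset A))
      (F₁ : Finset (Finset B)), ∀ T ∈ mapF (Function.Embedding.inl (β := B)) F₀,
      ∀ T' ∈ mapF (Function.Embedding.inr (α := A)) F₁, Disjoint T T' := by
    intro A B _ _ F₀ F₁ T hT T' hT'
    obtain ⟨T₁, _, rfl⟩ := mem_mapF.1 hT
    obtain ⟨T₂, _, rfl⟩ := mem_mapF.1 hT'
    rw [disjoint_left]
    intro v hv hv'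
    obtain ⟨w, _, rfl⟩ := mem_map.1 hv
    obtain ⟨w', _, hw'⟩ := mem_map.1 hv'
    simp at hw'
  have g1 : Clo l (mapF (Function.Embedding.inl (β := U)) F') := (h.sub hF').map (by omega) _
  have g1' : Clo l (mapF (Function.Embedding.inr (α := W)) C) := hC.map (by omega) _
  have g12 := g1.union hl g1' (hdisj F' C)
  have g2 : Clo l (gad l (ρ + 1)) := (good_gad hl).sub (Subset.refl _)
  have g3 := ((g12.map (by omega) (Function.Embedding.inl (β := GV l))).union hl
    (g2.map (by omega) (Function.Embedding.inr (α := W ⊕ U))) (hdisj _ _)).map (by omega) e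
  have hn' : l + 1 ≤ n := by nlinarith
  obtain ⟨m, hm, hme⟩ := g3.mem_S hn'
  refine ⟨m, hm, ?_⟩
  rw [hme, NN_mapF, NN_union (by omega) (g12.map (by omega) _).card (hdisj _ _), NN_mapF, NN_mapF,
    NN_union (by omega) g1.card (hdisj _ _), NN_mapF, NN_mapF,
    NN_gad (by omega) (by omega) (by omega)]
  push_cast
  linarith

/-- The interval theorem. -/
theorem interval {W : Type} [Fintype W] [DecidableEq W] {n : ℕ} (hl : 3 ≤ l)
    (F : Finset (Finset W)) (h : Good l F)
    (hn : Fintype.card W + (2 * l + 2) + (l + 1) ^ 2 ≤ n)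
    (hF : -NN l (clq l) ≤ NN l F) (x : ℤ) (h1 : 0 ≤ x) (h2 : x ≤ NN l F) :
    ∃ m ∈ S n l, (m : ℤ) = n.choose l - x := by
  have hclq := NN_clq_le hl
  by_cases hx : (l : ℤ) ^ 2 ≤ x
  · refine combine (U := Fin 0) (by omega) F h ∅ ⟨by simp, ?_⟩ (by
      rw [Fintype.card_fin]; omega) x (by rw [NN_empty]; linarith) (by
      rw [NN_empty]
      have : (0 : ℤ) ≤ (l : ℤ) ^ 2 := by positivity
      linarith)
    intro T hT
    have : T.card ≤ 0 := by
      have := card_le_univ T
      rwa [Fintype.card_fin] at this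
    omega
  · exact combine (by omega) F h (clq l) clo_clq (by rw [Fintype.card_fin]; omega) x
      (by linarith) (by linarith)

end Pool.Agent.Work.MP_0ea01d_co
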