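import Pool.Agent.Work.MP_0ea01d_co.Good

/-!
# No gaps, part A: closed families from antichains, interpolation, far unions
-/

set_option autoImplicit false

namespace Pool.Agent.Work.MP_0ea01d_co

open Finset

/-- Every element of `S(n,l)` comes from a closed family. -/
theorem exists_clo_of_mem_S {n l m : ℕ} (hl : l + 1 ≤ n) (hm : m ∈ S n l) :
    ∃ F : Finset (Finset (Fin n)), Clo l F ∧ (m : ℤ) = n.choose l - NN l F := by
  classical
  have _ := hl
  obtain ⟨A, hA1, hA2, rfl⟩ := hm
  have hmax : ∀ Z : Finset (Fin n), (∀ X ∈ A, X ≠ Z → ¬ (X ⊆ Z) ∧ ¬ (Z ⊆ X)) → Z ∈ A := by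
    intro Z hZ
    have h1 : IsAntichain (· ⊆ ·) (insert Z (A : Set (Finset (Fin n)))) := by
      rw [isAntichain_insert]
      refine ⟨hA2.1, ?_⟩
      intro Y hY hne
      have h2 := hZ Y hY hne.symm
      exact ⟨h2.2, h2.1⟩
    have h3 := hA2.2 h1 (Set.subset_insert _ _)
    have h4 : Z ∈ (A : Set (Finset (Fin n))) := by
      rw [h3]
      exact Set.mem_insert _ _
    exact mem_coe.1 h4
  have hanti : ∀ X ∈ A, ∀ Y ∈ A, X ⊆ Y → X = Y := by
    intro X hX Y hY hXY
    by_contra hne
    exact hA2.1 (mem_coe.2 hX) (mem_coe.2 hY) hne hXY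
  set F := A.filter (fun X => X.card = l + 1) with hF
  have hmemF : ∀ T, T ∈ F ↔ T ∈ A ∧ T.card = l + 1 := fun T => mem_filter
  have hlow : ∀ Y : Finset (Fin n), Y.card = l → (Y ∈ A ↔ Y ∉ Gr l F) := by
    intro Y hYc
    constructor
    · intro hY hYG
      obtain ⟨T, hT, hYT, _⟩ := mem_Gr.1 hYG
      obtain ⟨hTA, hTc⟩ := (hmemF T).1 hT
      have := hanti Y hY T hTA hYT
      rw [this, hTc] at hYc
      omega
    · intro hY
      apply hmax
      intro X hX hne
      constructor
      · intro hXY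
        have hc := card_le_card hXY
        rcases hA1 X hX with h | h
        · exact hne (eq_of_subset_of_card_le hXY (by omega))
        · omega
      · intro hYX
        rcases hA1 X hX with h | h
        · exact hne (eq_of_subset_of_card_le hYX (by omega)).symm
        · exact hY (mem_Gr.2 ⟨X, (hmemF X).2 ⟨hX, h⟩, hYX, hYc⟩)
  have hclo : Clo l F := by
    refine ⟨fun T hT => ((hmemF T).1 hT).2, fun T hTc hall => ?_⟩
    rw [hmemF]
    refine ⟨?_, hTc⟩
    apply hmax
    intro X hX hne
    constructor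
    · intro hXT
      have hc := card_le_card hXT
      rcases hA1 X hX with h | h
      · obtain ⟨T', hT', hXT'⟩ := hall X hXT h
        exact ((hlow X h).1 hX) (mem_Gr.2 ⟨T', hT', hXT', h⟩)
      · exact hne (eq_of_subset_of_card_le hXT (by omega))
    · intro hTX
      have hc := card_le_card hTX
      rcases hA1 X hX with h | h
      · omega
      · exact hne (eq_of_subset_of_card_le hTX (by omega)).symm
  refine ⟨F, hclo, ?_⟩
  have hG : Gr l F ⊆ powersetCard l univ := by
    intro Y hY
    obtain ⟨T, hT, hYT, hYc⟩ := mem_Gr.1 hY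
    exact mem_powersetCard.2 ⟨subset_univ _, hYc⟩
  have hsplit : A = (powersetCard l univ \ Gr l F) ∪ F := by
    ext X
    rw [mem_union, mem_sdiff, mem_powersetCard, hmemF]
    constructor
    · intro hX
      rcases hA1 X hX with h | h
      · exact Or.inl ⟨⟨subset_univ _, h⟩, (hlow X h).1 hX⟩
      · exact Or.inr ⟨hX, h⟩
    · rintro (⟨⟨_, h⟩, h'⟩ | ⟨h, _⟩)
      · exact (hlow X h).2 h'
      · exact h
  have hdisj : Disjoint (powersetCard l univ \ Gr l F) F := by
    rw [disjoint_left]
    intro X hX hX'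
    have h1 := (mem_powersetCard.1 (mem_sdiff.1 hX).1).2
    have h2 := ((hmemF X).1 hX').2
    omega
  have hcard : A.card = (n.choose l - (Gr l F).card) + F.card := by
    conv_lhs => rw [hsplit]
    rw [card_union_of_disjoint hdisj, card_sdiff_of_subset hG, card_powersetCard, card_univ,
      Fintype.card_fin]
  have hle : (Gr l F).card ≤ n.choose l := by
    have h2 := card_le_card hG
    rwa [card_powersetCard, card_univ, Fintype.card_fin] at h2
  rw [hcard]
  unfold NN
  rw [Nat.cast_add, Nat.cast_sub hle]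
  ring

section General

variable {V : Type} [DecidableEq V] {l : ℕ}

theorem Clo.empty : Clo l (∅ : Finset (Finset V)) := by
  refine ⟨by simp, fun T hT hall => ?_⟩
  obtain ⟨Y, hY, hYc⟩ := exists_subset_card_eq (show l ≤ T.card by omega)
  obtain ⟨T', hT', _⟩ := hall Y hY hYc
  simp at hT'

/-- Two different members share at most one `l`-set. -/
theorem eq_of_two {T T' Y Y' : Finset V} (hT : T.card = l + 1) (hT' : T'.card = l + 1)
    (hY : Y.card = l) (hY' : Y'.card = l) (hne : Y ≠ Y') (h1 : Y ⊆ T) (h2 : Y' ⊆ T)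
    (h3 : Y ⊆ T') (h4 : Y' ⊆ T') : T = T' := by
  have hU : l + 1 ≤ (Y ∪ Y').card := by
    by_contra hcon
    have h5 : (Y ∪ Y').card = Y.card := by
      have := card_le_card (subset_union_left : Y ⊆ Y ∪ Y')
      omega
    have h6 : Y = Y ∪ Y' := eq_of_subset_of_card_le subset_union_left (by omega)
    have h7 : Y' ⊆ Y := by
      rw [h6]
      exact subset_union_right
    exact hne (eq_of_subset_of_card_le h7 (by omega)).symm
  have e1 : Y ∪ Y' = T := eq_of_subset_of_card_le (union_subset h1 h2) (by omega)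
  have e2 : Y ∪ Y' = T' := eq_of_subset_of_card_le (union_subset h3 h4) (by omega)
  rw [← e1, e2]

/-- Removing a subfamily costs at most `l` for each removed member. -/
theorem NN_le_add {F F' : Finset (Finset V)} (hc : ∀ T ∈ F, T.card = l + 1) (hs : F' ⊆ F) :
    NN l F ≤ NN l F' + l * (F \ F').card := by
  have h1 : (Gr l F).card ≤ (Gr l F').card + (F \ F').card * (l + 1) := by
    have h2 : Gr l F = Gr l F' ∪ Gr l (F \ F') := by
      unfold Gr
      rw [← union_biUnion, union_sdiff_of_subset hs]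
    rw [h2]
    refine (card_union_le _ _).trans ?_
    gcongr
    unfold Gr
    refine card_biUnion_le_card_mul _ _ _ fun T hT => ?_
    rw [card_powersetCard, hc T (mem_sdiff.1 hT).1, Nat.choose_succ_self_right]
  have h3 : F.card = F'.card + (F \ F').card := by
    rw [card_sdiff_of_subset hs]
    have := card_le_card hs
    omega
  unfold NN
  rw [h3]
  have h4 : ((Gr l F).card : ℤ) ≤ (Gr l F').card + (F \ F').card * (l + 1) := by exact_mod_cast h1
  push_cast
  linarith

/-- Interpolation in a closed family. -/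
theorem interp (hl : 1 ≤ l) (F : Finset (Finset V)) (h : Clo l F) (τ : ℤ) (h0 : 0 ≤ τ)
    (h1 : τ ≤ NN l F) : ∃ F' ⊆ F, Clo l F' ∧ τ ≤ NN l F' ∧ NN l F' + 1 ≤ τ + l := by
  induction hN : F.card using Nat.strong_induction_on generalizing F with
  | _ N ih =>
    by_cases hdone : NN l F + 1 ≤ τ + l
    · exact ⟨F, Subset.refl _, h, h1, hdone⟩
    push Not at hdone
    have hne : F.Nonempty := by
      rw [nonempty_iff_ne_empty]
      rintro rfl
      rw [NN_empty] at hdone
      have : (1 : ℤ) ≤ l := by exact_mod_cast hl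
      linarith
    by_cases hpriv : ∃ T ∈ F, ∃ Y, Y ⊆ T ∧ Y.card = l ∧ ∀ T' ∈ F, Y ⊆ T' → T' = T
    · obtain ⟨T, hT, Y, hYT, hYc, huniq⟩ := hpriv
      have hclo : Clo l (F.erase T) := by
        refine ⟨fun Z hZ => h.card Z (mem_of_mem_erase hZ), fun Z hZ hall => ?_⟩
        have hZF : Z ∈ F := by
          apply h.closed Z hZ
          intro W hW hWc
          obtain ⟨T', hT', hWT'⟩ := hall W hW hWc
          exact ⟨T', mem_of_mem_erase hT', hWT'⟩
        rw [mem_erase]
        refine ⟨?_, hZF⟩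
        rintro rfl
        obtain ⟨T', hT', hYT'⟩ := hall Y hYT hYc
        exact (mem_erase.1 hT').1 (huniq T' (mem_of_mem_erase hT') hYT')
      have hcard : (F.erase T).card = F.card - 1 := card_erase_of_mem hT
      have hpos : 0 < F.card := card_pos.2 hne
      have hstep : NN l F ≤ NN l (F.erase T) + l := by
        have h2 := NN_le_add (l := l) h.card (erase_subset T F)
        have h3 : (F \ F.erase T).card = 1 := by
          rw [card_sdiff_of_subset (erase_subset T F), hcard]
          omega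
        rw [h3] at h2
        simpa using h2
      obtain ⟨F', hF', h3, h4, h5⟩ := ih (F.erase T).card (by omega) (F.erase T) hclo
        (by linarith) rfl
      exact ⟨F', hF'.trans (erase_subset _ _), h3, h4, h5⟩
    · push Not at hpriv
      obtain ⟨T₀, hT₀⟩ := hne
      obtain ⟨Y₀, hY₀, hYc₀⟩ := exists_subset_card_eq
        (show l ≤ T₀.card by rw [h.card T₀ hT₀]; omega)
      set F₁ := F.filter (fun T => ¬ Y₀ ⊆ T) with hF₁
      have hsub : F₁ ⊆ F := filter_subset _ _
      have hclo : Clo l F₁ := by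
        refine ⟨fun Z hZ => h.card Z (hsub hZ), fun Z hZ hall => ?_⟩
        have hZF : Z ∈ F := by
          apply h.closed Z hZ
          intro W hW hWc
          obtain ⟨T', hT', hWT'⟩ := hall W hW hWc
          exact ⟨T', hsub hT', hWT'⟩
        rw [mem_filter]
        refine ⟨hZF, fun hcon => ?_⟩
        obtain ⟨T', hT', hYT'⟩ := hall Y₀ hcon hYc₀
        exact (mem_filter.1 hT').2 hYT'
      have hlt : F₁.card < F.card := by
        apply card_lt_card
        refine ⟨hsub, fun hcon => ?_⟩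
        exact (mem_filter.1 (hcon hT₀)).2 hY₀
      have hGr : Gr l F ⊆ insert Y₀ (Gr l F₁) := by
        intro Y hY
        obtain ⟨T, hT, hYT, hYc⟩ := mem_Gr.1 hY
        rw [mem_insert]
        by_cases hYY : Y = Y₀
        · exact Or.inl hYY
        right
        by_cases hYT₀ : Y₀ ⊆ T
        · obtain ⟨T', hT', hYT', hTT'⟩ := hpriv T hT Y hYT hYc
          refine mem_Gr.2 ⟨T', mem_filter.2 ⟨hT', fun hcon => ?_⟩, hYT', hYc⟩
          exact hTT' (eq_of_two (h.card T hT) (h.card T' hT') hYc hYc₀ hYY hYT hYT₀ hYT' hcon).symm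
        · exact mem_Gr.2 ⟨T, mem_filter.2 ⟨hT, hYT₀⟩, hYT, hYc⟩
      have hstep : NN l F ≤ NN l F₁ := by
        have h2 := (card_le_card hGr).trans (card_insert_le _ _)
        unfold NN
        have h3 : ((Gr l F).card : ℤ) ≤ (Gr l F₁).card + 1 := by exact_mod_cast h2
        have h4 : (F₁.card : ℤ) + 1 ≤ F.card := by exact_mod_cast hlt
        linarith
      obtain ⟨F', hF', h3, h4, h5⟩ := ih F₁.card (by omega) F₁ hclo (by linarith) rfl
      exact ⟨F', hF'.trans hsub, h3, h4, h5⟩

/-- Members of the two families are far from each other. -/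
def Far (l : ℕ) (F₁ F₂ : Finset (Finset V)) : Prop :=
  ∀ T ∈ F₁, ∀ T' ∈ F₂, (T ∩ T').card + 2 ≤ l

theorem inter_card {Z Y Y' : Finset V} (hZ : Z.card = l + 1) (hY : Y ⊆ Z) (hY' : Y' ⊆ Z)
    (hYc : Y.card = l) (hYc' : Y'.card = l) : l ≤ (Y ∩ Y').card + 1 := by
  have h1 := card_union_add_card_inter Y Y'
  have h2 := card_le_card (union_subset hY hY')
  omega

theorem Clo.far_union {F₁ F₂ : Finset (Finset V)} (h₁ : Clo l F₁) (h₂ : Clo l F₂)
    (hd : Far l F₁ F₂) : Clo l (F₁ ∪ F₂) := by
  refine ⟨?_, ?_⟩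
  · intro T hT
    rcases mem_union.1 hT with h | h
    · exact h₁.card T h
    · exact h₂.card T h
  · intro T hT hall
    obtain ⟨Y₀, hY₀, hYc₀⟩ := exists_subset_card_eq (show l ≤ T.card by omega)
    obtain ⟨T₀, hT₀, hYT₀⟩ := hall Y₀ hY₀ hYc₀
    have key : ∀ T₁ ∈ F₁, ∀ T₂ ∈ F₂, ∀ Y₁ Y₂ : Finset V, Y₁ ⊆ T → Y₂ ⊆ T → Y₁.card = l →
        Y₂.card = l → Y₁ ⊆ T₁ → Y₂ ⊆ T₂ → False := by
      intro T₁ hT₁ T₂ hT₂ Y₁ Y₂ a1 a2 b1 b2 c1 c2
      have h3 := inter_card hT a1 a2 b1 b2
      have h4 := card_le_card (inter_subset_inter c1 c2)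
      have h5 := hd T₁ hT₁ T₂ hT₂
      omega
    rcases mem_union.1 hT₀ with h | h
    · apply mem_union_left
      apply h₁.closed T hT
      intro Y hY hYc
      obtain ⟨T', hT', hYT'⟩ := hall Y hY hYc
      rcases mem_union.1 hT' with h' | h'
      · exact ⟨T', h', hYT'⟩
      · exact (key T₀ h T' h' Y₀ Y hY₀ hY hYc₀ hYc hYT₀ hYT').elim
    · apply mem_union_right
      apply h₂.closed T hT
      intro Y hY hYc
      obtain ⟨T', hT', hYT'⟩ := hall Y hY hYc
      rcases mem_union.1 hT' with h' | h'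
      · exact (key T' h' T₀ h Y Y₀ hY hY₀ hYc hYc₀ hYT' hYT₀).elim
      · exact ⟨T', h', hYT'⟩

theorem NN_far_union {F₁ F₂ : Finset (Finset V)} (hc₁ : ∀ T ∈ F₁, T.card = l + 1)
    (hd : Far l F₁ F₂) : NN l (F₁ ∪ F₂) = NN l F₁ + NN l F₂ := by
  have h1 : Gr l (F₁ ∪ F₂) = Gr l F₁ ∪ Gr l F₂ := by
    unfold Gr
    exact union_biUnion
  have h2 : Disjoint (Gr l F₁) (Gr l F₂) := by
    rw [disjoint_left]
    intro Y hY hY'
    obtain ⟨T, hT, hYT, hYc⟩ := mem_Gr.1 hY
    obtain ⟨T', hT', hYT', _⟩ := mem_Gr.1 hY'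
    have h3 := card_le_card (subset_inter hYT hYT')
    have h4 := hd T hT T' hT'
    omega
  have h3 : Disjoint F₁ F₂ := by
    rw [disjoint_left]
    intro T hT hT'
    have h := hd T hT T hT'
    have h5 := hc₁ T hT
    rw [inter_self] at h
    omega
  unfold NN
  rw [h1, card_union_of_disjoint h2, card_union_of_disjoint h3]
  push_cast
  ring

end General

end Pool.Agent.Work.MP_0ea01d_co
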