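import Pool.Agent.Work.MP_0ea01d_co.GapA

/-!
# No gaps, part B: blocks and gluing
-/

set_option autoImplicit false

namespace Pool.Agent.Work.MP_0ea01d_co

open Finset

section Block

variable {V : Type} [DecidableEq V] {l : ℕ}

theorem full_subset (hl : 1 ≤ l) {U T : Finset V} (hT : T.card = l + 1)
    (hall : ∀ Y, Y ⊆ T → Y.card = l → Y ⊆ U) : T ⊆ U := by
  intro x hx
  obtain ⟨y, hy, hyx⟩ := exists_mem_ne (show 1 < T.card by omega) x
  exact hall (T.erase y) (erase_subset _ _) (by rw [card_erase_of_mem hy, hT]; rfl)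
    (mem_erase.2 ⟨hyx.symm, hx⟩)

theorem clo_full (hl : 1 ≤ l) (U : Finset V) : Clo l (powersetCard (l + 1) U) := by
  refine ⟨fun T hT => (mem_powersetCard.1 hT).2, fun T hT hall => ?_⟩
  rw [mem_powersetCard]
  refine ⟨full_subset hl hT fun Y hY hYc => ?_, hT⟩
  obtain ⟨T', hT', hYT'⟩ := hall Y hY hYc
  exact hYT'.trans (mem_powersetCard.1 hT').1

theorem choose_aux : (l + 2).choose l = l + 1 + (l + 1).choose 2 := by
  have h1 : (l + 2).choose l = (l + 2).choose 2 := by
    have := Nat.choose_symm_add (a := l) (b := 2)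
    exact this
  rw [h1]
  have h2 : (l + 2).choose 2 = (l + 1).choose 1 + (l + 1).choose 2 := rfl
  rw [h2, Nat.choose_one_right]

theorem NN_full {U : Finset V} (hU : U.card = l + 2) :
    NN l (powersetCard (l + 1) U) = (l + 1).choose 2 - 1 := by
  have h1 : Gr l (powersetCard (l + 1) U) = powersetCard l U := by
    ext Y
    rw [mem_Gr, mem_powersetCard]
    constructor
    · rintro ⟨T, hT, hYT, hYc⟩
      exact ⟨hYT.trans (mem_powersetCard.1 hT).1, hYc⟩
    · rintro ⟨hYU, hYc⟩
      obtain ⟨T, hYT, hTU, hTc⟩ := exists_subsuperset_card_eq hYU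
        (show Y.card ≤ l + 1 by omega) (by omega)
      exact ⟨T, mem_powersetCard.2 ⟨hTU, hTc⟩, hYT, hYc⟩
  unfold NN
  rw [h1, card_powersetCard, card_powersetCard, hU, choose_aux, Nat.choose_succ_self_right]
  push_cast
  ring

/-- All `(l+1)`-subsets of `U` but two. -/
theorem exists_part (hl : 1 ≤ l) {U : Finset V} (hU : U.card = l + 2) :
    ∃ Q : Finset (Finset V), (∀ T ∈ Q, T ⊆ U) ∧ Clo l Q ∧ NN l Q = (l + 1).choose 2 := by
  obtain ⟨a, ha, b, hb, hab⟩ := one_lt_card.1 (show 1 < U.card by omega)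
  set Q := (powersetCard (l + 1) U \ {U.erase a, U.erase b}) with hQ
  have hmem : ∀ T, T ∈ Q ↔ (T ⊆ U ∧ T.card = l + 1) ∧ T ≠ U.erase a ∧ T ≠ U.erase b := by
    intro T
    rw [hQ, mem_sdiff, mem_powersetCard, mem_insert, mem_singleton, not_or]
  -- an `(l+1)`-subset of `U` containing `U - a - b`
  have htwo : ∀ T : Finset V, T ⊆ U → T.card = l + 1 → (U.erase a).erase b ⊆ T →
      T = U.erase a ∨ T = U.erase b := by
    intro T hTU hTc hsub
    have hnot : ¬ U ⊆ T := by
      intro h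
      have := card_le_card h
      omega
    obtain ⟨c, hcU, hcT⟩ := not_subset.1 hnot
    have hTc' : T = U.erase c := by
      apply eq_of_subset_of_card_le
      · intro x hx
        refine mem_erase.2 ⟨?_, hTU hx⟩
        rintro rfl
        exact hcT hx
      · rw [card_erase_of_mem hcU]
        omega
    by_cases hca : c = a
    · left
      rw [hTc', hca]
    · by_cases hcb : c = b
      · right
        rw [hTc', hcb]
      · exact (hcT (hsub (mem_erase.2 ⟨hcb, mem_erase.2 ⟨hca, hcU⟩⟩))).elim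
  have hYc : ((U.erase a).erase b).card = l := by
    rw [card_erase_of_mem (mem_erase.2 ⟨hab.symm, hb⟩), card_erase_of_mem ha, hU]
    rfl
  have hclo : Clo l Q := by
    refine ⟨fun T hT => ((hmem T).1 hT).1.2, fun T hT hall => ?_⟩
    rw [hmem]
    refine ⟨⟨full_subset hl hT fun Y hY hYc => ?_, hT⟩, ?_, ?_⟩
    · obtain ⟨T', hT', hYT'⟩ := hall Y hY hYc
      exact hYT'.trans ((hmem T').1 hT').1.1
    · rintro rfl
      obtain ⟨T', hT', hYT'⟩ := hall ((U.erase a).erase b) (erase_subset _ _) hYc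
      obtain ⟨⟨h1, h2⟩, h3, h4⟩ := (hmem T').1 hT'
      rcases htwo T' h1 h2 hYT' with h | h
      · exact h3 h
      · exact h4 h
    · rintro rfl
      obtain ⟨T', hT', hYT'⟩ := hall ((U.erase a).erase b) (by
        rw [erase_right_comm]
        exact erase_subset _ _) hYc
      obtain ⟨⟨h1, h2⟩, h3, h4⟩ := (hmem T').1 hT'
      rcases htwo T' h1 h2 hYT' with h | h
      · exact h3 h
      · exact h4 h
  refine ⟨Q, fun T hT => ((hmem T).1 hT).1.1, hclo, ?_⟩
  have hGr : Gr l Q = (powersetCard l U).erase ((U.erase a).erase b) := by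
    ext Y
    rw [mem_Gr, mem_erase, mem_powersetCard]
    constructor
    · rintro ⟨T, hT, hYT, hYc⟩
      obtain ⟨⟨h1, h2⟩, h3, h4⟩ := (hmem T).1 hT
      refine ⟨?_, hYT.trans h1, hYc⟩
      rintro rfl
      rcases htwo T h1 h2 hYT with h | h
      · exact h3 h
      · exact h4 h
    · rintro ⟨hne, hYU, hYc'⟩
      -- an element of `U` outside `Y`, different from `a` and `b`
      have hex : ∃ c ∈ U, c ∉ Y ∧ c ≠ a ∧ c ≠ b := by
        by_contra hcon
        push Not at hcon
        apply hne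
        symm
        apply eq_of_subset_of_card_le
        · intro x hx
          obtain ⟨hxb, hx'⟩ := mem_erase.1 hx
          obtain ⟨hxa, hxU⟩ := mem_erase.1 hx'
          by_contra hxY
          exact hxb (hcon x hxU hxY hxa)
        · omega
      obtain ⟨c, hcU, hcY, hca, hcb⟩ := hex
      refine ⟨U.erase c, ?_, ?_, hYc'⟩
      · rw [hmem]
        refine ⟨⟨erase_subset _ _, by rw [card_erase_of_mem hcU, hU]; rfl⟩, ?_, ?_⟩
        · intro h
          have : a ∈ U.erase c := mem_erase.2 ⟨hca.symm, ha⟩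
          rw [h] at this
          exact (mem_erase.1 this).1 rfl
        · intro h
          have : b ∈ U.erase c := mem_erase.2 ⟨hcb.symm, hb⟩
          rw [h] at this
          exact (mem_erase.1 this).1 rfl
      · intro x hx
        refine mem_erase.2 ⟨?_, hYU hx⟩
        rintro rfl
        exact hcY hx
  have hcard : Q.card = l := by
    rw [hQ, card_sdiff_of_subset, card_powersetCard, hU, Nat.choose_succ_self_right, card_pair]
    · omega
    · intro h
      have : a ∈ U.erase b := mem_erase.2 ⟨hab, ha⟩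
      rw [← h] at this
      exact (mem_erase.1 this).1 rfl
    · intro T hT
      rw [mem_insert, mem_singleton] at hT
      rw [mem_powersetCard]
      rcases hT with rfl | rfl
      · exact ⟨erase_subset _ _, by rw [card_erase_of_mem ha, hU]; rfl⟩
      · exact ⟨erase_subset _ _, by rw [card_erase_of_mem hb, hU]; rfl⟩
  unfold NN
  rw [hGr, hcard, card_erase_of_mem, card_powersetCard, hU, choose_aux]
  · push_cast
    have : l + 1 + (l + 1).choose 2 - 1 = l + (l + 1).choose 2 := by omega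
    rw [this]
    push_cast
    ring
  · rw [mem_powersetCard]
    exact ⟨(erase_subset _ _).trans (erase_subset _ _), hYc⟩

/-- The families inside pairwise far blocks. -/
theorem exists_blocks (hl : 1 ≤ l) (B : Finset (Finset V)) (hB : ∀ U ∈ B, U.card = l + 2)
    (hfar : ∀ U ∈ B, ∀ U' ∈ B, U ≠ U' → (U ∩ U').card + 2 ≤ l) (s : ℕ) (hs : s ≤ B.card) :
    ∃ Q : Finset (Finset V), (∀ T ∈ Q, ∃ U ∈ B, T ⊆ U) ∧ Clo l Q ∧
      NN l Q = B.card * (l + 1).choose 2 - s := by
  induction B using Finset.induction_on generalizing s with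
  | empty =>
    refine ⟨∅, by simp, Clo.empty, ?_⟩
    rw [NN_empty]
    have : s = 0 := by simpa using hs
    rw [this]
    simp
  | insert U B hUB ih =>
    have hB' : ∀ U' ∈ B, U'.card = l + 2 := fun U' h => hB U' (mem_insert_of_mem h)
    have hfar' : ∀ U ∈ B, ∀ U' ∈ B, U ≠ U' → (U ∩ U').card + 2 ≤ l := fun U₁ h₁ U₂ h₂ =>
      hfar U₁ (mem_insert_of_mem h₁) U₂ (mem_insert_of_mem h₂)
    have hUc := hB U (mem_insert_self _ _)
    have hfin : ∀ (s' : ℕ) (Q₀ : Finset (Finset V)), s' ≤ B.card → (∀ T ∈ Q₀, T ⊆ U) →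
        Clo l Q₀ → ∃ Q : Finset (Finset V), (∀ T ∈ Q, ∃ U' ∈ insert U B, T ⊆ U') ∧ Clo l Q ∧
          NN l Q = NN l Q₀ + (B.card * (l + 1).choose 2 - s') := by
      intro s' Q₀ hs' hQ₀ hclo
      obtain ⟨Q₁, h1, h2, h3⟩ := ih hB' hfar' s' hs'
      have hf : Far l Q₀ Q₁ := by
        intro T hT T' hT'
        obtain ⟨U', hU', hTU'⟩ := h1 T' hT'
        have h4 := card_le_card (inter_subset_inter (hQ₀ T hT) hTU')
        have h5 := hfar U (mem_insert_self _ _) U' (mem_insert_of_mem hU') (by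
          rintro rfl
          exact hUB hU')
        omega
      refine ⟨Q₀ ∪ Q₁, ?_, hclo.far_union h2 hf, ?_⟩
      · intro T hT
        rcases mem_union.1 hT with h | h
        · exact ⟨U, mem_insert_self _ _, hQ₀ T h⟩
        · obtain ⟨U', hU', hTU'⟩ := h1 T h
          exact ⟨U', mem_insert_of_mem hU', hTU'⟩
      · rw [NN_far_union hclo.card hf, h3]
    rw [card_insert_of_notMem hUB] at hs ⊢
    rcases Nat.eq_zero_or_pos s with hs0 | hs0
    · obtain ⟨Q₀, h1, h2, h3⟩ := exists_part hl hUc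
      obtain ⟨Q, h4, h5, h6⟩ := hfin 0 Q₀ (Nat.zero_le _) h1 h2
      refine ⟨Q, h4, h5, ?_⟩
      rw [h6, h3, hs0]
      push_cast
      ring
    · obtain ⟨Q, h4, h5, h6⟩ := hfin (s - 1) (powersetCard (l + 1) U) (by omega)
        (fun T hT => (mem_powersetCard.1 hT).1) (clo_full hl U)
      refine ⟨Q, h4, h5, ?_⟩
      rw [h6, NN_full hUc, Nat.cast_sub hs0]
      push_cast
      ring

/-- The members far from all blocks. -/
theorem clo_filter (hl : 1 ≤ l) {F : Finset (Finset V)} (h : Clo l F) (B : Finset (Finset V)) :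
    Clo l (F.filter fun T => ∀ U ∈ B, (T ∩ U).card + 2 ≤ l) := by
  refine ⟨fun T hT => h.card T (mem_filter.1 hT).1, fun T hT hall => ?_⟩
  have hTF : T ∈ F := by
    apply h.closed T hT
    intro Y hY hYc
    obtain ⟨T', hT', hYT'⟩ := hall Y hY hYc
    exact ⟨T', (mem_filter.1 hT').1, hYT'⟩
  rw [mem_filter]
  refine ⟨hTF, fun U hU => ?_⟩
  by_contra hcon
  push Not at hcon
  obtain ⟨P, hP, hPc⟩ := exists_subset_card_eq (show l - 1 ≤ (T ∩ U).card by omega)
  obtain ⟨Y, hPY, hYT, hYc⟩ := exists_subsuperset_card_eq (hP.trans inter_subset_left)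
    (show P.card ≤ l by omega) (by omega)
  obtain ⟨T', hT', hYT'⟩ := hall Y hYT hYc
  have h1 := (mem_filter.1 hT').2 U hU
  have h2 : P ⊆ T' ∩ U := subset_inter (hPY.trans hYT') (hP.trans inter_subset_right)
  have h3 := card_le_card h2
  omega

/-- The core of the interval theorem. -/
theorem core_exists (hl : 1 ≤ l) {F : Finset (Finset V)} (h : Clo l F) (B : Finset (Finset V))
    (hB : ∀ U ∈ B, U.card = l + 2)
    (hfar : ∀ U ∈ B, ∀ U' ∈ B, U ≠ U' → (U ∩ U').card + 2 ≤ l) (hBc : B.card + 1 = l) (t : ℤ)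
    (h1 : B.card * (l + 1).choose 2 ≤ t)
    (h2 : t ≤ NN l (F.filter fun T => ∀ U ∈ B, (T ∩ U).card + 2 ≤ l) +
      B.card * (l + 1).choose 2) :
    ∃ F' : Finset (Finset V), Clo l F' ∧ NN l F' = t := by
  obtain ⟨F', hF', h3, h4, h5⟩ := interp hl _ (clo_filter hl h B) (t - B.card * (l + 1).choose 2)
    (by linarith) (by linarith)
  obtain ⟨s, hs⟩ : ∃ s : ℕ, (s : ℤ) = NN l F' + B.card * (l + 1).choose 2 - t :=
    ⟨(NN l F' + B.card * (l + 1).choose 2 - t).toNat, Int.toNat_of_nonneg (by linarith)⟩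
  have hsl : s ≤ B.card := by
    have h6 : (s : ℤ) + 1 ≤ l := by
      rw [hs]
      linarith
    have h7 : s + 1 ≤ l := by exact_mod_cast h6
    omega
  obtain ⟨Q, h6, h7, h8⟩ := exists_blocks hl B hB hfar s hsl
  have hf : Far l F' Q := by
    intro T hT T' hT'
    obtain ⟨U, hU, hTU⟩ := h6 T' hT'
    have h9 := (mem_filter.1 (hF' hT)).2 U hU
    have h10 := card_le_card (inter_subset_inter_left hTU : T ∩ T' ⊆ T ∩ U)
    omega
  refine ⟨F' ∪ Q, h3.far_union h7 hf, ?_⟩
  rw [NN_far_union h3.card hf, h8, hs]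
  ring

end Block

end Pool.Agent.Work.MP_0ea01d_co
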