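import Pool.Agent.Work.MP_0ea01d_co.GapB

/-!
# No gaps, part C: existence of the blocks
-/

set_option autoImplicit false

namespace Pool.Agent.Work.MP_0ea01d_co

open Finset

variable {n l : ℕ}

/-- The number of `q`-sets containing a given set. -/
theorem card_super (P : Finset (Fin n)) (q : ℕ) :
    ((powersetCard q (univ : Finset (Fin n))).filter fun U => P ⊆ U).card ≤
      n.choose (q - P.card) := by
  have h1 : (powersetCard (q - P.card) (univ : Finset (Fin n))).card = n.choose (q - P.card) := by
    rw [card_powersetCard, card_univ, Fintype.card_fin]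
  rw [← h1]
  refine card_le_card_of_injOn (fun U => U \ P) ?_ ?_
  · intro U hU
    obtain ⟨hU1, hU2⟩ := mem_filter.1 (mem_coe.1 hU)
    have hUc := (mem_powersetCard.1 hU1).2
    rw [mem_coe, mem_powersetCard]
    exact ⟨subset_univ _, by rw [card_sdiff_of_subset hU2, hUc]⟩
  · intro U hU U' hU' h
    have h2 := (mem_filter.1 (mem_coe.1 hU)).2
    have h2' := (mem_filter.1 (mem_coe.1 hU')).2
    have h3 : U \ P = U' \ P := h
    rw [← sdiff_union_of_subset h2, ← sdiff_union_of_subset h2', h3]

/-- The number of `(l+2)`-sets close to a given set. -/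
theorem card_close (hl : 1 ≤ l) (A : Finset (Fin n)) :
    ((powersetCard (l + 2) (univ : Finset (Fin n))).filter fun U => l - 1 ≤ (A ∩ U).card).card ≤
      A.card.choose (l - 1) * n.choose 3 := by
  have h1 : ((powersetCard (l + 2) (univ : Finset (Fin n))).filter
      fun U => l - 1 ≤ (A ∩ U).card) ⊆ (powersetCard (l - 1) A).biUnion fun P =>
        (powersetCard (l + 2) (univ : Finset (Fin n))).filter fun U => P ⊆ U := by
    intro U hU
    obtain ⟨hU1, hU2⟩ := mem_filter.1 hU
    obtain ⟨P, hP, hPc⟩ := exists_subset_card_eq hU2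
    rw [mem_biUnion]
    exact ⟨P, mem_powersetCard.2 ⟨hP.trans inter_subset_left, hPc⟩,
      mem_filter.2 ⟨hU1, hP.trans inter_subset_right⟩⟩
  refine (card_le_card h1).trans ?_
  rw [← card_powersetCard (l - 1) A]
  refine card_biUnion_le_card_mul _ _ _ fun P hP => ?_
  have h2 := card_super P (l + 2)
  rw [(mem_powersetCard.1 hP).2] at h2
  have h3 : l + 2 - (l - 1) = 3 := by omega
  rwa [h3] at h2

/-- The number of `(l+2)`-sets with many members of `F` close to them. -/
theorem card_heavy (hl : 1 ≤ l) (F : Finset (Finset (Fin n))) (hF : ∀ T ∈ F, T.card = l + 1)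
    (K : ℕ) :
    ((powersetCard (l + 2) (univ : Finset (Fin n))).filter fun U =>
      K + 1 ≤ (F.filter fun T => l - 1 ≤ (T ∩ U).card).card).card * (K + 1) ≤
      F.card * ((l + 1).choose 2 * n.choose 3) := by
  have h1 : ((powersetCard (l + 2) (univ : Finset (Fin n))).filter fun U =>
      K + 1 ≤ (F.filter fun T => l - 1 ≤ (T ∩ U).card).card).card * (K + 1) ≤
      ∑ U ∈ powersetCard (l + 2) (univ : Finset (Fin n)),
        (F.filter fun T => l - 1 ≤ (T ∩ U).card).card := by
    rw [← smul_eq_mul, ← sum_const]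
    refine (sum_le_sum (fun U hU => (mem_filter.1 hU).2)).trans ?_
    exact sum_le_sum_of_subset (filter_subset _ _)
  refine h1.trans ?_
  have h2 : ∑ U ∈ powersetCard (l + 2) (univ : Finset (Fin n)),
        (F.filter fun T => l - 1 ≤ (T ∩ U).card).card =
      ∑ T ∈ F, ((powersetCard (l + 2) (univ : Finset (Fin n))).filter
        fun U => l - 1 ≤ (T ∩ U).card).card := by
    simp only [card_filter]
    exact sum_comm
  rw [h2, ← smul_eq_mul, ← sum_const]
  refine sum_le_sum fun T hT => ?_
  refine (card_close hl T).trans (le_of_eq ?_)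
  rw [hF T hT]
  congr 1
  have h3 : (l + 1).choose (l - 1) = (l + 1).choose 2 := by
    have := Nat.choose_symm_of_eq_add (n := l + 1) (a := l - 1) (b := 2) (by omega)
    exact this
  exact h3

/-- The blocks exist. -/
theorem exists_family (hl : 1 ≤ l) (F : Finset (Finset (Fin n))) (hF : ∀ T ∈ F, T.card = l + 1)
    (K R : ℕ) (h1 : 2 * (R * ((l + 2).choose 3 * n.choose 3)) < n.choose (l + 2))
    (h2 : 2 * (F.card * ((l + 1).choose 2 * n.choose 3)) ≤ (K + 1) * n.choose (l + 2))
    (r : ℕ) (hr : r ≤ R + 1) :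
    ∃ B : Finset (Finset (Fin n)), B.card = r ∧ (∀ U ∈ B, U.card = l + 2) ∧
      (∀ U ∈ B, ∀ U' ∈ B, U ≠ U' → (U ∩ U').card + 2 ≤ l) ∧
      ∀ U ∈ B, (F.filter fun T => l - 1 ≤ (T ∩ U).card).card ≤ K := by
  induction r with
  | zero => exact ⟨∅, by simp⟩
  | succ r ih =>
    obtain ⟨B, hBc, hB1, hB2, hB3⟩ := ih (by omega)
    set P := powersetCard (l + 2) (univ : Finset (Fin n)) with hP
    have hPc : P.card = n.choose (l + 2) := by
      rw [hP, card_powersetCard, card_univ, Fintype.card_fin]
    set H := P.filter fun U => K + 1 ≤ (F.filter fun T => l - 1 ≤ (T ∩ U).card).card with hH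
    set N := B.biUnion fun A => P.filter fun U => l - 1 ≤ (A ∩ U).card with hN
    have hHc : 2 * H.card ≤ n.choose (l + 2) := by
      have h3 := card_heavy hl F hF K
      have h4 : 2 * H.card * (K + 1) ≤ n.choose (l + 2) * (K + 1) := by
        calc 2 * H.card * (K + 1) = 2 * (H.card * (K + 1)) := by ring
          _ ≤ 2 * (F.card * ((l + 1).choose 2 * n.choose 3)) := Nat.mul_le_mul_left 2 h3
          _ ≤ (K + 1) * n.choose (l + 2) := h2
          _ = n.choose (l + 2) * (K + 1) := by ring
      exact Nat.le_of_mul_le_mul_right h4 (Nat.succ_pos K)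
    have hNc : N.card ≤ R * ((l + 2).choose 3 * n.choose 3) := by
      have h3 : N.card ≤ B.card * ((l + 2).choose 3 * n.choose 3) := by
        refine card_biUnion_le_card_mul _ _ _ fun A hA => ?_
        refine (card_close hl A).trans (le_of_eq ?_)
        rw [hB1 A hA]
        congr 1
        have := Nat.choose_symm_of_eq_add (n := l + 2) (a := l - 1) (b := 3) (by omega)
        exact this
      rw [hBc] at h3
      exact h3.trans (Nat.mul_le_mul_right _ (by omega))
    have hex : ∃ U ∈ P, U ∉ H ∪ N := by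
      by_contra hcon
      push Not at hcon
      have h3 : P ⊆ H ∪ N := hcon
      have h4 := (card_le_card h3).trans (card_union_le _ _)
      omega
    obtain ⟨U, hU, hUn⟩ := hex
    rw [mem_union, not_or] at hUn
    have hUH : (F.filter fun T => l - 1 ≤ (T ∩ U).card).card ≤ K := by
      by_contra hcon
      push Not at hcon
      exact hUn.1 (mem_filter.2 ⟨hU, hcon⟩)
    have hUN : ∀ A ∈ B, (A ∩ U).card + 2 ≤ l := by
      intro A hA
      by_contra hcon
      push Not at hcon
      exact hUn.2 (mem_biUnion.2 ⟨A, hA, mem_filter.2 ⟨hU, by omega⟩⟩)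
    have hUc : U.card = l + 2 := (mem_powersetCard.1 hU).2
    have hUB : U ∉ B := by
      intro h
      have h3 := hUN U h
      rw [inter_self] at h3
      omega
    refine ⟨insert U B, by rw [card_insert_of_notMem hUB, hBc], ?_, ?_, ?_⟩
    · intro A hA
      rcases mem_insert.1 hA with rfl | h
      · exact hUc
      · exact hB1 A h
    · intro A hA A' hA' hne
      rcases mem_insert.1 hA with h | h
      · rcases mem_insert.1 hA' with h' | h'
        · exact (hne (h.trans h'.symm)).elim
        · rw [h, inter_comm]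
          exact hUN A' h'
      · rcases mem_insert.1 hA' with h' | h'
        · rw [h']
          exact hUN A h
        · exact hB2 A h A' h' hne
    · intro A hA
      rcases mem_insert.1 hA with rfl | h
      · exact hUH
      · exact hB3 A h

/-- The interval theorem with explicit numbers. -/
theorem gap_core (hl : 3 ≤ l) (hln : l + 1 ≤ n) {K m₀ m : ℕ} (hm₀ : m₀ ∈ S n l)
    (h1 : 2 * ((l - 2) * ((l + 2).choose 3 * n.choose 3)) < n.choose (l + 2))
    (h2 : 2 * (n.choose l * ((l + 1).choose 2 * n.choose 3)) ≤ (K + 1) * n.choose (l + 2))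
    (h3 : m₀ + l * ((l - 1) * K) ≤ m) (h4 : m + (l - 1) * (l + 1).choose 2 ≤ n.choose l) :
    m ∈ S n l := by
  obtain ⟨F, hF, hFm⟩ := exists_clo_of_mem_S hln hm₀
  have hGr : (Gr l F).card ≤ n.choose l := by
    have : Gr l F ⊆ univ.powersetCard l := by
      intro X hX
      obtain ⟨T, hT, hXT, hXc⟩ := mem_Gr.1 hX
      rw [mem_powersetCard]
      exact ⟨subset_univ _, hXc⟩
    have h5 := card_le_card this
    rwa [card_powersetCard, card_univ, Fintype.card_fin] at h5
  have hFc : F.card ≤ n.choose l := by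
    have h5 : (m₀ : ℤ) ≤ n.choose l := by
      have : m₀ ≤ n.choose l := by
        have := Nat.zero_le (l * ((l - 1) * K))
        have := Nat.zero_le ((l - 1) * (l + 1).choose 2)
        omega
      exact_mod_cast this
    have h6 : 0 ≤ NN l F := by linarith
    unfold NN at h6
    have h7 : (F.card : ℤ) ≤ n.choose l := by
      have : ((Gr l F).card : ℤ) ≤ n.choose l := by exact_mod_cast hGr
      linarith
    exact_mod_cast h7
  obtain ⟨B, hBc, hB1, hB2, hB3⟩ := exists_family (by omega) F hF.card K (l - 2) h1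
    ((Nat.mul_le_mul_left 2 (Nat.mul_le_mul_right _ hFc)).trans h2) (l - 1) (by omega)
  set F' := F.filter fun T => ∀ U ∈ B, (T ∩ U).card + 2 ≤ l with hF'
  have hloss : (F \ F').card ≤ (l - 1) * K := by
    have h5 : F \ F' ⊆ B.biUnion fun U => F.filter fun T => l - 1 ≤ (T ∩ U).card := by
      intro T hT
      obtain ⟨hTF, hTF'⟩ := mem_sdiff.1 hT
      rw [hF', mem_filter, not_and] at hTF'
      have h6 := hTF' hTF
      push Not at h6
      obtain ⟨U, hU, h7⟩ := h6
      exact mem_biUnion.2 ⟨U, hU, mem_filter.2 ⟨hTF, by omega⟩⟩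
    refine (card_le_card h5).trans ?_
    have h6 := card_biUnion_le_card_mul B (fun U => F.filter fun T => l - 1 ≤ (T ∩ U).card) K hB3
    rwa [hBc] at h6
  have hNN := NN_le_add (l := l) hF.card (filter_subset (fun T => ∀ U ∈ B, (T ∩ U).card + 2 ≤ l) F)
  have hmc : (m : ℤ) ≤ n.choose l := by
    have : m ≤ n.choose l := by
      have := Nat.zero_le ((l - 1) * (l + 1).choose 2)
      omega
    exact_mod_cast this
  have hBl : (B.card : ℤ) * (l + 1).choose 2 = ((l - 1) * (l + 1).choose 2 : ℕ) := by
    rw [hBc]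
    push_cast
    ring
  obtain ⟨F₂, hF₂, hF₂N⟩ := core_exists (by omega) hF B hB1 hB2 (by omega)
    ((n.choose l : ℤ) - m) (by
      rw [hBl]
      have h5 : ((m + (l - 1) * (l + 1).choose 2 : ℕ) : ℤ) ≤ n.choose l := by exact_mod_cast h4
      push_cast at h5 ⊢
      linarith) (by
      have h5 : ((m₀ + l * ((l - 1) * K) : ℕ) : ℤ) ≤ m := by exact_mod_cast h3
      have h6 : (l : ℤ) * (F \ F').card ≤ (l * ((l - 1) * K) : ℕ) := by
        exact_mod_cast Nat.mul_le_mul_left l hloss
      have h7 : (0 : ℤ) ≤ B.card * (l + 1).choose 2 := by positivity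
      push_cast at h5
      push_cast at h6
      have h8 : (n.choose l : ℤ) - m ≤ NN l F' + B.card * (l + 1).choose 2 := by linarith
      convert h8)
  obtain ⟨m', hm', hm'e⟩ := hF₂.mem_S hln
  rw [hF₂N] at hm'e
  have : m' = m := by
    have : (m' : ℤ) = m := by rw [hm'e]; ring
    exact_mod_cast this
  rwa [this] at hm'

end Pool.Agent.Work.MP_0ea01d_co
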