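import Pool.Agent.Work.MP_0ea01d_co.Family

set_option autoImplicit false

namespace Pool.Agent.Work.MP_0ea01d_co

open Finset

section General

variable {V : Type} [DecidableEq V] {l : ℕ}

/-- All `l`-subsets of members of the family. -/
def Gr (l : ℕ) (F : Finset (Finset V)) : Finset (Finset V) := F.biUnion (powersetCard l)

theorem mem_Gr {F : Finset (Finset V)} {Y : Finset V} :
    Y ∈ Gr l F ↔ ∃ T ∈ F, Y ⊆ T ∧ Y.card = l := by
  simp only [Gr, mem_biUnion, mem_powersetCard]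

/-- Families of `(l+1)`-sets closed under completion in which every member has an `l`-subset
contained in no other member. -/
structure Good (l : ℕ) (F : Finset (Finset V)) : Prop where
  card : ∀ T ∈ F, T.card = l + 1
  priv : ∀ T ∈ F, ∃ Y, Y ⊆ T ∧ Y.card = l ∧ ∀ T' ∈ F, Y ⊆ T' → T' = T
  closed : ∀ T : Finset V, T.card = l + 1 →
    (∀ Y, Y ⊆ T → Y.card = l → ∃ T' ∈ F, Y ⊆ T') → T ∈ F

/-- Families of `(l+1)`-sets closed under completion. -/
structure Clo (l : ℕ) (F : Finset (Finset V)) : Prop where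
  card : ∀ T ∈ F, T.card = l + 1
  closed : ∀ T : Finset V, T.card = l + 1 →
    (∀ Y, Y ⊆ T → Y.card = l → ∃ T' ∈ F, Y ⊆ T') → T ∈ F

omit [DecidableEq V] in
theorem Good.sub {F F' : Finset (Finset V)} (h : Good l F) (hs : F' ⊆ F) : Clo l F' := by
  refine ⟨fun T hT => h.card T (hs hT), fun T hT hall => ?_⟩
  have hTF : T ∈ F := by
    apply h.closed T hT
    intro Y hY hYc
    obtain ⟨T', hT', hYT'⟩ := hall Y hY hYc
    exact ⟨T', hs hT', hYT'⟩
  obtain ⟨Y, hY, hYc, huniq⟩ := h.priv T hTF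
  obtain ⟨T', hT', hYT'⟩ := hall Y hY hYc
  have := huniq T' (hs hT') hYT'
  rwa [this] at hT'

/-- The gain of a family. -/
def NN (l : ℕ) (F : Finset (Finset V)) : ℤ := (Gr l F).card - F.card

theorem NN_empty : NN l (∅ : Finset (Finset V)) = 0 := by
  simp [NN, Gr]

theorem card_Gr_insert (F : Finset (Finset V)) (T : Finset V) (hT : T.card = l + 1) :
    (Gr l (insert T F)).card ≤ (Gr l F).card + (l + 1) := by
  have h1 : Gr l (insert T F) = powersetCard l T ∪ Gr l F := by
    unfold Gr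
    rw [biUnion_insert]
  rw [h1]
  refine (card_union_le _ _).trans ?_
  rw [card_powersetCard, hT, Nat.choose_succ_self_right]
  omega

/-- Interpolation. -/
theorem exists_sub (F : Finset (Finset V)) : (∀ T ∈ F, T.card = l + 1) → ∀ x : ℤ, 0 ≤ x →
    x ≤ NN l F → ∃ F' ⊆ F, NN l F' ≤ x ∧ x ≤ NN l F' + l := by
  induction F using Finset.induction_on with
  | empty =>
    intro _ x hx0 hx
    refine ⟨∅, Subset.refl _, ?_, ?_⟩
    · rw [NN_empty]
      exact hx0
    · rw [NN_empty] at hx ⊢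
      have : (0 : ℤ) ≤ l := by positivity
      linarith
  | insert T F hTF ih =>
    intro hc x hx0 hx
    by_cases hxF : x ≤ NN l F
    · obtain ⟨F', hF', h1, h2⟩ := ih (fun T' hT' => hc T' (mem_insert_of_mem hT')) x hx0 hxF
      exact ⟨F', hF'.trans (subset_insert _ _), h1, h2⟩
    · refine ⟨F, subset_insert _ _, by linarith, ?_⟩
      have h3 := card_Gr_insert (l := l) F T (hc T (mem_insert_self _ _))
      have h4 : (insert T F).card = F.card + 1 := card_insert_of_notMem hTF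
      have h5 : NN l (insert T F) ≤ NN l F + l := by
        unfold NN
        rw [h4]
        push_cast
        have : ((Gr l (insert T F)).card : ℤ) ≤ (Gr l F).card + (l + 1) := by exact_mod_cast h3
        linarith
      linarith

/-- Two families on disjoint supports. -/
theorem Clo.union {F₁ F₂ : Finset (Finset V)} (hl : 2 ≤ l) (h₁ : Clo l F₁) (h₂ : Clo l F₂)
    (hd : ∀ T ∈ F₁, ∀ T' ∈ F₂, Disjoint T T') : Clo l (F₁ ∪ F₂) := by
  refine ⟨?_, ?_⟩
  · intro T hT
    rcases mem_union.1 hT with h | h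
    · exact h₁.card T h
    · exact h₂.card T h
  · intro T hT hall
    -- two `l`-subsets of `T` meet
    have hmeet : ∀ Y Y' : Finset V, Y ⊆ T → Y.card = l → Y' ⊆ T → Y'.card = l →
        ∃ y, y ∈ Y ∧ y ∈ Y' := by
      intro Y Y' hY hYc hY' hYc'
      by_contra hcon
      push Not at hcon
      have h1 : Disjoint Y Y' := disjoint_left.2 (fun y hy => hcon y hy)
      have h2 : (Y ∪ Y').card ≤ T.card := card_le_card (union_subset hY hY')
      rw [card_union_of_disjoint h1, hYc, hYc', hT] at h2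
      omega
    obtain ⟨Y₀, hY₀, hYc₀⟩ := exists_subset_card_eq (show l ≤ T.card by omega)
    obtain ⟨T₀, hT₀, hYT₀⟩ := hall Y₀ hY₀ hYc₀
    rcases mem_union.1 hT₀ with h | h
    · apply mem_union_left
      apply h₁.closed T hT
      intro Y hY hYc
      obtain ⟨T', hT', hYT'⟩ := hall Y hY hYc
      rcases mem_union.1 hT' with h' | h'
      · exact ⟨T', h', hYT'⟩
      · obtain ⟨y, hy1, hy2⟩ := hmeet Y₀ Y hY₀ hYc₀ hY hYc
        exact (disjoint_left.1 (hd T₀ h T' h') (hYT₀ hy1) (hYT' hy2)).elim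
    · apply mem_union_right
      apply h₂.closed T hT
      intro Y hY hYc
      obtain ⟨T', hT', hYT'⟩ := hall Y hY hYc
      rcases mem_union.1 hT' with h' | h'
      · obtain ⟨y, hy1, hy2⟩ := hmeet Y₀ Y hY₀ hYc₀ hY hYc
        exact (disjoint_left.1 (hd T' h' T₀ h) (hYT' hy2) (hYT₀ hy1)).elim
      · exact ⟨T', h', hYT'⟩

theorem NN_union {F₁ F₂ : Finset (Finset V)} (hl : 1 ≤ l)
    (hc₁ : ∀ T ∈ F₁, T.card = l + 1)
    (hd : ∀ T ∈ F₁, ∀ T' ∈ F₂, Disjoint T T') : NN l (F₁ ∪ F₂) = NN l F₁ + NN l F₂ := by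
  have h1 : Gr l (F₁ ∪ F₂) = Gr l F₁ ∪ Gr l F₂ := by
    unfold Gr
    exact union_biUnion
  have h2 : Disjoint (Gr l F₁) (Gr l F₂) := by
    rw [disjoint_left]
    intro Y hY hY'
    obtain ⟨T, hT, hYT, hYc⟩ := mem_Gr.1 hY
    obtain ⟨T', hT', hYT', _⟩ := mem_Gr.1 hY'
    obtain ⟨y, hy⟩ := card_pos.1 (show 0 < Y.card by omega)
    exact disjoint_left.1 (hd T hT T' hT') (hYT hy) (hYT' hy)
  have h3 : Disjoint F₁ F₂ := by
    rw [disjoint_left]
    intro T hT hT'
    have h := hd T hT T hT'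
    rw [disjoint_self_iff_empty] at h
    have := hc₁ T hT
    rw [h] at this
    simp at this
  unfold NN
  rw [h1, card_union_of_disjoint h2, card_union_of_disjoint h3]
  push_cast
  ring

/-- Transport along an embedding. -/
def mapF {W : Type} (e : W ↪ V) (F : Finset (Finset W)) : Finset (Finset V) :=
  F.map (mapEmbedding e).toEmbedding

omit [DecidableEq V] in
theorem mem_mapF {W : Type} {e : W ↪ V} {F : Finset (Finset W)} {T : Finset V} :
    T ∈ mapF e F ↔ ∃ T' ∈ F, T'.map e = T := by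
  unfold mapF
  rw [mem_map]
  rfl

theorem Clo.map {W : Type} [DecidableEq W] (hl : 1 ≤ l) (e : W ↪ V) {F : Finset (Finset W)}
    (h : Clo l F) : Clo l (mapF e F) := by
  refine ⟨?_, ?_⟩
  · intro T hT
    obtain ⟨T', hT', rfl⟩ := mem_mapF.1 hT
    rw [card_map, h.card T' hT']
  · intro T hT hall
    have hrange : ∀ t ∈ T, ∃ w, e w = t := by
      intro t ht
      have h1 : 1 < T.card := by omega
      obtain ⟨t', ht', hne⟩ := exists_mem_ne h1 t
      obtain ⟨T', hT', hsub⟩ := hall (T.erase t') (erase_subset _ _) (by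
        rw [card_erase_of_mem ht', hT]; rfl)
      obtain ⟨T₁, hT₁, rfl⟩ := mem_mapF.1 hT'
      obtain ⟨w, _, hw⟩ := mem_map.1 (hsub (mem_erase.2 ⟨hne.symm, ht⟩))
      exact ⟨w, hw⟩
    obtain ⟨T₀, rfl⟩ : ∃ T₀ : Finset W, T₀.map e = T := by
      refine ⟨T.preimage e (e.injective.injOn), ?_⟩
      ext t
      simp only [mem_map, mem_preimage]
      constructor
      · rintro ⟨w, hw, rfl⟩
        exact hw
      · intro ht
        obtain ⟨w, rfl⟩ := hrange t ht
        exact ⟨w, ht, rfl⟩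
    rw [card_map] at hT
    rw [mem_mapF]
    refine ⟨T₀, ?_, rfl⟩
    apply h.closed T₀ hT
    intro Y hY hYc
    obtain ⟨T', hT', hsub⟩ := hall (Y.map e) (map_subset_map.2 hY) (by rw [card_map, hYc])
    obtain ⟨T₁, hT₁, rfl⟩ := mem_mapF.1 hT'
    exact ⟨T₁, hT₁, map_subset_map.1 hsub⟩

theorem NN_mapF {W : Type} [DecidableEq W] (e : W ↪ V) (F : Finset (Finset W)) :
    NN l (mapF e F) = NN l F := by
  have h1 : Gr l (mapF e F) = mapF e (Gr l F) := by
    ext Y
    rw [mem_Gr, mem_mapF]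
    constructor
    · rintro ⟨T, hT, hYT, hYc⟩
      obtain ⟨T', hT', rfl⟩ := mem_mapF.1 hT
      obtain ⟨Y', hY', rfl⟩ := subset_map_iff.1 hYT
      rw [card_map] at hYc
      exact ⟨Y', mem_Gr.2 ⟨T', hT', hY', hYc⟩, rfl⟩
    · rintro ⟨Y', hY', rfl⟩
      obtain ⟨T', hT', hsub, hc⟩ := mem_Gr.1 hY'
      exact ⟨T'.map e, mem_mapF.2 ⟨T', hT', rfl⟩, map_subset_map.2 hsub, by rw [card_map, hc]⟩
  unfold NN
  rw [h1]
  unfold mapF
  rw [card_map, card_map]

/-- Counting private subsets. -/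
theorem card_Gr_ge (F : Finset (Finset V)) :
    ∑ T ∈ F, ((powersetCard l T).filter fun Y => ∀ T' ∈ F, Y ⊆ T' → T' = T).card ≤
      (Gr l F).card := by
  rw [← card_biUnion]
  · apply card_le_card
    intro Y hY
    obtain ⟨T, hT, hYT⟩ := mem_biUnion.1 hY
    rw [mem_filter, mem_powersetCard] at hYT
    exact mem_Gr.2 ⟨T, hT, hYT.1.1, hYT.1.2⟩
  · intro T hT T' hT' hne
    refine disjoint_left.2 fun Y hY hY' => ?_
    rw [mem_filter, mem_powersetCard] at hY hY'
    exact hne (hY'.2 T hT hY.1.1)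

end General

/-- Closed families on `Fin n` give elements of `S(n,l)`. -/
theorem Clo.mem_S {n l : ℕ} (hl : l + 1 ≤ n) {F : Finset (Finset (Fin n))} (h : Clo l F) :
    ∃ m ∈ S n l, (m : ℤ) = n.choose l - NN l F := by
  have hK : K l (Gr l F) = F := by
    ext T
    rw [mem_K]
    constructor
    · rintro ⟨hT, hall⟩
      apply h.closed T hT
      intro Y hY hYc
      obtain ⟨T', hT', hYT', _⟩ := mem_Gr.1 (hall Y hY hYc)
      exact ⟨T', hT', hYT'⟩
    · intro hT
      exact ⟨h.card T hT, fun Y hY hYc => mem_Gr.2 ⟨T, hT, hY, hYc⟩⟩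
  have hG : ∀ X ∈ Gr l F, X.card = l := by
    intro X hX
    obtain ⟨T, hT, hXT, hXc⟩ := mem_Gr.1 hX
    exact hXc
  have hm := mem_S_of_family hl (Gr l F) hG (by
    intro X hX
    obtain ⟨T, hT, hXT, hXc⟩ := mem_Gr.1 hX
    refine ⟨T, ?_, hXT⟩
    rw [hK]
    exact hT)
  rw [hK] at hm
  refine ⟨_, hm, ?_⟩
  have hle : (Gr l F).card ≤ n.choose l := by
    have : Gr l F ⊆ univ.powersetCard l := by
      intro X hX
      rw [mem_powersetCard]
      exact ⟨subset_univ _, hG X hX⟩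
    have h2 := card_le_card this
    rwa [card_powersetCard, card_univ, Fintype.card_fin] at h2
  unfold NN
  rw [Nat.cast_add, Nat.cast_sub hle]
  ring

end Pool.Agent.Work.MP_0ea01d_co
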