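import Pool.Agent.Work.MP_0ea01d_co.Family

set_option autoImplicit false

namespace Pool.Agent.Work.MP_0ea01d_co

open Finset

open Classical in
/-- The independent sets of `H` with `k` elements. -/
noncomputable def Ind {n : ℕ} (H : SimpleGraph (Fin n)) (k : ℕ) : Finset (Finset (Fin n)) :=
  (univ.powersetCard k).filter fun T => ∀ u ∈ T, ∀ v ∈ T, ¬ H.Adj u v

theorem mem_Ind {n : ℕ} {H : SimpleGraph (Fin n)} {k : ℕ} {T : Finset (Fin n)} :
    T ∈ Ind H k ↔ T.card = k ∧ ∀ u ∈ T, ∀ v ∈ T, ¬ H.Adj u v := by
  simp [Ind, mem_filter, mem_powersetCard]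

/-- `G'` is `G` with the edge `xy` added. -/
structure AddEdge {n : ℕ} (G G' : SimpleGraph (Fin n)) (x y : Fin n) : Prop where
  ne : x ≠ y
  nadj : ¬ G.Adj x y
  adj : ∀ p q, G'.Adj p q ↔ G.Adj p q ∨ (p = x ∧ q = y) ∨ (p = y ∧ q = x)

open Classical in
/-- Number of vertices adjacent to `x` or to `y`. -/
noncomputable def U {n : ℕ} (G : SimpleGraph (Fin n)) (x y : Fin n) : ℕ :=
  #{w | G.Adj x w ∨ G.Adj y w}

variable {n : ℕ}

theorem K_Ind (H : SimpleGraph (Fin n)) : K 2 (Ind H 2) = Ind H 3 := by
  ext T
  rw [mem_K, mem_Ind]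
  constructor
  · rintro ⟨h1, h2⟩
    refine ⟨h1, fun u hu v hv hadj => ?_⟩
    have h3 := h2 {u, v} (by
      intro x hx
      rcases mem_insert.1 hx with rfl | hx
      · exact hu
      · rwa [mem_singleton.1 hx]) (card_pair hadj.ne)
    exact (mem_Ind.1 h3).2 u (by simp) v (by simp) hadj
  · rintro ⟨h1, h2⟩
    refine ⟨h1, fun Y hY hYc => mem_Ind.2 ⟨hYc, fun u hu v hv => h2 u (hY hu) v (hY hv)⟩⟩

theorem AddEdge.ind_two {G G' : SimpleGraph (Fin n)} {x y : Fin n} (h : AddEdge G G' x y) :
    (Ind G' 2).card + 1 = (Ind G 2).card := by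
  classical
  have : Ind G 2 = insert {x, y} (Ind G' 2) := by
    ext T
    rw [mem_insert, mem_Ind, mem_Ind]
    constructor
    · rintro ⟨h1, h2⟩
      by_cases hT : T = {x, y}
      · exact Or.inl hT
      · right
        refine ⟨h1, fun u hu v hv hadj => ?_⟩
        rw [h.adj] at hadj
        rcases hadj with hadj | ⟨rfl, rfl⟩ | ⟨rfl, rfl⟩
        · exact h2 u hu v hv hadj
        · apply hT
          symm
          apply eq_of_subset_of_card_le
          · intro z hz
            rcases mem_insert.1 hz with rfl | hz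
            · exact hu
            · rwa [mem_singleton.1 hz]
          · rw [h1, card_pair h.ne]
        · apply hT
          symm
          apply eq_of_subset_of_card_le
          · intro z hz
            rcases mem_insert.1 hz with rfl | hz
            · exact hv
            · rwa [mem_singleton.1 hz]
          · rw [h1, card_pair h.ne]
    · rintro (rfl | ⟨h1, h2⟩)
      · refine ⟨card_pair h.ne, ?_⟩
        intro u hu v hv hadj
        simp only [mem_insert, mem_singleton] at hu hv
        rcases hu with rfl | rfl <;> rcases hv with rfl | rfl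
        · exact G.irrefl hadj
        · exact h.nadj hadj
        · exact h.nadj hadj.symm
        · exact G.irrefl hadj
      · exact ⟨h1, fun u hu v hv hadj => h2 u hu v hv ((h.adj u v).2 (Or.inl hadj))⟩
  rw [this, card_insert_of_notMem]
  rw [mem_Ind]
  rintro ⟨_, h2⟩
  exact h2 x (by simp) y (by simp) ((h.adj x y).2 (Or.inr (Or.inl ⟨rfl, rfl⟩)))

theorem AddEdge.ind_three {G G' : SimpleGraph (Fin n)} {x y : Fin n} (h : AddEdge G G' x y) :
    (Ind G' 3).card + n = (Ind G 3).card + U G x y + 2 := by
  classical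
  -- the lost triples
  have e1 : Ind G 3 = Ind G' 3 ∪ (univ.filter fun w => ¬ (w = x ∨ w = y ∨ (G.Adj x w ∨ G.Adj y w))).image
      (fun w => ({x, y, w} : Finset (Fin n))) := by
    ext T
    rw [mem_union, mem_Ind, mem_Ind, mem_image]
    constructor
    · rintro ⟨h1, h2⟩
      by_cases hT : x ∈ T ∧ y ∈ T
      · right
        obtain ⟨hx, hy⟩ := hT
        have hsub : ({x, y} : Finset (Fin n)) ⊆ T := by
          intro z hz
          simp only [mem_insert, mem_singleton] at hz
          rcases hz with rfl | rfl <;> assumption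
        have hc : #(T \ {x, y}) = 1 := by
          rw [card_sdiff_of_subset hsub, h1, card_pair h.ne]
        obtain ⟨w, hw⟩ := card_eq_one.1 hc
        have hw' : w ∈ T \ {x, y} := by rw [hw]; simp
        simp only [mem_sdiff, mem_insert, mem_singleton, not_or] at hw'
        refine ⟨w, ?_, ?_⟩
        · simp only [mem_filter, mem_univ, true_and, not_or]
          exact ⟨hw'.2.1, hw'.2.2, h2 x hx w hw'.1, h2 y hy w hw'.1⟩
        · have : T = {x, y} ∪ (T \ {x, y}) := (union_sdiff_of_subset hsub).symm
          rw [this, hw]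
          ext z
          simp only [mem_insert, mem_singleton, mem_union]
          tauto
      · left
        refine ⟨h1, fun u hu v hv hadj => ?_⟩
        rw [h.adj] at hadj
        rcases hadj with hadj | ⟨rfl, rfl⟩ | ⟨rfl, rfl⟩
        · exact h2 u hu v hv hadj
        · exact hT ⟨hu, hv⟩
        · exact hT ⟨hv, hu⟩
    · rintro (⟨h1, h2⟩ | ⟨w, hw, rfl⟩)
      · exact ⟨h1, fun u hu v hv hadj => h2 u hu v hv ((h.adj u v).2 (Or.inl hadj))⟩
      · simp only [mem_filter, mem_univ, true_and, not_or] at hw
        obtain ⟨hwx, hwy, hxw, hyw⟩ := hw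
        refine ⟨?_, ?_⟩
        · rw [card_insert_of_notMem, card_pair (Ne.symm hwy)]
          simp only [mem_insert, mem_singleton, not_or]
          exact ⟨h.ne, Ne.symm hwx⟩
        · intro u hu v hv hadj
          simp only [mem_insert, mem_singleton] at hu hv
          rcases hu with rfl | rfl | rfl <;> rcases hv with rfl | rfl | rfl
          · exact G.irrefl hadj
          · exact h.nadj hadj
          · exact hxw hadj
          · exact h.nadj hadj.symm
          · exact G.irrefl hadj
          · exact hyw hadj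
          · exact hxw hadj.symm
          · exact hyw hadj.symm
          · exact G.irrefl hadj
  have e2 : Disjoint (Ind G' 3) ((univ.filter fun w => ¬ (w = x ∨ w = y ∨ (G.Adj x w ∨ G.Adj y w))).image
      (fun w => ({x, y, w} : Finset (Fin n)))) := by
    rw [disjoint_left]
    intro T hT hT'
    obtain ⟨w, _, rfl⟩ := mem_image.1 hT'
    exact (mem_Ind.1 hT).2 x (by simp) y (by simp) ((h.adj x y).2 (Or.inr (Or.inl ⟨rfl, rfl⟩)))
  have e3 : ((univ.filter fun w => ¬ (w = x ∨ w = y ∨ (G.Adj x w ∨ G.Adj y w))).image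
      (fun w => ({x, y, w} : Finset (Fin n)))).card =
      (univ.filter fun w => ¬ (w = x ∨ w = y ∨ (G.Adj x w ∨ G.Adj y w))).card := by
    apply card_image_of_injOn
    intro w hw w' _ hww
    simp only [coe_filter, mem_univ, true_and, Set.mem_ofPred_eq, not_or] at hw
    have hmem : w ∈ ({x, y, w'} : Finset (Fin n)) := by
      have h1 : w ∈ ({x, y, w} : Finset (Fin n)) := by simp
      have h2 : ({x, y, w} : Finset (Fin n)) = {x, y, w'} := hww
      rwa [h2] at h1
    simp only [mem_insert, mem_singleton] at hmem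
    rcases hmem with h | h | h
    · exact absurd h hw.1
    · exact absurd h hw.2.1
    · exact h
  have e4 := card_filter_add_card_filter_not (s := (univ : Finset (Fin n)))
    (fun w => w = x ∨ w = y ∨ (G.Adj x w ∨ G.Adj y w))
  have e5 : (univ.filter fun w => w = x ∨ w = y ∨ (G.Adj x w ∨ G.Adj y w)).card = U G x y + 2 := by
    have : (univ.filter fun w => w = x ∨ w = y ∨ (G.Adj x w ∨ G.Adj y w)) =
        insert x (insert y (univ.filter fun w => G.Adj x w ∨ G.Adj y w)) := by
      ext w
      simp only [mem_filter, mem_univ, true_and, mem_insert]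
    rw [this, card_insert_of_notMem, card_insert_of_notMem]
    · rfl
    · simp only [mem_filter, mem_univ, true_and, not_or]
      exact ⟨h.nadj, G.irrefl⟩
    · simp only [mem_insert, mem_filter, mem_univ, true_and, not_or]
      exact ⟨h.ne, G.irrefl, fun hh => h.nadj hh.symm⟩
  rw [card_univ, Fintype.card_fin] at e4
  rw [e1, card_union_of_disjoint e2, e3]
  omega

/-- Directed version of the edge relation of the construction: two stars and a matching. -/
def HE (n a b c s : ℕ) (x y : Fin n) : Prop :=
  (x.val = 0 ∧ 1 ≤ y.val ∧ y.val ≤ a) ∨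
  (x.val = n - 1 ∧ a + 1 ≤ y.val + c ∧ y.val + c ≤ a + b) ∨
  (a + b + 1 ≤ x.val + c ∧ x.val + c < a + b + 1 + 2 * s ∧ (x.val + c - (a + b + 1)) % 2 = 0 ∧
    y.val = x.val + 1)

/-- Two stars and a matching. -/
def H (n a b c s : ℕ) : SimpleGraph (Fin n) := SimpleGraph.fromRel (HE n a b c s)

theorem card_interval (l u : ℕ) (hu : u ≤ n) :
    #(univ.filter fun w : Fin n => l ≤ w.val ∧ w.val < u) = u - l := by
  rw [← Nat.card_Ico, ← card_image_of_injective _ Fin.val_injective]
  congr 1
  ext k
  simp only [mem_image, mem_filter, mem_univ, true_and, mem_Ico]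
  constructor
  · rintro ⟨w, hw, rfl⟩
    exact hw
  · intro hk
    exact ⟨⟨k, by omega⟩, hk, rfl⟩

end Pool.Agent.Work.MP_0ea01d_co
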