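import Pool.Agent.Work.MP_0ea01d_co.Asym

set_option autoImplicit false

namespace Pool.Agent.Work.MP_0ea01d_co.IntervalAllLevels

open Pool.Agent.Work.MP_0ea01d_co Filter

/-- For every `l ≥ 3` and `ε > 0`, if `n` is large then every integer between
`(1 - ((l-1)/l)^l + ε) C(n,l)` and `C(n,l)` is the size of a maximal antichain of `B_n` contained
in the levels `l` and `l + 1`. -/
theorem result (l : ℕ) (hl : 3 ≤ l) (ε : ℝ) (hε : 0 < ε) :
    ∀ᶠ n : ℕ in atTop, ∀ m : ℕ,
      (1 - (((l : ℝ) - 1) / l) ^ l + ε) * n.choose l ≤ m → m ≤ n.choose l → m ∈ S n l :=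
  four_asym l hl ε hε

end Pool.Agent.Work.MP_0ea01d_co.IntervalAllLevels
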