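import Pool.Agent.Work.MP_0ea01d_co.Asym

set_option autoImplicit false

namespace Pool.Agent.Work.MP_0ea01d_co

open Finset

variable {k m l : ℕ}

/-- Sum of the part indices. -/
def wt (T : Finset (Fin k × ZMod m)) : ZMod k := ∑ p ∈ T, ((p.1.val : ℕ) : ZMod k)

/-- Sum of the values outside the part `0`. -/
def tot (T : Finset (Fin k × ZMod m)) : ZMod m := ∑ p ∈ T, if p.1.val = 0 then 0 else p.2

theorem wt_exch {T : Finset (Fin k × ZMod m)} {u v : Fin k × ZMod m} (hv : v ∈ T)
    (hu : u ∉ T.erase v) : wt (insert u (T.erase v)) + ((v.1.val : ℕ) : ZMod k) =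
      wt T + ((u.1.val : ℕ) : ZMod k) := by
  unfold wt
  rw [sum_insert hu, ← add_sum_erase T (fun p => ((p.1.val : ℕ) : ZMod k)) hv]
  ring

theorem wt_erase {T : Finset (Fin k × ZMod m)} {v : Fin k × ZMod m} (hv : v ∈ T) :
    wt (T.erase v) + ((v.1.val : ℕ) : ZMod k) = wt T := by
  unfold wt
  rw [← add_sum_erase T (fun p => ((p.1.val : ℕ) : ZMod k)) hv]
  ring

theorem tot_exch {T : Finset (Fin k × ZMod m)} {u v : Fin k × ZMod m} (hv : v ∈ T)
    (hu : u ∉ T.erase v) : tot (insert u (T.erase v)) + (if v.1.val = 0 then 0 else v.2) =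
      tot T + (if u.1.val = 0 then 0 else u.2) := by
  unfold tot
  rw [sum_insert hu, ← add_sum_erase T (fun p => if p.1.val = 0 then (0 : ZMod m) else p.2) hv]
  ring

theorem part_inj {i j : Fin k} (h : ((i.val : ℕ) : ZMod k) = ((j.val : ℕ) : ZMod k)) : i = j := by
  have h1 := (ZMod.natCast_eq_natCast_iff' _ _ _).1 h
  rw [Nat.mod_eq_of_lt i.isLt, Nat.mod_eq_of_lt j.isLt] at h1
  exact Fin.ext h1

/-- The defining property of the family. -/
def KM (l : ℕ) (r : ZMod k) (s : ZMod m) (T : Finset (Fin k × ZMod m)) : Prop :=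
  T.card = l + 1 ∧ wt T = r ∧ tot T = s ∧
    ∀ i : Fin k, (i.val = 0 → 1 ≤ cnt i T) ∧ (i.val ≠ 0 → 2 ≤ cnt i T)

open Classical in
/-- The family. -/
noncomputable def FM (k m l : ℕ) [NeZero m] (r : ZMod k) (s : ZMod m) :
    Finset (Finset (Fin k × ZMod m)) := univ.filter fun T => KM l r s T

theorem mem_FM [NeZero m] {r : ZMod k} {s : ZMod m} {T : Finset (Fin k × ZMod m)} :
    T ∈ FM k m l r s ↔ KM l r s T := by
  simp [FM]

theorem KM.unique {r : ZMod k} {s : ZMod m} {T T' : Finset (Fin k × ZMod m)}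
    {v : Fin k × ZMod m} (h : KM l r s T) (h' : KM l r s T') (hv : v ∈ T)
    (hsub : T.erase v ⊆ T') (hne : v.1.val ≠ 0) : T' = T := by
  obtain ⟨u, hu, rfl, -, -⟩ := exch hv (by rw [h.1, h'.1]) hsub
  have hw := wt_exch hv hu
  have ht := tot_exch hv hu
  rw [h.2.1, h'.2.1] at hw
  have hpart : v.1 = u.1 := part_inj (add_left_cancel hw)
  rw [h.2.2.1, h'.2.2.1, ← hpart, if_neg hne, if_neg hne] at ht
  have hval : v.2 = u.2 := add_left_cancel ht
  have : u = v := Prod.ext hpart.symm hval.symm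
  rw [this, insert_erase hv]

theorem KM.of_closed {r : ZMod k} {s : ZMod m} {T : Finset (Fin k × ZMod m)}
    (hT : T.card = l + 1)
    (hall : ∀ v ∈ T, ∃ T', KM l r s T' ∧ T.erase v ⊆ T') : KM l r s T := by
  have hinfo : ∀ v ∈ T, ∃ u, u ∉ T.erase v ∧ KM l r s (insert u (T.erase v)) := by
    intro v hv
    obtain ⟨T', hT', hsub⟩ := hall v hv
    obtain ⟨u, hu, rfl, _, _⟩ := exch hv (by rw [hT, hT'.1]) hsub
    exact ⟨u, hu, hT'⟩
  obtain ⟨v₀, hv₀⟩ := card_pos.1 (show 0 < T.card by omega)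
  -- the parts different from `0`
  have hparts : ∀ i : Fin k, i.val ≠ 0 → 2 ≤ cnt i T := by
    intro i hi
    by_contra hcon
    have hcases : cnt i T = 0 ∨ cnt i T = 1 := by omega
    rcases hcases with h0 | h1
    · obtain ⟨u, hu, h⟩ := hinfo v₀ hv₀
      have h2 := (h.2.2.2 i).2 hi
      rw [cnt_insert i hu] at h2
      have h3 := cnt_erase i hv₀
      split_ifs at h2 h3 <;> omega
    · obtain ⟨v, hv, hvi⟩ := exists_of_cnt (show 0 < cnt i T by omega)
      obtain ⟨u, hu, h⟩ := hinfo v hv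
      have h2 := (h.2.2.2 i).2 hi
      rw [cnt_insert i hu] at h2
      have h3 := cnt_erase i hv
      rw [if_pos hvi] at h3
      split_ifs at h2 <;> omega
  -- elements of the critical part
  have hcrit : ∀ v ∈ T, wt T = r + ((v.1.val : ℕ) : ZMod k) →
      tot T = s + if v.1.val = 0 then 0 else v.2 := by
    intro v hv hwv
    obtain ⟨u, hu, h⟩ := hinfo v hv
    have hw := wt_exch hv hu
    rw [h.2.1, hwv] at hw
    have hu0 : ((u.1.val : ℕ) : ZMod k) = 0 := by
      have h1 : r + ((v.1.val : ℕ) : ZMod k) = r + ((v.1.val : ℕ) : ZMod k) +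
        ((u.1.val : ℕ) : ZMod k) := hw
      have h2 := h1.symm
      rwa [add_eq_left] at h2
    have hu0' : u.1.val = 0 := by
      have h1 := (ZMod.natCast_eq_zero_iff _ _).1 hu0
      exact Nat.eq_zero_of_dvd_of_lt h1 u.1.isLt
    have ht := tot_exch hv hu
    rw [h.2.2.1, hu0', if_pos rfl, add_zero] at ht
    exact ht.symm
  have : NeZero k := ⟨fun h0 => by subst h0; exact v₀.1.elim0⟩
  -- the index of the critical part
  obtain ⟨j, hj⟩ : ∃ j : Fin k, wt T = r + ((j.val : ℕ) : ZMod k) := by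
    refine ⟨⟨(wt T - r).val, ZMod.val_lt _⟩, ?_⟩
    simp only
    rw [ZMod.natCast_zmod_val]
    ring
  by_cases hj0 : j.val = 0
  · have hwT : wt T = r := by rw [hj, hj0]; simp
    have hc0 : ∀ i : Fin k, i.val = 0 → 1 ≤ cnt i T := by
      intro i hi
      by_contra hcon
      have h0 : cnt i T = 0 := by omega
      obtain ⟨u, hu, h⟩ := hinfo v₀ hv₀
      have h2 := (h.2.2.2 i).1 hi
      rw [cnt_insert i hu] at h2
      have h3 := cnt_erase i hv₀
      have hui : u.1 = i := by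
        by_contra hne
        rw [if_neg hne] at h2
        omega
      have hw := wt_exch hv₀ hu
      rw [h.2.1, hwT, hui, hi] at hw
      have hv0 : ((v₀.1.val : ℕ) : ZMod k) = ((i.val : ℕ) : ZMod k) := by
        rw [hi]
        exact add_left_cancel hw
      have hvi : v₀.1 = i := part_inj hv0
      have := cnt_pos hv₀
      rw [hvi] at this
      omega
    refine ⟨hT, hwT, ?_, fun i => ⟨hc0 i, hparts i⟩⟩
    obtain ⟨v, hv, hvj⟩ := exists_of_cnt (show 0 < cnt j T from hc0 j hj0)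
    have := hcrit v hv (by rw [hvj]; exact hj)
    rw [hvj, if_pos hj0, add_zero] at this
    exact this
  · exfalso
    obtain ⟨v, hv, v', hv', e1, e2, hne⟩ := exists_two_of_cnt (show 1 < cnt j T from hparts j hj0)
    have c1 := hcrit v hv (by rw [e1]; exact hj)
    have c2 := hcrit v' hv' (by rw [e2]; exact hj)
    rw [e1, if_neg hj0] at c1
    rw [e2, if_neg hj0] at c2
    exact hne (add_left_cancel (c1.symm.trans c2))

theorem good_FM [NeZero m] (hk : 2 ≤ k) (r : ZMod k) (s : ZMod m) : Good l (FM k m l r s) := by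
  refine ⟨?_, ?_, ?_⟩
  · intro T hT
    exact (mem_FM.1 hT).1
  · intro T hT
    have h := mem_FM.1 hT
    obtain ⟨v, hv, hvi⟩ := exists_of_cnt (i := (⟨1, by omega⟩ : Fin k)) (T := T)
      (by have := (h.2.2.2 ⟨1, by omega⟩).2 (by simp); omega)
    refine ⟨T.erase v, erase_subset _ _, ?_, ?_⟩
    · rw [card_erase_of_mem hv, h.1]
      rfl
    · intro T' hT' hsub
      exact h.unique (mem_FM.1 hT') hv hsub (by rw [hvi]; simp)
  · intro T hT hall
    rw [mem_FM]
    apply KM.of_closed hT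
    intro v hv
    obtain ⟨T', hT', hsub⟩ := hall (T.erase v) (erase_subset _ _) (by
      rw [card_erase_of_mem hv, hT]; rfl)
    exact ⟨T', mem_FM.1 hT', hsub⟩

/-- Lower bound for the gain. -/
theorem NN_FM [NeZero m] (i₀ : Fin k) (hi₀ : i₀.val = 0) (r : ZMod k) (s : ZMod m) :
    ∑ T ∈ FM k m l r s, ((l : ℤ) - cnt i₀ T) ≤ NN l (FM k m l r s) := by
  have h := NN_ge (l := l) (FM k m l r s) (fun T => l + 1 - cnt i₀ T) (by
    intro T hT
    have hK := mem_FM.1 hT
    have h1 := card_filter_add_card_filter_not (s := T) (fun v : Fin k × ZMod m => v.1 = i₀)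
    refine ⟨T.filter fun v => ¬ v.1 = i₀, filter_subset _ _, ?_, ?_⟩
    · rw [hK.1] at h1
      have h2 : (T.filter fun v => v.1 = i₀).card = cnt i₀ T := rfl
      omega
    · intro v hv T' hT' hsub
      rw [mem_filter] at hv
      refine hK.unique (mem_FM.1 hT') hv.1 hsub fun h0 => hv.2 (Fin.ext ?_)
      rw [h0, hi₀]) (fun T hT => (mem_FM.1 hT).1)
  refine le_trans (le_of_eq ?_) h
  push_cast
  rw [card_eq_sum_ones]
  push_cast
  rw [← sum_sub_distrib]
  apply sum_congr rfl
  intro T hT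
  have hle : cnt i₀ T ≤ l + 1 := by
    rw [← (mem_FM.1 hT).1]
    exact card_filter_le _ _
  rw [Nat.cast_sub hle]
  push_cast
  ring

end Pool.Agent.Work.MP_0ea01d_co
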