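import Pool.Agent.Work.MP_0ea01d_co.ManyCount

set_option autoImplicit false

namespace Pool.Agent.Work.MP_0ea01d_co

open Finset Filter Topology

/-- Comparison of binomial coefficients, upper bound. -/
theorem choose_ratio_up (l : ℕ) (θ δ : ℝ) (hθ : 0 ≤ θ) (hδ : 0 < δ) :
    ∀ᶠ n : ℕ in atTop, ∀ b : ℕ, (b : ℝ) ≤ θ * n → (b.choose l : ℝ) ≤ (θ ^ l + δ) * n.choose l := by
  have h1 : Tendsto (fun n : ℕ => (θ ^ l + δ) * (1 - (l : ℝ) / (n : ℝ)) ^ l) atTop
      (𝓝 ((θ ^ l + δ) * (1 - 0) ^ l)) :=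
    ((tendsto_const_nhds.sub (tendsto_const_div_atTop_nhds_zero_nat (l : ℝ))).pow l).const_mul _
  rw [sub_zero, one_pow, mul_one] at h1
  have e1 : ∀ᶠ n : ℕ in atTop, θ ^ l < (θ ^ l + δ) * (1 - (l : ℝ) / (n : ℝ)) ^ l :=
    h1.eventually (lt_mem_nhds (by linarith))
  filter_upwards [e1, eventually_ge_atTop (l + 1)] with n e1 hn b hb
  have hn0 : (0 : ℝ) < n := by exact_mod_cast (by omega : 0 < n)
  have hf : (0 : ℝ) < l.factorial := by exact_mod_cast l.factorial_pos
  have hnl : (0 : ℝ) ≤ (n : ℝ) - l := by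
    have : (l : ℝ) ≤ n := by exact_mod_cast (by omega : l ≤ n)
    linarith
  have h2 : (((n + 1 - l : ℕ) : ℝ) ^ l) / l.factorial ≤ n.choose l := Nat.pow_le_choose l n
  have h3 : (b.choose l : ℝ) ≤ (b : ℝ) ^ l / l.factorial := Nat.choose_le_pow_div l b
  have h4 : (n : ℝ) - l ≤ ((n + 1 - l : ℕ) : ℝ) := by
    rw [Nat.cast_sub (by omega)]
    push_cast
    linarith
  have hθl : (0 : ℝ) ≤ θ ^ l + δ := by positivity
  calc (b.choose l : ℝ) ≤ (b : ℝ) ^ l / l.factorial := h3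
    _ ≤ (θ * n) ^ l / l.factorial := by
        apply div_le_div_of_nonneg_right _ hf.le
        exact pow_le_pow_left₀ (by positivity) hb l
    _ = θ ^ l * ((n : ℝ) ^ l / l.factorial) := by rw [mul_pow]; ring
    _ ≤ (θ ^ l + δ) * (1 - (l : ℝ) / (n : ℝ)) ^ l * ((n : ℝ) ^ l / l.factorial) :=
        mul_le_mul_of_nonneg_right e1.le (by positivity)
    _ = (θ ^ l + δ) * (((n : ℝ) - l) ^ l / l.factorial) := by
        have : (n : ℝ) - l = (1 - (l : ℝ) / n) * n := by field_simp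
        rw [this, mul_pow]
        ring
    _ ≤ (θ ^ l + δ) * ((((n + 1 - l : ℕ) : ℝ) ^ l) / l.factorial) := by
        apply mul_le_mul_of_nonneg_left _ hθl
        apply div_le_div_of_nonneg_right _ hf.le
        exact pow_le_pow_left₀ hnl h4 l
    _ ≤ (θ ^ l + δ) * n.choose l := mul_le_mul_of_nonneg_left h2 hθl

/-- Lower bound for the gain in a convenient form. -/
theorem gain_real {k m l : ℕ} (hk : 2 ≤ k) (hm : 1 ≤ m) (N : ℝ)
    (h : (l : ℝ) * (k * m).choose (l + 1) - m * (k * m - 1).choose l -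
      l * (k * ((k * m - m).choose (l + 1) + m * (k * m - m).choose l)) ≤ (k * m : ℝ) * N) :
    ((l : ℝ) / (l + 1) - 1 / k) * (k * m - 1).choose l -
      l * (1 + ((k : ℝ) - 1) / (l + 1)) * (k * m - m).choose l ≤ N := by
  obtain ⟨M, hM⟩ : ∃ M, k * m = M + 1 := ⟨k * m - 1, by
    have : 1 ≤ k * m := Nat.mul_pos (by omega) (by omega)
    omega⟩
  obtain ⟨R, hR⟩ : ∃ R, k * m - m = R + 1 := ⟨k * m - m - 1, by
    have : 2 * m ≤ k * m := Nat.mul_le_mul_right m hk
    omega⟩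
  have hRr : ((R : ℝ) + 1) = (k - 1) * m := by
    have h1 : R + 1 + m = k * m := by
      have : m ≤ k * m := Nat.le_mul_of_pos_left m (by omega)
      omega
    have h2 : ((R : ℝ) + 1) + m = k * m := by exact_mod_cast h1
    linarith
  have hMr : ((M : ℝ) + 1) = k * m := by
    have : ((k * m : ℕ) : ℝ) = ((M + 1 : ℕ) : ℝ) := by rw [hM]
    push_cast at this
    linarith
  rw [hR, hM] at h
  rw [hR, hM, Nat.add_sub_cancel]
  rw [Nat.add_sub_cancel] at h
  have i1 : ((M : ℝ) + 1) * M.choose l = (M + 1).choose (l + 1) * (l + 1) := by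
    exact_mod_cast Nat.add_one_mul_choose_eq M l
  have i2 : ((R : ℝ) + 1) * R.choose l = (R + 1).choose (l + 1) * (l + 1) := by
    exact_mod_cast Nat.add_one_mul_choose_eq R l
  have hl1 : (0 : ℝ) < (l : ℝ) + 1 := by positivity
  have j1 : ((M + 1).choose (l + 1) : ℝ) = k * m * M.choose l / (l + 1) := by
    rw [eq_div_iff hl1.ne', ← i1, hMr]
  have j2 : ((R + 1).choose (l + 1) : ℝ) = (k - 1) * m * R.choose l / (l + 1) := by
    rw [eq_div_iff hl1.ne', ← i2, hRr]
  have j3 : (R.choose l : ℝ) ≤ (R + 1).choose l := by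
    exact_mod_cast Nat.choose_le_choose l (Nat.le_succ R)
  rw [j1, j2] at h
  have hk0 : (0 : ℝ) < k := by exact_mod_cast (by omega : 0 < k)
  have hm0 : (0 : ℝ) < m := by exact_mod_cast hm
  have hkm : (0 : ℝ) < k * m := by positivity
  have hk1 : (0 : ℝ) ≤ (k : ℝ) - 1 := by
    have : (2 : ℝ) ≤ k := by exact_mod_cast hk
    linarith
  have h2 : (k * m : ℝ) * (((l : ℝ) / (l + 1) - 1 / k) * M.choose l -
      l * (1 + ((k : ℝ) - 1) / (l + 1)) * (R + 1).choose l) ≤ (k * m : ℝ) * N := by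
    refine le_trans ?_ h
    have e1 : (k * m : ℝ) * (((l : ℝ) / (l + 1) - 1 / k) * M.choose l -
      l * (1 + ((k : ℝ) - 1) / (l + 1)) * (R + 1).choose l) =
      l * (k * m * M.choose l / (l + 1)) - m * M.choose l -
      l * (k * ((k - 1) * m * (R + 1).choose l / (l + 1) + m * (R + 1).choose l)) := by
      field_simp
      ring
    rw [e1]
    have e2 : (l : ℝ) * (k * ((k - 1) * m * R.choose l / (l + 1) + m * (R + 1).choose l)) ≤
        l * (k * ((k - 1) * m * (R + 1).choose l / (l + 1) + m * (R + 1).choose l)) := by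
      gcongr
    linarith
  exact le_of_mul_le_mul_left h2 hkm

/-- The asymptotic interval with `k` parts. -/
theorem many_asym (k l : ℕ) (hk : 2 ≤ k) (hl : 3 ≤ l) (β : ℝ) (hβ : 0 < β)
    (hG : β < ((l : ℝ) / (l + 1) - 1 / k) -
      l * (1 + ((k : ℝ) - 1) / (l + 1)) * (1 - 1 / k) ^ l) :
    ∀ᶠ n : ℕ in atTop, ∀ m : ℕ, (1 - β) * n.choose l ≤ m → m ≤ n.choose l → m ∈ S n l := by
  have hk2 : (2 : ℝ) ≤ k := by exact_mod_cast hk
  have hl3 : (3 : ℝ) ≤ l := by exact_mod_cast hl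
  have hk0 : (0 : ℝ) < k := by linarith
  have hl1 : (0 : ℝ) < (l : ℝ) + 1 := by linarith
  obtain ⟨A, hA⟩ : ∃ A : ℝ, A = (l : ℝ) / (l + 1) - 1 / k := ⟨_, rfl⟩
  obtain ⟨B, hB⟩ : ∃ B : ℝ, B = (l : ℝ) * (1 + ((k : ℝ) - 1) / (l + 1)) := ⟨_, rfl⟩
  rw [← hA, ← hB] at hG
  have hA0 : 0 ≤ A := by
    rw [hA]
    have e1 : (1 : ℝ) / k ≤ 1 / 2 := one_div_le_one_div_of_le (by norm_num) hk2
    have e2 : (1 : ℝ) / 2 ≤ l / (l + 1) := by
      rw [div_le_div_iff₀ (by norm_num) hl1]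
      linarith
    linarith
  have hB0 : 0 ≤ B := by
    rw [hB]
    have : 0 ≤ ((k : ℝ) - 1) / (l + 1) := div_nonneg (by linarith) hl1.le
    positivity
  have hθ0 : (0 : ℝ) ≤ 1 - 1 / k := by
    have : (1 : ℝ) / k ≤ 1 := by
      rw [div_le_one hk0]
      linarith
    linarith
  obtain ⟨η, hη0, hη⟩ : ∃ η : ℝ, 0 < η ∧ β ≤ A * (1 - η) - B * ((1 - 1 / k) ^ l + η) := by
    refine ⟨(A - B * (1 - 1 / k) ^ l - β) / (A + B + 1), ?_, ?_⟩
    · apply div_pos
      · linarith
      · positivity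
    · have hpos : 0 < A + B + 1 := by positivity
      have e1 : (A + B) * ((A - B * (1 - 1 / k) ^ l - β) / (A + B + 1)) ≤
          A - B * (1 - 1 / k) ^ l - β := by
        rw [mul_div_assoc', div_le_iff₀ hpos]
        nlinarith
      nlinarith
  obtain ⟨g, hg⟩ : ∃ g, g = (2 * l + 2) + (l + 1) ^ 2 := ⟨_, rfl⟩
  have h1 := choose_ratio l 1 (g + k + 1) η one_pos hη0
  have h2 := choose_ratio_up l (1 - 1 / k) η hθ0 hη0
  have h3 : ∀ᶠ n : ℕ in atTop, ((2 * l + 2).choose (l + 1) : ℝ) / β + l ≤ (n : ℝ) :=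
    tendsto_natCast_atTop_atTop.eventually (eventually_ge_atTop _)
  filter_upwards [h1, h2, h3, eventually_ge_atTop (g + k + l)] with n h1 h2 h3 hn m' hm1 hm2
  obtain ⟨m, hm⟩ : ∃ m, m = (n - g) / k := ⟨_, rfl⟩
  have hmod := Nat.div_add_mod (n - g) k
  have hmlt := Nat.mod_lt (n - g) (show 0 < k by omega)
  rw [← hm] at hmod
  have hmpos : 1 ≤ m := by
    rw [hm, Nat.le_div_iff_mul_le (by omega)]
    omega
  have : NeZero m := ⟨by omega⟩
  obtain ⟨F, hF, hgain⟩ := exists_gain (k := k) (m := m) (l := l) hk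
  have hgain' : (l : ℝ) * (k * m).choose (l + 1) - m * (k * m - 1).choose l -
      l * (k * ((k * m - m).choose (l + 1) + m * (k * m - m).choose l)) ≤
      (k * m : ℝ) * (NN l F : ℝ) := by exact_mod_cast hgain
  have hreal := gain_real hk hmpos _ hgain'
  rw [← hA, ← hB] at hreal
  have hkm1 : k * m + g ≤ n := by omega
  have hkm2 : n < k * m + g + k := by omega
  have hkmr1 : (k : ℝ) * m + g ≤ n := by exact_mod_cast hkm1
  have hkmr2 : (n : ℝ) < k * m + g + k := by exact_mod_cast hkm2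
  have hkm0 : 1 ≤ k * m := Nat.mul_pos (by omega) (by omega)
  have r1 := h1 (k * m - 1) (by
    rw [Nat.cast_sub hkm0]
    push_cast
    linarith)
  have r2 := h2 (k * m - m) (by
    have hle : m ≤ k * m := Nat.le_mul_of_pos_left m (by omega)
    rw [Nat.cast_sub hle]
    push_cast
    have e1 : (k : ℝ) * m - m = (1 - 1 / k) * (k * m) := by
      field_simp
    rw [e1]
    apply mul_le_mul_of_nonneg_left _ hθ0
    have : (0 : ℝ) ≤ g := by positivity
    linarith)
  rw [one_pow] at r1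
  have hC0 : (0 : ℝ) ≤ n.choose l := by positivity
  have hNN : β * n.choose l ≤ (NN l F : ℝ) := by
    calc β * n.choose l ≤ (A * (1 - η) - B * ((1 - 1 / k) ^ l + η)) * n.choose l :=
          mul_le_mul_of_nonneg_right hη hC0
      _ = A * ((1 - η) * n.choose l) - B * (((1 - 1 / k) ^ l + η) * n.choose l) := by ring
      _ ≤ A * (k * m - 1).choose l - B * (k * m - m).choose l := by
          have := mul_le_mul_of_nonneg_left r1 hA0
          have := mul_le_mul_of_nonneg_left r2 hB0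
          linarith
      _ ≤ NN l F := hreal
  have hbig : -NN l (clq l) ≤ NN l F := by
    rw [NN_clq]
    have e1 : (n - l) + 1 ≤ n.choose l := by
      have := choose_ge (n - l) l (by omega)
      rwa [Nat.sub_add_cancel (by omega)] at this
    have e2 : (n : ℝ) - l + 1 ≤ n.choose l := by
      have : (((n - l) + 1 : ℕ) : ℝ) ≤ n.choose l := by exact_mod_cast e1
      rw [Nat.cast_add, Nat.cast_sub (by omega)] at this
      push_cast at this
      linarith
    have e3 : ((2 * l + 2).choose (l + 1) : ℝ) ≤ β * n.choose l := by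
      have : ((2 * l + 2).choose (l + 1) : ℝ) / β ≤ n.choose l := by linarith
      rw [div_le_iff₀ hβ] at this
      linarith
    have e4 : ((2 * l + 2).choose (l + 1) : ℝ) ≤ (NN l F : ℝ) := e3.trans hNN
    have e5 : ((2 * l + 2).choose (l + 1) : ℤ) ≤ NN l F := by exact_mod_cast e4
    have e6 : (0 : ℤ) ≤ (2 * l + 2).choose l := by positivity
    linarith
  obtain ⟨t, ht, hte⟩ := interval hl F hF (n := n) (by
      rw [Fintype.card_prod, Fintype.card_fin, ZMod.card]
      omega) hbig ((n.choose l : ℤ) - m') (by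
      have : (m' : ℤ) ≤ n.choose l := by exact_mod_cast hm2
      linarith) (by
      have e1 : ((n.choose l : ℝ)) - m' ≤ (NN l F : ℝ) := by linarith
      exact_mod_cast e1)
  have : m' = t := by
    have : (m' : ℤ) = t := by rw [hte]; ring
    exact_mod_cast this
  rw [this]
  exact ht

/-- The order of magnitude for large `l`. -/
theorem many_log (δ : ℝ) (hδ : 0 < δ) : ∃ l₀ : ℕ, ∀ l : ℕ, l₀ ≤ l → ∀ᶠ n : ℕ in atTop, ∀ m : ℕ,
    (2 + δ) * (Real.log l / l) * n.choose l ≤ m → m ≤ n.choose l → m ∈ S n l := by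
  have t1 : Tendsto (fun l : ℕ => Real.log l / (l : ℝ)) atTop (𝓝 0) := by
    have h := Real.isLittleO_log_id_atTop.tendsto_div_nhds_zero
    exact h.comp tendsto_natCast_atTop_atTop
  have t0 : Tendsto (fun l : ℕ => Real.log (l : ℝ)) atTop atTop :=
    Real.tendsto_log_atTop.comp tendsto_natCast_atTop_atTop
  have t2 : Tendsto (fun l : ℕ => 3 / Real.log (l : ℝ)) atTop (𝓝 0) :=
    tendsto_const_nhds.div_atTop t0
  have t3 : Tendsto (fun l : ℕ => 2 / (1 - 2 * (Real.log l / (l : ℝ))) + 3 / Real.log (l : ℝ))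
      atTop (𝓝 (2 / (1 - 2 * 0) + 0)) :=
    (tendsto_const_nhds.div (tendsto_const_nhds.sub (t1.const_mul 2)) (by norm_num)).add t2
  have e3 : ∀ᶠ l : ℕ in atTop,
      2 / (1 - 2 * (Real.log l / (l : ℝ))) + 3 / Real.log (l : ℝ) < 2 + δ :=
    t3.eventually (gt_mem_nhds (by norm_num; exact hδ))
  have e1 : ∀ᶠ l : ℕ in atTop, Real.log l / (l : ℝ) < 1 / 4 :=
    t1.eventually (gt_mem_nhds (by norm_num))
  have e1' : ∀ᶠ l : ℕ in atTop, Real.log l / (l : ℝ) < 1 / (2 + δ) :=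
    t1.eventually (gt_mem_nhds (by positivity))
  have e0 : ∀ᶠ l : ℕ in atTop, 1 ≤ Real.log (l : ℝ) := t0.eventually (eventually_ge_atTop 1)
  obtain ⟨l₀, hl₀⟩ := eventually_atTop.1 (e3.and (e1.and (e1'.and (e0.and (eventually_ge_atTop 3)))))
  refine ⟨l₀, fun l hl => ?_⟩
  obtain ⟨e3, e1, e1', e0, hl3⟩ := hl₀ l hl
  have hlr : (3 : ℝ) ≤ l := by exact_mod_cast hl3
  have hl0 : (0 : ℝ) < l := by linarith
  have hlog : 0 < Real.log (l : ℝ) := by linarith
  -- the number of parts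
  obtain ⟨k, hk⟩ : ∃ k, k = ⌊(l : ℝ) / (2 * Real.log l)⌋₊ := ⟨_, rfl⟩
  have hx : (2 : ℝ) ≤ (l : ℝ) / (2 * Real.log l) := by
    rw [le_div_iff₀ (by positivity)]
    rw [div_lt_iff₀ hl0] at e1
    linarith
  have hk2 : 2 ≤ k := by
    rw [hk]
    exact Nat.le_floor (by exact_mod_cast hx)
  have hkle : (k : ℝ) ≤ (l : ℝ) / (2 * Real.log l) := by
    rw [hk]
    exact Nat.floor_le (by positivity)
  have hkgt : (l : ℝ) / (2 * Real.log l) < k + 1 := by
    rw [hk]
    exact Nat.lt_floor_add_one _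
  have hk2r : (2 : ℝ) ≤ k := by exact_mod_cast hk2
  have hk0 : (0 : ℝ) < k := by linarith
  -- the power
  have hpow : (1 - 1 / (k : ℝ)) ^ l ≤ 1 / (l : ℝ) ^ 2 := by
    have h1 : 1 - 1 / (k : ℝ) ≤ Real.exp (-(1 / k)) := by
      have := Real.add_one_le_exp (-(1 / (k : ℝ)))
      linarith
    have h0 : (0 : ℝ) ≤ 1 - 1 / (k : ℝ) := by
      have : (1 : ℝ) / k ≤ 1 := by
        rw [div_le_one hk0]
        linarith
      linarith
    have h2 : (1 - 1 / (k : ℝ)) ^ l ≤ (Real.exp (-(1 / k))) ^ l := pow_le_pow_left₀ h0 h1 l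
    have h3 : (Real.exp (-(1 / (k : ℝ)))) ^ l = Real.exp (-(l / k)) := by
      rw [← Real.exp_nat_mul]
      congr 1
      ring
    have h4 : Real.exp (-((l : ℝ) / k)) ≤ Real.exp (-(2 * Real.log l)) := by
      apply Real.exp_le_exp.2
      have : 2 * Real.log l ≤ (l : ℝ) / k := by
        rw [le_div_iff₀ hk0]
        rw [le_div_iff₀ (by positivity)] at hkle
        linarith
      linarith
    have h5 : Real.exp (-(2 * Real.log (l : ℝ))) = 1 / (l : ℝ) ^ 2 := by
      rw [Real.exp_neg, mul_comm, Real.exp_mul, Real.exp_log hl0]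
      norm_num
    rw [h3] at h2
    rw [h5] at h4
    exact h2.trans h4
  have hkl : (k : ℝ) ≤ l := by
    refine hkle.trans ?_
    rw [div_le_iff₀ (by positivity)]
    nlinarith
  have hthird : (l : ℝ) * (1 + ((k : ℝ) - 1) / (l + 1)) * (1 - 1 / k) ^ l ≤ 2 / l := by
    have h1 : (1 + ((k : ℝ) - 1) / (l + 1)) ≤ 2 := by
      have : ((k : ℝ) - 1) / (l + 1) ≤ 1 := by
        rw [div_le_one (by linarith)]
        linarith
      linarith
    have h0 : 0 ≤ (1 + ((k : ℝ) - 1) / (l + 1)) := by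
      have : 0 ≤ ((k : ℝ) - 1) / (l + 1) := div_nonneg (by linarith) (by linarith)
      linarith
    calc (l : ℝ) * (1 + ((k : ℝ) - 1) / (l + 1)) * (1 - 1 / k) ^ l ≤
          (l : ℝ) * (1 + ((k : ℝ) - 1) / (l + 1)) * (1 / (l : ℝ) ^ 2) :=
          mul_le_mul_of_nonneg_left hpow (by positivity)
      _ ≤ (l : ℝ) * 2 * (1 / (l : ℝ) ^ 2) := by
          apply mul_le_mul_of_nonneg_right _ (by positivity)
          exact mul_le_mul_of_nonneg_left h1 hl0.le
      _ = 2 / l := by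
          field_simp
  have hinv : 1 / (k : ℝ) + 3 / l < (2 + δ) * (Real.log l / l) := by
    have hd : 0 < 1 - 2 * (Real.log l / (l : ℝ)) := by linarith
    have h1 : 1 / (k : ℝ) ≤ (2 / (1 - 2 * (Real.log l / (l : ℝ)))) * (Real.log l / l) := by
      have h2 : (l : ℝ) / (2 * Real.log l) - 1 < k := by linarith
      have h3 : (l : ℝ) / (2 * Real.log l) - 1 =
          1 / ((2 / (1 - 2 * (Real.log l / (l : ℝ)))) * (Real.log l / l)) := by
        field_simp
      have h4 : 0 < (2 / (1 - 2 * (Real.log l / (l : ℝ)))) * (Real.log l / l) := by positivity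
      rw [h3] at h2
      rw [div_le_iff₀ hk0]
      rw [div_lt_iff₀ h4] at h2
      linarith
    have h2 : (3 : ℝ) / l = (3 / Real.log l) * (Real.log l / l) := by
      field_simp
    rw [h2]
    have h3 : 0 < Real.log l / (l : ℝ) := by positivity
    have h4 := mul_lt_mul_of_pos_right e3 h3
    rw [add_mul] at h4
    linarith
  have h := many_asym k l hk2 hl3 (1 - (2 + δ) * (Real.log l / l)) (by
      rw [lt_div_iff₀ (by positivity)] at e1'
      linarith) (by
      have h1 : (l : ℝ) / (l + 1) = 1 - 1 / (l + 1) := by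
        field_simp
        ring
      have h2 : 1 / ((l : ℝ) + 1) ≤ 1 / l := one_div_le_one_div_of_le hl0 (by linarith)
      have h3 : (3 : ℝ) / l = 1 / l + 2 / l := by ring
      rw [h1]
      linarith)
  filter_upwards [h] with n h m hm1 hm2
  apply h m _ hm2
  have : (1 : ℝ) - (1 - (2 + δ) * (Real.log l / l)) = (2 + δ) * (Real.log l / l) := by ring
  rw [this]
  exact hm1

end Pool.Agent.Work.MP_0ea01d_co
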