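import Pool.Agent.Work.MP_0ea01d_co.Many

set_option autoImplicit false

namespace Pool.Agent.Work.MP_0ea01d_co

open Finset

variable {k m l : ℕ}

/-- Number of `(l+1)`-sets containing a given element. -/
theorem card_containing {V : Type} [Fintype V] [DecidableEq V] (v : V) (l : ℕ) :
    ((powersetCard (l + 1) (univ : Finset V)).filter fun T => v ∈ T).card ≤
      (Fintype.card V - 1).choose l := by
  have h : ((powersetCard (l + 1) (univ : Finset V)).filter fun T => v ∈ T) ⊆
      (powersetCard l (univ.erase v)).image (insert v) := by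
    intro T hT
    rw [mem_filter, mem_powersetCard] at hT
    rw [mem_image]
    refine ⟨T.erase v, ?_, insert_erase hT.2⟩
    rw [mem_powersetCard]
    refine ⟨erase_subset_erase _ (subset_univ _), ?_⟩
    rw [card_erase_of_mem hT.2, hT.1.2]
    rfl
  refine (card_le_card h).trans (card_image_le.trans ?_)
  rw [card_powersetCard, card_erase_of_mem (mem_univ _), card_univ]

theorem card_part [NeZero m] (i : Fin k) :
    (univ.filter fun p : Fin k × ZMod m => p.1 = i).card = m := by
  have : (univ.filter fun p : Fin k × ZMod m => p.1 = i) =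
      (univ : Finset (ZMod m)).map ⟨fun x => (i, x), fun x y h => (Prod.mk.inj h).2⟩ := by
    ext p
    simp only [mem_filter, mem_univ, true_and, mem_map, Function.Embedding.coeFn_mk]
    constructor
    · intro h
      exact ⟨p.2, Prod.ext h.symm rfl⟩
    · rintro ⟨x, rfl⟩
      rfl
  rw [this, card_map, card_univ, ZMod.card]

theorem card_not_part [NeZero m] (i : Fin k) :
    (univ.filter fun p : Fin k × ZMod m => ¬ p.1 = i).card = k * m - m := by
  have h1 := card_filter_add_card_filter_not (s := (univ : Finset (Fin k × ZMod m)))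
    (fun p => p.1 = i)
  rw [card_part, card_univ, Fintype.card_prod, Fintype.card_fin, ZMod.card] at h1
  omega

theorem sum_cnt_le [NeZero m] (i : Fin k) :
    ∑ T ∈ powersetCard (l + 1) (univ : Finset (Fin k × ZMod m)), cnt i T ≤
      m * (k * m - 1).choose l := by
  have h1 : ∀ T : Finset (Fin k × ZMod m), cnt i T =
      ∑ v ∈ univ.filter (fun p : Fin k × ZMod m => p.1 = i), if v ∈ T then 1 else 0 := by
    intro T
    unfold cnt
    rw [← card_filter, filter_filter]
    congr 1
    ext v
    simp only [mem_filter, mem_univ, true_and]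
    tauto
  rw [sum_congr rfl (fun T _ => h1 T), sum_comm]
  calc _ ≤ ∑ v ∈ univ.filter (fun p : Fin k × ZMod m => p.1 = i), (k * m - 1).choose l := by
        apply sum_le_sum
        intro v _
        rw [← card_filter]
        have := card_containing v l
        rwa [Fintype.card_prod, Fintype.card_fin, ZMod.card] at this
    _ = m * (k * m - 1).choose l := by
        rw [sum_const, card_part, smul_eq_mul]

theorem card_zero [NeZero m] (i : Fin k) :
    ((powersetCard (l + 1) (univ : Finset (Fin k × ZMod m))).filter fun T => cnt i T = 0).card ≤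
      (k * m - m).choose (l + 1) := by
  rw [← card_not_part (m := m) i, ← card_powersetCard]
  apply card_le_card
  intro T hT
  rw [mem_filter, mem_powersetCard] at hT
  rw [mem_powersetCard]
  refine ⟨fun v hv => ?_, hT.1.2⟩
  rw [mem_filter]
  refine ⟨mem_univ _, fun hvi => ?_⟩
  have := cnt_pos hv
  rw [hvi] at this
  omega

theorem card_one [NeZero m] (i : Fin k) :
    ((powersetCard (l + 1) (univ : Finset (Fin k × ZMod m))).filter fun T => cnt i T = 1).card ≤
      m * (k * m - m).choose l := by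
  have h : ((powersetCard (l + 1) (univ : Finset (Fin k × ZMod m))).filter fun T => cnt i T = 1) ⊆
      ((univ.filter fun p : Fin k × ZMod m => p.1 = i) ×ˢ
        (powersetCard l (univ.filter fun p : Fin k × ZMod m => ¬ p.1 = i))).image
        (fun q => insert q.1 q.2) := by
    intro T hT
    rw [mem_filter, mem_powersetCard] at hT
    obtain ⟨v, hv, hvi⟩ := exists_of_cnt (show 0 < cnt i T by omega)
    rw [mem_image]
    refine ⟨(v, T.erase v), ?_, insert_erase hv⟩
    rw [mem_product, mem_filter, mem_powersetCard]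
    refine ⟨⟨mem_univ _, hvi⟩, ?_, ?_⟩
    · intro w hw
      change w ∈ T.erase v at hw
      rw [mem_filter]
      refine ⟨mem_univ _, fun hwi => ?_⟩
      have h1 := cnt_erase i hv
      rw [if_pos hvi] at h1
      have h2 := cnt_pos hw
      rw [hwi] at h2
      omega
    · rw [card_erase_of_mem hv, hT.1.2]
      rfl
  refine (card_le_card h).trans (card_image_le.trans ?_)
  rw [card_product, card_part, card_powersetCard, card_not_part]

open Classical in
/-- The candidates. -/
noncomputable def GM (k m l : ℕ) [NeZero m] : Finset (Finset (Fin k × ZMod m)) :=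
  (powersetCard (l + 1) univ).filter fun T =>
    ∀ i : Fin k, (i.val = 0 → 1 ≤ cnt i T) ∧ (i.val ≠ 0 → 2 ≤ cnt i T)

theorem sum_GM [NeZero m] (i₀ : Fin k) :
    (l : ℤ) * (k * m).choose (l + 1) - m * (k * m - 1).choose l -
      l * (k * ((k * m - m).choose (l + 1) + m * (k * m - m).choose l)) ≤
      ∑ T ∈ GM k m l, ((l : ℤ) - cnt i₀ T) := by
  classical
  have h1 := sum_filter_add_sum_filter_not (powersetCard (l + 1) (univ : Finset (Fin k × ZMod m)))
    (fun T => ∀ i : Fin k, (i.val = 0 → 1 ≤ cnt i T) ∧ (i.val ≠ 0 → 2 ≤ cnt i T))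
    (fun T => ((l : ℤ) - cnt i₀ T))
  have h2 : ∑ T ∈ powersetCard (l + 1) (univ : Finset (Fin k × ZMod m)), ((l : ℤ) - cnt i₀ T) =
      (l : ℤ) * (k * m).choose (l + 1) -
        ((∑ T ∈ powersetCard (l + 1) (univ : Finset (Fin k × ZMod m)), cnt i₀ T : ℕ) : ℤ) := by
    rw [sum_sub_distrib, sum_const, card_powersetCard, card_univ, Fintype.card_prod,
      Fintype.card_fin, ZMod.card]
    push_cast
    rw [nsmul_eq_mul]
    ring
  have h3 : ((∑ T ∈ powersetCard (l + 1) (univ : Finset (Fin k × ZMod m)), cnt i₀ T : ℕ) : ℤ) ≤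
      m * (k * m - 1).choose l := by
    exact_mod_cast sum_cnt_le i₀
  -- the bad sets
  have h4 : ((powersetCard (l + 1) (univ : Finset (Fin k × ZMod m))).filter fun T =>
      ¬ ∀ i : Fin k, (i.val = 0 → 1 ≤ cnt i T) ∧ (i.val ≠ 0 → 2 ≤ cnt i T)).card ≤
      k * ((k * m - m).choose (l + 1) + m * (k * m - m).choose l) := by
    have hsub : ((powersetCard (l + 1) (univ : Finset (Fin k × ZMod m))).filter fun T =>
      ¬ ∀ i : Fin k, (i.val = 0 → 1 ≤ cnt i T) ∧ (i.val ≠ 0 → 2 ≤ cnt i T)) ⊆
      (univ : Finset (Fin k)).biUnion fun i =>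
        ((powersetCard (l + 1) (univ : Finset (Fin k × ZMod m))).filter fun T => cnt i T = 0) ∪
        ((powersetCard (l + 1) (univ : Finset (Fin k × ZMod m))).filter fun T => cnt i T = 1) := by
      intro T hT
      rw [mem_filter] at hT
      obtain ⟨hT, hbad⟩ := hT
      push Not at hbad
      obtain ⟨i, hi⟩ := hbad
      rw [mem_biUnion]
      refine ⟨i, mem_univ _, ?_⟩
      rw [mem_union, mem_filter, mem_filter]
      by_cases h0 : cnt i T = 0
      · exact Or.inl ⟨hT, h0⟩
      · right
        refine ⟨hT, ?_⟩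
        by_cases hi0 : i.val = 0
        · have := hi (fun _ => by omega)
          omega
        · have := hi (fun h => absurd h hi0)
          omega
    refine (card_le_card hsub).trans (card_biUnion_le.trans ?_)
    calc _ ≤ ∑ _i ∈ (univ : Finset (Fin k)),
          ((k * m - m).choose (l + 1) + m * (k * m - m).choose l) := by
          apply sum_le_sum
          intro i _
          exact (card_union_le _ _).trans (add_le_add (card_zero i) (card_one i))
      _ = _ := by rw [sum_const, card_univ, Fintype.card_fin, smul_eq_mul]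
  have h5 : ∑ T ∈ (powersetCard (l + 1) (univ : Finset (Fin k × ZMod m))).filter (fun T =>
      ¬ ∀ i : Fin k, (i.val = 0 → 1 ≤ cnt i T) ∧ (i.val ≠ 0 → 2 ≤ cnt i T)),
      ((l : ℤ) - cnt i₀ T) ≤
      l * (k * ((k * m - m).choose (l + 1) + m * (k * m - m).choose l)) := by
    calc _ ≤ ∑ T ∈ (powersetCard (l + 1) (univ : Finset (Fin k × ZMod m))).filter (fun T =>
          ¬ ∀ i : Fin k, (i.val = 0 → 1 ≤ cnt i T) ∧ (i.val ≠ 0 → 2 ≤ cnt i T)), (l : ℤ) := by
          apply sum_le_sum
          intro T _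
          have : (0 : ℤ) ≤ cnt i₀ T := by positivity
          linarith
      _ = l * (((powersetCard (l + 1) (univ : Finset (Fin k × ZMod m))).filter fun T =>
          ¬ ∀ i : Fin k, (i.val = 0 → 1 ≤ cnt i T) ∧ (i.val ≠ 0 → 2 ≤ cnt i T)).card : ℕ) := by
          rw [sum_const, nsmul_eq_mul, mul_comm]
      _ ≤ _ := by
          apply mul_le_mul_of_nonneg_left _ (by positivity)
          exact_mod_cast h4
  have h6 : ∑ T ∈ GM k m l, ((l : ℤ) - cnt i₀ T) =
      ∑ T ∈ (powersetCard (l + 1) (univ : Finset (Fin k × ZMod m))).filter (fun T =>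
      ∀ i : Fin k, (i.val = 0 → 1 ≤ cnt i T) ∧ (i.val ≠ 0 → 2 ≤ cnt i T)),
      ((l : ℤ) - cnt i₀ T) := by
    unfold GM
    congr!
  rw [h6]
  rw [h2] at h1
  linarith

/-- Averaging over the residues. -/
theorem exists_FM [NeZero m] [NeZero k] (i₀ : Fin k) : ∃ (r : ZMod k) (s : ZMod m),
    ∑ T ∈ GM k m l, ((l : ℤ) - cnt i₀ T) ≤
      (k * m : ℤ) * ∑ T ∈ FM k m l r s, ((l : ℤ) - cnt i₀ T) := by
  classical
  have hfib : ∀ q : ZMod k × ZMod m, (GM k m l).filter (fun T => (wt T, tot T) = q) =
      FM k m l q.1 q.2 := by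
    intro q
    ext T
    rw [mem_filter, mem_FM]
    unfold GM KM
    rw [mem_filter, mem_powersetCard, Prod.ext_iff]
    simp only [subset_univ, true_and]
    tauto
  have h1 : ∑ q : ZMod k × ZMod m, ∑ T ∈ FM k m l q.1 q.2, ((l : ℤ) - cnt i₀ T) =
      ∑ T ∈ GM k m l, ((l : ℤ) - cnt i₀ T) := by
    rw [← sum_fiberwise (GM k m l) (fun T => (wt T, tot T))]
    apply sum_congr rfl
    intro q _
    rw [hfib]
  by_contra hcon
  push Not at hcon
  have hpos : (0 : ℤ) < k * m := by
    have h1 := Nat.pos_of_ne_zero (NeZero.ne k)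
    have h2 := Nat.pos_of_ne_zero (NeZero.ne m)
    exact_mod_cast Nat.mul_pos h1 h2
  have h2 : ∑ q : ZMod k × ZMod m, (k * m : ℤ) * ∑ T ∈ FM k m l q.1 q.2, ((l : ℤ) - cnt i₀ T) <
      ∑ _q : ZMod k × ZMod m, ∑ T ∈ GM k m l, ((l : ℤ) - cnt i₀ T) :=
    sum_lt_sum_of_nonempty univ_nonempty (fun q _ => hcon q.1 q.2)
  rw [← mul_sum, h1, sum_const, card_univ, Fintype.card_prod, ZMod.card, ZMod.card,
    nsmul_eq_mul] at h2
  push_cast at h2
  exact lt_irrefl _ h2

/-- Lower bound for the best gain. -/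
theorem exists_gain [NeZero m] (hk : 2 ≤ k) : ∃ F : Finset (Finset (Fin k × ZMod m)),
    Good l F ∧ (l : ℤ) * (k * m).choose (l + 1) - m * (k * m - 1).choose l -
      l * (k * ((k * m - m).choose (l + 1) + m * (k * m - m).choose l)) ≤ (k * m : ℤ) * NN l F := by
  have : NeZero k := ⟨by omega⟩
  obtain ⟨r, s, h⟩ := exists_FM (k := k) (m := m) (l := l) (⟨0, by omega⟩ : Fin k)
  refine ⟨FM k m l r s, good_FM hk r s, ?_⟩
  have h1 := sum_GM (k := k) (m := m) (l := l) (⟨0, by omega⟩ : Fin k)
  have h2 := NN_FM (l := l) (⟨0, by omega⟩ : Fin k) rfl r s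
  have h3 : (k * m : ℤ) * ∑ T ∈ FM k m l r s, ((l : ℤ) - cnt (⟨0, by omega⟩ : Fin k) T) ≤
      (k * m : ℤ) * NN l (FM k m l r s) := mul_le_mul_of_nonneg_left h2 (by positivity)
  linarith

end Pool.Agent.Work.MP_0ea01d_co
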