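import Pool.Agent.Work.MP_0ea01d_co.Gadget

set_option autoImplicit false

namespace Pool.Agent.Work.MP_0ea01d_co

open Finset

section Parts

variable {k m : ℕ}

/-- Number of elements in part `i`. -/
def cnt (i : Fin k) (T : Finset (Fin k × ZMod m)) : ℕ := (T.filter fun p => p.1 = i).card

/-- Sum of the values in part `i`. -/
def sg (i : Fin k) (T : Finset (Fin k × ZMod m)) : ZMod m := ∑ p ∈ T.filter (fun p => p.1 = i), p.2

theorem cnt_insert (i : Fin k) {T : Finset (Fin k × ZMod m)} {u : Fin k × ZMod m} (hu : u ∉ T) :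
    cnt i (insert u T) = cnt i T + if u.1 = i then 1 else 0 := by
  unfold cnt
  rw [filter_insert]
  split_ifs with h
  · rw [card_insert_of_notMem (fun hm => hu (mem_of_mem_filter _ hm))]
  · rfl

theorem sg_insert (i : Fin k) {T : Finset (Fin k × ZMod m)} {u : Fin k × ZMod m} (hu : u ∉ T) :
    sg i (insert u T) = sg i T + if u.1 = i then u.2 else 0 := by
  unfold sg
  rw [filter_insert]
  split_ifs with h
  · rw [sum_insert (fun hm => hu (mem_of_mem_filter _ hm)), add_comm]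
  · rw [add_zero]

theorem cnt_erase (i : Fin k) {T : Finset (Fin k × ZMod m)} {u : Fin k × ZMod m} (hu : u ∈ T) :
    cnt i (T.erase u) + (if u.1 = i then 1 else 0) = cnt i T := by
  rw [← cnt_insert i (notMem_erase u T), insert_erase hu]

theorem sg_erase (i : Fin k) {T : Finset (Fin k × ZMod m)} {u : Fin k × ZMod m} (hu : u ∈ T) :
    sg i (T.erase u) + (if u.1 = i then u.2 else 0) = sg i T := by
  rw [← sg_insert i (notMem_erase u T), insert_erase hu]

/-- Exchange lemma. -/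
theorem exch {T T' : Finset (Fin k × ZMod m)} {v : Fin k × ZMod m} (hv : v ∈ T)
    (hc : T.card = T'.card) (hsub : T.erase v ⊆ T') :
    ∃ u, u ∉ T.erase v ∧ insert u (T.erase v) = T' ∧
      (∀ i, cnt i T' + (if v.1 = i then 1 else 0) = cnt i T + (if u.1 = i then 1 else 0)) ∧
      (∀ i, sg i T' + (if v.1 = i then v.2 else 0) = sg i T + (if u.1 = i then u.2 else 0)) := by
  have h1 : (T.erase v).card + 1 = T'.card := by
    rw [card_erase_add_one hv, hc]
  obtain ⟨u, hu, rfl⟩ := exists_eq_insert_iff.2 ⟨hsub, h1⟩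
  refine ⟨u, hu, rfl, fun i => ?_, fun i => ?_⟩
  · rw [cnt_insert i hu, ← cnt_erase i hv]
    omega
  · rw [sg_insert i hu, ← sg_erase i hv]
    ring

theorem cnt_pos {T : Finset (Fin k × ZMod m)} {v : Fin k × ZMod m} (hv : v ∈ T) :
    0 < cnt v.1 T :=
  card_pos.2 ⟨v, mem_filter.2 ⟨hv, rfl⟩⟩

theorem exists_of_cnt {i : Fin k} {T : Finset (Fin k × ZMod m)} (h : 0 < cnt i T) :
    ∃ v ∈ T, v.1 = i := by
  obtain ⟨v, hv⟩ := card_pos.1 h
  exact ⟨v, (mem_filter.1 hv).1, (mem_filter.1 hv).2⟩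

theorem exists_two_of_cnt {i : Fin k} {T : Finset (Fin k × ZMod m)} (h : 1 < cnt i T) :
    ∃ v ∈ T, ∃ v' ∈ T, v.1 = i ∧ v'.1 = i ∧ v.2 ≠ v'.2 := by
  obtain ⟨v, hv, v', hv', hne⟩ := one_lt_card.1 h
  rw [mem_filter] at hv hv'
  refine ⟨v, hv.1, v', hv'.1, hv.2, hv'.2, fun h2 => hne ?_⟩
  exact Prod.ext (by rw [hv.2, hv'.2]) h2

/-- The set with prescribed slices. -/
def slices [NeZero m] (P : Fin k → Finset (ZMod m)) : Finset (Fin k × ZMod m) :=
  univ.filter fun p => p.2 ∈ P p.1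

theorem cnt_slices [NeZero m] (P : Fin k → Finset (ZMod m)) (i : Fin k) :
    cnt i (slices P) = (P i).card := by
  unfold cnt slices
  rw [filter_filter]
  have : (univ.filter fun p : Fin k × ZMod m => p.2 ∈ P p.1 ∧ p.1 = i) =
      (P i).map ⟨fun x => (i, x), fun x y h => (Prod.mk.inj h).2⟩ := by
    ext p
    simp only [mem_filter, mem_univ, true_and, mem_map, Function.Embedding.coeFn_mk]
    constructor
    · rintro ⟨h1, h2⟩
      exact ⟨p.2, by rw [← h2]; exact h1, Prod.ext h2.symm rfl⟩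
    · rintro ⟨x, hx, rfl⟩
      exact ⟨hx, rfl⟩
  rw [this, card_map]

theorem slices_inj [NeZero m] : Function.Injective (slices (k := k) (m := m)) := by
  intro P Q h
  funext i
  ext x
  have h1 : (i, x) ∈ slices P ↔ (i, x) ∈ slices Q := by rw [h]
  simpa [slices] using h1

theorem card_types [NeZero m] (a : Fin k → ℕ) :
    ∏ i, m.choose (a i) ≤
      (univ.filter fun T : Finset (Fin k × ZMod m) => ∀ i, cnt i T = a i).card := by
  have h1 : (Fintype.piFinset fun i => powersetCard (a i) (univ : Finset (ZMod m))).card =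
      ∏ i, m.choose (a i) := by
    rw [Fintype.card_piFinset]
    apply prod_congr rfl
    intro i _
    rw [card_powersetCard, card_univ, ZMod.card]
  rw [← h1, ← card_image_of_injective _ (slices_inj (k := k) (m := m))]
  apply card_le_card
  intro T hT
  obtain ⟨P, hP, rfl⟩ := mem_image.1 hT
  rw [mem_filter]
  refine ⟨mem_univ _, fun i => ?_⟩
  rw [cnt_slices]
  exact (mem_powersetCard.1 (Fintype.mem_piFinset.1 hP i)).2

end Parts

section Three

variable {m : ℕ}

/-- The label of a `4`-set of one of the three types. -/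
def KT (s : ZMod m) (T : Finset (Fin 3 × ZMod m)) : Prop :=
  (cnt 0 T = 0 ∧ cnt 1 T = 3 ∧ cnt 2 T = 1 ∧ sg 1 T = s) ∨
  (cnt 0 T = 1 ∧ cnt 1 T = 0 ∧ cnt 2 T = 3 ∧ sg 2 T = s) ∨
  (cnt 0 T = 2 ∧ cnt 1 T = 1 ∧ cnt 2 T = 1 ∧ sg 0 T - sg 2 T = s)

theorem card_eq_cnt (T : Finset (Fin 3 × ZMod m)) : T.card = cnt 0 T + cnt 1 T + cnt 2 T := by
  have h := card_eq_sum_card_fiberwise (f := fun p : Fin 3 × ZMod m => p.1) (s := T)
    (t := univ) (fun _ _ => mem_univ _)
  rw [h, Fin.sum_univ_three]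
  rfl

open Classical in
/-- The family. -/
noncomputable def F3 [NeZero m] (s : ZMod m) : Finset (Finset (Fin 3 × ZMod m)) :=
  univ.filter fun T => KT s T

theorem mem_F3 [NeZero m] {s : ZMod m} {T : Finset (Fin 3 × ZMod m)} : T ∈ F3 s ↔ KT s T := by
  simp [F3]

theorem KT.card {s : ZMod m} {T : Finset (Fin 3 × ZMod m)} (h : KT s T) : T.card = 4 := by
  rw [card_eq_cnt]
  rcases h with h | h | h <;> omega

theorem fin3 (i : Fin 3) : i = 0 ∨ i = 1 ∨ i = 2 := by
  fin_cases i <;> simp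

/-- Private subsets. -/
theorem KT.unique {s : ZMod m} {T T' : Finset (Fin 3 × ZMod m)} {v : Fin 3 × ZMod m}
    (h : KT s T) (h' : KT s T') (hv : v ∈ T) (hsub : T.erase v ⊆ T')
    (hsp : ¬ ((cnt 0 T = 0 ∧ v.1 = 2) ∨ (cnt 1 T = 0 ∧ v.1 = 0) ∨ (cnt 0 T = 2 ∧ v.1 = 1))) :
    T' = T := by
  obtain ⟨u, hu, rfl, hc, hs⟩ := exch hv (by rw [h.card, h'.card]) hsub
  have c0 := hc 0
  have c1 := hc 1
  have c2 := hc 2
  have s0 := hs 0
  have s1 := hs 1
  have s2 := hs 2
  have hpos := cnt_pos hv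
  have huv : u = v := by
    have hkey : u.1 = v.1 ∧ u.2 = v.2 := by
      rcases fin3 v.1 with hv1 | hv1 | hv1 <;> rcases fin3 u.1 with hu1 | hu1 | hu1 <;>
        rw [hv1] at hpos <;>
        simp [hv1, hu1] at c0 c1 c2 s0 s1 s2 hsp ⊢ <;>
        rcases h with h | h | h <;> rcases h' with h' | h' | h' <;> try omega
      all_goals
        obtain ⟨g0, g1, g2, g3⟩ := h
        obtain ⟨g0', g1', g2', g3'⟩ := h'
        first
        | linear_combination g3' - g3 - s0 + s2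
        | linear_combination g3' - g3 - s1
        | linear_combination g3' - g3 - s2
        | linear_combination g3 - g3' + s0 - s2
    exact Prod.ext hkey.1 hkey.2
  rw [huv, insert_erase hv]

theorem KT.of_closed {s : ZMod m} {T : Finset (Fin 3 × ZMod m)} (hT : T.card = 4)
    (hall : ∀ v ∈ T, ∃ T', KT s T' ∧ T.erase v ⊆ T') : KT s T := by
  have hcnt := card_eq_cnt T
  rw [hT] at hcnt
  -- information from an element of a given part
  have hinfo : ∀ v ∈ T, ∃ (u : Fin 3 × ZMod m) (T' : Finset (Fin 3 × ZMod m)), KT s T' ∧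
      (∀ i, cnt i T' + (if v.1 = i then 1 else 0) = cnt i T + (if u.1 = i then 1 else 0)) ∧
      (∀ i, sg i T' + (if v.1 = i then v.2 else 0) = sg i T + (if u.1 = i then u.2 else 0)) := by
    intro v hv
    obtain ⟨T', hT', hsub⟩ := hall v hv
    obtain ⟨u, _, _, h1, h2⟩ := exch hv (by rw [hT, hT'.card]) hsub
    exact ⟨u, T', hT', h1, h2⟩
  -- the possible types after removing an element of part `0`
  have hA0 : ∀ v ∈ T, v.1 = 0 →
      (cnt 0 T = 1 ∧ cnt 1 T = 0 ∧ cnt 2 T = 3 ∧ sg 2 T = s) ∨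
      (cnt 0 T = 2 ∧ cnt 1 T = 1 ∧ cnt 2 T = 1) ∨ (cnt 0 T = 2 ∧ cnt 1 T = 0 ∧ cnt 2 T = 2) ∨
      (cnt 0 T = 1 ∧ cnt 1 T = 2 ∧ cnt 2 T = 1) ∨ (cnt 0 T = 1 ∧ cnt 1 T = 3 ∧ cnt 2 T = 0) ∨
      (cnt 0 T = 3 ∧ cnt 1 T = 0 ∧ cnt 2 T = 1) ∨ (cnt 0 T = 3 ∧ cnt 1 T = 1 ∧ cnt 2 T = 0) := by
    intro v hv hv1
    obtain ⟨u, T', h', hc, hs⟩ := hinfo v hv
    have hpos := cnt_pos hv
    rw [hv1] at hpos
    have c0 := hc 0
    have c1 := hc 1
    have c2 := hc 2
    have s2 := hs 2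
    rcases fin3 u.1 with hu1 | hu1 | hu1 <;>
      simp [hv1, hu1] at c0 c1 c2 s2 <;>
      rcases h' with ⟨g0, g1, g2, g3⟩ | ⟨g0, g1, g2, g3⟩ | ⟨g0, g1, g2, g3⟩ <;>
      first
      | (exfalso; omega)
      | exact Or.inl ⟨by omega, by omega, by omega, by rw [← s2]; exact g3⟩
      | exact Or.inr (by omega)
  have hA1 : ∀ v ∈ T, v.1 = 1 →
      (cnt 0 T = 2 ∧ cnt 1 T = 1 ∧ cnt 2 T = 1 ∧ sg 0 T - sg 2 T = s) ∨
      (cnt 0 T = 0 ∧ cnt 1 T = 4 ∧ cnt 2 T = 0 ∧ sg 1 T - v.2 = s) ∨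
      (cnt 0 T = 0 ∧ cnt 1 T = 3 ∧ cnt 2 T = 1) ∨ (cnt 0 T = 0 ∧ cnt 1 T = 1 ∧ cnt 2 T = 3) ∨
      (cnt 0 T = 1 ∧ cnt 1 T = 1 ∧ cnt 2 T = 2) ∨ (cnt 0 T = 1 ∧ cnt 1 T = 2 ∧ cnt 2 T = 1) ∨
      (cnt 0 T = 2 ∧ cnt 1 T = 2 ∧ cnt 2 T = 0) := by
    intro v hv hv1
    obtain ⟨u, T', h', hc, hs⟩ := hinfo v hv
    have hpos := cnt_pos hv
    rw [hv1] at hpos
    have c0 := hc 0
    have c1 := hc 1
    have c2 := hc 2
    have s0 := hs 0
    have s1 := hs 1
    have s2 := hs 2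
    rcases fin3 u.1 with hu1 | hu1 | hu1 <;>
      simp [hv1, hu1] at c0 c1 c2 s0 s1 s2 <;>
      rcases h' with ⟨g0, g1, g2, g3⟩ | ⟨g0, g1, g2, g3⟩ | ⟨g0, g1, g2, g3⟩ <;>
      first
      | (exfalso; omega)
      | exact Or.inl ⟨by omega, by omega, by omega, by rw [← s0, ← s2]; exact g3⟩
      | exact Or.inr (Or.inl ⟨by omega, by omega, by omega, by rw [← s1, ← g3]; ring⟩)
      | exact Or.inr (Or.inr (by omega))
  have hA2 : ∀ v ∈ T, v.1 = 2 →
      (cnt 0 T = 0 ∧ cnt 1 T = 3 ∧ cnt 2 T = 1 ∧ sg 1 T = s) ∨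
      (cnt 0 T = 2 ∧ cnt 1 T = 0 ∧ cnt 2 T = 2 ∧ sg 0 T - sg 2 T + v.2 = s) ∨
      (cnt 0 T = 0 ∧ cnt 1 T = 0 ∧ cnt 2 T = 4 ∧ sg 2 T - v.2 = s) ∨
      (cnt 0 T = 0 ∧ cnt 1 T = 2 ∧ cnt 2 T = 2) ∨ (cnt 0 T = 1 ∧ cnt 1 T = 0 ∧ cnt 2 T = 3) ∨
      (cnt 0 T = 1 ∧ cnt 1 T = 1 ∧ cnt 2 T = 2) ∨ (cnt 0 T = 2 ∧ cnt 1 T = 1 ∧ cnt 2 T = 1) := by
    intro v hv hv1
    obtain ⟨u, T', h', hc, hs⟩ := hinfo v hv
    have hpos := cnt_pos hv
    rw [hv1] at hpos
    have c0 := hc 0
    have c1 := hc 1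
    have c2 := hc 2
    have s0 := hs 0
    have s1 := hs 1
    have s2 := hs 2
    rcases fin3 u.1 with hu1 | hu1 | hu1 <;>
      simp [hv1, hu1] at c0 c1 c2 s0 s1 s2 <;>
      rcases h' with ⟨g0, g1, g2, g3⟩ | ⟨g0, g1, g2, g3⟩ | ⟨g0, g1, g2, g3⟩ <;>
      first
      | (exfalso; omega)
      | exact Or.inl ⟨by omega, by omega, by omega, by rw [← s1]; exact g3⟩
      | exact Or.inr (Or.inl ⟨by omega, by omega, by omega, by rw [← s0, ← s2, ← g3]; ring⟩)
      | exact Or.inr (Or.inr (Or.inl ⟨by omega, by omega, by omega, by rw [← s2, ← g3]; ring⟩))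
      | exact Or.inr (Or.inr (Or.inr (by omega)))
  by_cases h0 : 0 < cnt 0 T
  · obtain ⟨v0, hv0, hv01⟩ := exists_of_cnt h0
    have a0 := hA0 v0 hv0 hv01
    by_cases h1 : 0 < cnt 1 T
    · obtain ⟨v1, hv1, hv11⟩ := exists_of_cnt h1
      have a1 := hA1 v1 hv1 hv11
      rcases a1 with a1 | a1
      · exact Or.inr (Or.inr a1)
      · exfalso
        by_cases h2 : 0 < cnt 2 T
        · obtain ⟨v2, hv2, hv21⟩ := exists_of_cnt h2
          have a2 := hA2 v2 hv2 hv21
          omega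
        · omega
    · by_cases h2 : 1 < cnt 2 T
      · obtain ⟨v, hv, v', hv', e1, e2, hne⟩ := exists_two_of_cnt h2
        rcases a0 with a0 | a0
        · exact Or.inr (Or.inl a0)
        · exfalso
          have b := hA2 v hv e1
          have b' := hA2 v' hv' e2
          rcases b with b | b | b | b
          · omega
          · rcases b' with b' | b' | b' | b'
            · omega
            · apply hne
              linear_combination b.2.2.2 - b'.2.2.2
            · omega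
            · omega
          · omega
          · omega
      · exfalso
        by_cases h2' : 0 < cnt 2 T
        · obtain ⟨v2, hv2, hv21⟩ := exists_of_cnt h2'
          have a2 := hA2 v2 hv2 hv21
          omega
        · omega
  · by_cases h1 : 1 < cnt 1 T
    · obtain ⟨v, hv, v', hv', e1, e2, hne⟩ := exists_two_of_cnt h1
      by_cases h2 : 0 < cnt 2 T
      · obtain ⟨v2, hv2, hv21⟩ := exists_of_cnt h2
        rcases hA2 v2 hv2 hv21 with a2 | a2
        · exact Or.inl a2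
        · exfalso
          have b := hA1 v hv e1
          omega
      · exfalso
        have b := hA1 v hv e1
        have b' := hA1 v' hv' e2
        rcases b with b | b | b
        · omega
        · rcases b' with b' | b' | b'
          · omega
          · apply hne
            linear_combination b'.2.2.2 - b.2.2.2
          · omega
        · omega
    · exfalso
      have h2 : 1 < cnt 2 T := by omega
      obtain ⟨v, hv, v', hv', e1, e2, hne⟩ := exists_two_of_cnt h2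
      have b := hA2 v hv e1
      have b' := hA2 v' hv' e2
      by_cases h1' : 0 < cnt 1 T
      · obtain ⟨v1, hv1, hv11⟩ := exists_of_cnt h1'
        have a1 := hA1 v1 hv1 hv11
        omega
      · rcases b with b | b | b | b
        · omega
        · omega
        · rcases b' with b' | b' | b' | b'
          · omega
          · omega
          · apply hne
            linear_combination b'.2.2.2 - b.2.2.2
          · omega
        · omega

theorem good_F3 [NeZero m] (s : ZMod m) : Good 3 (F3 s) := by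
  refine ⟨?_, ?_, ?_⟩
  · intro T hT
    exact (mem_F3.1 hT).card
  · intro T hT
    have h := mem_F3.1 hT
    -- choose a suitable element
    obtain ⟨v, hv, hsp⟩ : ∃ v ∈ T, ¬ ((cnt 0 T = 0 ∧ v.1 = 2) ∨ (cnt 1 T = 0 ∧ v.1 = 0) ∨
        (cnt 0 T = 2 ∧ v.1 = 1)) := by
      rcases h with h | h | h
      · obtain ⟨v, hv, hv1⟩ := exists_of_cnt (i := 1) (T := T) (by omega)
        refine ⟨v, hv, ?_⟩
        rw [hv1]
        simp
        omega
      · obtain ⟨v, hv, hv1⟩ := exists_of_cnt (i := 2) (T := T) (by omega)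
        refine ⟨v, hv, ?_⟩
        rw [hv1]
        simp
        omega
      · obtain ⟨v, hv, hv1⟩ := exists_of_cnt (i := 0) (T := T) (by omega)
        refine ⟨v, hv, ?_⟩
        rw [hv1]
        simp
        omega
    refine ⟨T.erase v, erase_subset _ _, ?_, ?_⟩
    · rw [card_erase_of_mem hv, h.card]
    · intro T' hT' hsub
      exact h.unique (mem_F3.1 hT') hv hsub hsp
  · intro T hT hall
    rw [mem_F3]
    apply KT.of_closed hT
    intro v hv
    obtain ⟨T', hT', hsub⟩ := hall (T.erase v) (erase_subset _ _) (by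
      rw [card_erase_of_mem hv, hT])
    exact ⟨T', mem_F3.1 hT', hsub⟩

end Three

end Pool.Agent.Work.MP_0ea01d_co
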