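import Pool.Agent.Work.MP_0ea01d_co.Three

set_option autoImplicit false

namespace Pool.Agent.Work.MP_0ea01d_co

open Finset

variable {m : ℕ}

/-- Gain of a good family in which every member has at least `q` private subsets. -/
theorem NN_ge {V : Type} [DecidableEq V] {l : ℕ} (F : Finset (Finset V)) (q : Finset V → ℕ)
    (hq : ∀ T ∈ F, ∃ Q ⊆ T, q T ≤ Q.card ∧ ∀ v ∈ Q, ∀ T' ∈ F, T.erase v ⊆ T' → T' = T)
    (hF : ∀ T ∈ F, T.card = l + 1) :
    ((∑ T ∈ F, q T : ℕ) : ℤ) - F.card ≤ NN l F := by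
  have h1 := card_Gr_ge (l := l) F
  have h2 : ∑ T ∈ F, q T ≤ ∑ T ∈ F,
      ((powersetCard l T).filter fun Y => ∀ T' ∈ F, Y ⊆ T' → T' = T).card := by
    apply sum_le_sum
    intro T hT
    obtain ⟨Q, hQT, hQc, hQ⟩ := hq T hT
    refine hQc.trans ?_
    apply card_le_card_of_injOn (fun v => T.erase v)
    · intro v hv
      rw [mem_coe] at hv
      rw [mem_coe, mem_filter, mem_powersetCard]
      refine ⟨⟨erase_subset _ _, ?_⟩, hQ v hv⟩
      rw [card_erase_of_mem (hQT hv), hF T hT]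
      rfl
    · intro v hv v' hv' h
      rw [mem_coe] at hv hv'
      by_contra hne
      have h3 : v ∈ T.erase v' := mem_erase.2 ⟨hne, hQT hv⟩
      have h4 : T.erase v = T.erase v' := h
      rw [← h4] at h3
      exact (mem_erase.1 h3).1 rfl
  unfold NN
  have h3 : ((∑ T ∈ F, q T : ℕ) : ℤ) ≤ (Gr l F).card := by exact_mod_cast h2.trans h1
  linarith

theorem NN_F3 [NeZero m] (s : ZMod m) : 2 * ((F3 s).card : ℤ) ≤ NN 3 (F3 s) := by
  have h := NN_ge (l := 3) (F3 s) (fun _ => 3) (by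
    intro T hT
    have hK := mem_F3.1 hT
    -- the special part
    have key : ∀ i : Fin 3, cnt i T = 1 → (∀ v ∈ T, v.1 ≠ i → ¬ ((cnt 0 T = 0 ∧ v.1 = 2) ∨
        (cnt 1 T = 0 ∧ v.1 = 0) ∨ (cnt 0 T = 2 ∧ v.1 = 1))) →
        ∃ Q ⊆ T, 3 ≤ Q.card ∧ ∀ v ∈ Q, ∀ T' ∈ F3 s, T.erase v ⊆ T' → T' = T := by
      intro i hi hv
      have h1 := card_filter_add_card_filter_not (s := T) (fun v : Fin 3 × ZMod m => v.1 = i)
      have h2 : (T.filter fun v => v.1 = i).card = 1 := hi
      refine ⟨T.filter fun v => ¬ v.1 = i, filter_subset _ _, ?_, ?_⟩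
      · rw [hK.card] at h1
        omega
      · intro v hv'
        rw [mem_filter] at hv'
        exact fun T' hT' hsub => hK.unique (mem_F3.1 hT') hv'.1 hsub (hv v hv'.1 hv'.2)
    rcases hK with h | h | h
    · apply key 2 h.2.2.1
      intro v _ hne
      omega
    · apply key 0 h.1
      intro v _ hne
      omega
    · apply key 1 h.2.1
      intro v _ hne
      omega) (fun T hT => (mem_F3.1 hT).card)
  rw [sum_const, smul_eq_mul] at h
  push_cast at h
  linarith

open Classical in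
/-- The `4`-sets of one of the three types. -/
noncomputable def A3 (m : ℕ) [NeZero m] : Finset (Finset (Fin 3 × ZMod m)) :=
  (univ.filter fun T => ∀ i, cnt i T = (![0, 3, 1] : Fin 3 → ℕ) i) ∪
  ((univ.filter fun T => ∀ i, cnt i T = (![1, 0, 3] : Fin 3 → ℕ) i) ∪
  (univ.filter fun T => ∀ i, cnt i T = (![2, 1, 1] : Fin 3 → ℕ) i))

theorem card_A3 [NeZero m] : m * (2 * m.choose 3 + m * m.choose 2) ≤ (A3 m).card := by
  classical
  have h1 := card_types (m := m) (![0, 3, 1] : Fin 3 → ℕ)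
  have h2 := card_types (m := m) (![1, 0, 3] : Fin 3 → ℕ)
  have h3 := card_types (m := m) (![2, 1, 1] : Fin 3 → ℕ)
  rw [Fin.prod_univ_three] at h1 h2 h3
  simp only [Matrix.cons_val_zero, Matrix.cons_val_one, Matrix.cons_val, Nat.choose_zero_right,
    Nat.choose_one_right] at h1 h2 h3
  unfold A3
  rw [card_union_of_disjoint, card_union_of_disjoint]
  · calc m * (2 * m.choose 3 + m * m.choose 2) = 1 * m.choose 3 * m + (m * 1 * m.choose 3 +
        m.choose 2 * m * m) := by ring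
      _ ≤ _ := by
        refine add_le_add ?_ (add_le_add ?_ ?_)
        · convert h1 using 2
        · convert h2 using 2
        · convert h3 using 2
  · rw [disjoint_left]
    intro T hT hT'
    rw [mem_filter] at hT hT'
    have e1 := hT.2 0
    have e2 := hT'.2 0
    simp at e1 e2
    omega
  · rw [disjoint_left]
    intro T hT hT'
    rw [mem_union, mem_filter, mem_filter] at hT'
    rw [mem_filter] at hT
    have e1 := hT.2 0
    simp at e1
    rcases hT' with hT' | hT'
    · have e2 := hT'.2 0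
      simp at e2
      omega
    · have e2 := hT'.2 0
      simp at e2
      omega

/-- Averaging over `s`. -/
theorem exists_F3 [NeZero m] : ∃ s : ZMod m, 2 * m.choose 3 + m * m.choose 2 ≤ (F3 s).card := by
  classical
  let f : Finset (Fin 3 × ZMod m) → ZMod m := fun T =>
    if cnt 0 T = 0 then sg 1 T else if cnt 0 T = 1 then sg 2 T else sg 0 T - sg 2 T
  obtain ⟨s, _, hs⟩ := exists_le_card_fiber_of_mul_le_card_of_maps_to (s := A3 m)
    (t := (univ : Finset (ZMod m))) (f := f) (n := 2 * m.choose 3 + m * m.choose 2)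
    (fun _ _ => mem_univ _) univ_nonempty (by rw [card_univ, ZMod.card]; exact card_A3)
  refine ⟨s, hs.trans ?_⟩
  apply card_le_card
  intro T hT
  rw [mem_filter] at hT
  obtain ⟨hT, hfs⟩ := hT
  rw [mem_F3]
  unfold A3 at hT
  rw [mem_union, mem_union, mem_filter, mem_filter, mem_filter] at hT
  rcases hT with ⟨_, hT⟩ | ⟨_, hT⟩ | ⟨_, hT⟩
  · have e0 := hT 0
    have e1 := hT 1
    have e2 := hT 2
    simp at e0 e1 e2
    left
    refine ⟨e0, e1, e2, ?_⟩
    simp only [f] at hfs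
    rwa [if_pos e0] at hfs
  · have e0 := hT 0
    have e1 := hT 1
    have e2 := hT 2
    simp at e0 e1 e2
    right; left
    refine ⟨e0, e1, e2, ?_⟩
    simp only [f] at hfs
    rwa [if_neg (by omega), if_pos e0] at hfs
  · have e0 := hT 0
    have e1 := hT 1
    have e2 := hT 2
    simp at e0 e1 e2
    right; right
    refine ⟨e0, e1, e2, ?_⟩
    simp only [f] at hfs
    rwa [if_neg (by omega), if_neg (by omega)] at hfs

theorem six_choose (n : ℕ) : 6 * (n.choose 3 : ℤ) = n * (n - 1) * (n - 2) := by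
  induction n with
  | zero => simp
  | succ n ih =>
    have e : (n + 1).choose 3 = n.choose 2 + n.choose 3 := Nat.choose_succ_succ' n 2
    have e2 : 2 * (n.choose 2 : ℤ) = n * (n - 1) := by
      clear ih e
      induction n with
      | zero => simp
      | succ n ih =>
        have e : (n + 1).choose 2 = n + n.choose 2 := by
          rw [Nat.choose_succ_succ' n 1, Nat.choose_one_right]
        rw [e]
        push_cast
        linarith
    rw [e]
    push_cast
    nlinarith

theorem two_choose' (n : ℕ) : 2 * (n.choose 2 : ℤ) = n * (n - 1) := by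
  induction n with
  | zero => simp
  | succ n ih =>
    have e : (n + 1).choose 2 = n + n.choose 2 := by
      rw [Nat.choose_succ_succ' n 1, Nat.choose_one_right]
    rw [e]
    push_cast
    linarith

/-- All `x` from `0` to the gain. -/
theorem three_interval (n : ℕ) (hn : 5 ≤ n) (x : ℤ) (h0 : 0 ≤ x)
    (h1 : 27 * x + 135 * n ^ 2 ≤ 10 * n.choose 3) : ∃ t ∈ S n 3, (t : ℤ) = n.choose 3 - x := by
  have hc := six_choose n
  have hn5 : (5 : ℤ) ≤ n := by exact_mod_cast hn
  have hn81 : 81 ≤ n := by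
    by_contra hcon
    push Not at hcon
    have hn1 : (n : ℤ) ≤ 80 := by omega
    nlinarith
  obtain ⟨m, hm⟩ : ∃ m, m = (n - 24) / 3 := ⟨_, rfl⟩
  have hm1 : 3 * m + 24 ≤ n := by omega
  have hm2 : n ≤ 3 * m + 26 := by omega
  have : NeZero m := ⟨by omega⟩
  obtain ⟨s, hs⟩ := exists_F3 (m := m)
  have hN := NN_F3 s
  have c3 := six_choose m
  have c2 := two_choose' m
  have hs' : 2 * (m.choose 3 : ℤ) + m * m.choose 2 ≤ (F3 s).card := by exact_mod_cast hs
  have hm18 : (18 : ℤ) ≤ m := by omega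
  have hm1' : 3 * (m : ℤ) + 24 ≤ n := by exact_mod_cast hm1
  have hm2' : (n : ℤ) ≤ 3 * m + 26 := by exact_mod_cast hm2
  have hN3 : 5 * (m : ℤ) ^ 3 - 9 * m ^ 2 + 4 * m ≤ 3 * NN 3 (F3 s) := by
    have e1 : 6 * (2 * (m.choose 3 : ℤ) + m * m.choose 2) = 5 * (m : ℤ) ^ 3 - 9 * m ^ 2 + 4 * m := by
      linear_combination 2 * c3 + 3 * m * c2
    linarith
  have hbig : (14 : ℤ) ≤ NN 3 (F3 s) := by
    nlinarith [mul_nonneg (sub_nonneg.2 hm18) (sub_nonneg.2 hm18)]
  have hclq : -NN 3 (clq 3) = 14 := by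
    rw [NN_clq]
    norm_num [Nat.choose]
  refine interval (le_refl 3) (F3 s) (good_F3 s) ?_ (by rw [hclq]; exact hbig) x h0 ?_
  · rw [Fintype.card_prod, Fintype.card_fin, ZMod.card]
    omega
  · -- the arithmetic
    obtain ⟨d, hd⟩ : ∃ d : ℤ, (n : ℤ) = 3 * m + 24 + d := ⟨n - 3 * m - 24, by ring⟩
    have hd0 : 0 ≤ d := by linarith
    have hd2 : d ≤ 2 := by linarith
    have h27 : 27 * x ≤ 10 * (n.choose 3 : ℤ) - 135 * (n : ℤ) ^ 2 := by linarith
    have h3 : 30 * (n.choose 3 : ℤ) = 5 * (n * (n - 1) * (n - 2)) := by linarith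
    have hgoal : 81 * x ≤ 81 * NN 3 (F3 s) := by
      have e1 : 81 * x ≤ 5 * (n * (n - 1) * (n - 2)) - 405 * (n : ℤ) ^ 2 := by linarith
      have e2 : 27 * (5 * (m : ℤ) ^ 3 - 9 * m ^ 2 + 4 * m) ≤ 81 * NN 3 (F3 s) := by linarith
      have e3 : 5 * ((n : ℤ) * (n - 1) * (n - 2)) - 405 * (n : ℤ) ^ 2 ≤
          27 * (5 * (m : ℤ) ^ 3 - 9 * m ^ 2 + 4 * m) := by
        rw [hd]
        interval_cases d <;> nlinarith [mul_nonneg (sub_nonneg.2 hm18) (sub_nonneg.2 hm18)]
      linarith
    linarith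

end Pool.Agent.Work.MP_0ea01d_co
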