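import Pool.Agent.Work.MP_0ea01d_co.Graph

set_option autoImplicit false

namespace Pool.Agent.Work.MP_0ea01d_co

open Finset Classical

variable {n : ℕ}

theorem addEdge_of_rel {r r' : Fin n → Fin n → Prop} {p q : Fin n} (hpq : p ≠ q) (h1 : ¬ r p q)
    (h2 : ¬ r q p) (h : ∀ x y, r' x y ↔ r x y ∨ (x = p ∧ y = q)) :
    AddEdge (SimpleGraph.fromRel r) (SimpleGraph.fromRel r') p q := by
  refine ⟨hpq, ?_, ?_⟩
  · rw [SimpleGraph.fromRel_adj]
    tauto
  · intro x y
    rw [SimpleGraph.fromRel_adj, SimpleGraph.fromRel_adj, h, h]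
    constructor
    · tauto
    · rintro (h | ⟨rfl, rfl⟩ | ⟨rfl, rfl⟩)
      · tauto
      · exact ⟨hpq, Or.inl (Or.inr ⟨rfl, rfl⟩)⟩
      · exact ⟨hpq.symm, Or.inr (Or.inr ⟨rfl, rfl⟩)⟩

theorem Ind_bot {a b c s : ℕ} (h0 : ∀ x y : Fin n, ¬ HE n a b c s x y) (k : ℕ) :
    (Ind (H n a b c s) k).card = n.choose k := by
  have : Ind (H n a b c s) k = univ.powersetCard k := by
    ext T
    rw [mem_Ind]
    simp only [mem_powersetCard, subset_univ, true_and, and_iff_left_iff_imp]
    intro _ u _ v _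
    simp only [H, SimpleGraph.fromRel_adj]
    rintro ⟨_, h | h⟩
    · exact h0 _ _ h
    · exact h0 _ _ h
  rw [this, card_powersetCard, card_univ, Fintype.card_fin]

theorem HE_a {a : ℕ} (x y : Fin n) : HE n a 0 0 0 x y ↔ (x.val = 0 ∧ 1 ≤ y.val ∧ y.val ≤ a) := by
  unfold HE
  constructor
  · rintro (h | h | h)
    · exact h
    · omega
    · omega
  · exact Or.inl

theorem HE_ab {a b c : ℕ} (x y : Fin n) : HE n a b c 0 x y ↔ ((x.val = 0 ∧ 1 ≤ y.val ∧ y.val ≤ a) ∨
    (x.val = n - 1 ∧ a + 1 ≤ y.val + c ∧ y.val + c ≤ a + b)) := by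
  unfold HE
  constructor
  · rintro (h | h | h)
    · exact Or.inl h
    · exact Or.inr h
    · omega
  · rintro (h | h)
    · exact Or.inl h
    · exact Or.inr (Or.inl h)

theorem step1 {a : ℕ} (h : 1 + a < n) :
    AddEdge (H n a 0 0 0) (H n (a + 1) 0 0 0) ⟨0, by omega⟩ ⟨1 + a, h⟩ := by
  apply addEdge_of_rel
  · intro hh
    have := congrArg Fin.val hh
    simp only at this
    omega
  · rw [HE_a]
    simp
  · rw [HE_a]
    simp
  · intro x y
    rw [HE_a, HE_a]
    simp only [Fin.ext_iff]
    constructor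
    · intro h
      omega
    · rintro (h | h)
      · omega
      · omega

theorem step1U {a : ℕ} (h : 1 + a < n) :
    U (H n a 0 0 0) ⟨0, by omega⟩ ⟨1 + a, h⟩ = a := by
  have h2 := card_interval (n := n) 1 (1 + a) (by omega)
  have e : 1 + a - 1 = a := by omega
  rw [e] at h2
  unfold U
  conv_rhs => rw [← h2]
  congr 1
  ext w
  simp only [mem_filter, mem_univ, true_and, H, SimpleGraph.fromRel_adj, HE_a, Fin.ext_iff, ne_eq]
  constructor
  · rintro (⟨_, h | h⟩ | ⟨_, h | h⟩) <;> omega
  · intro h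
    exact Or.inl ⟨by omega, Or.inl (by omega)⟩

theorem step2 {a b c : ℕ} (hc : c ≤ a) (h : a + b + 1 - c < n - 1) :
    AddEdge (H n a b c 0) (H n a (b + 1) c 0) ⟨n - 1, by omega⟩ ⟨a + b + 1 - c, by omega⟩ := by
  apply addEdge_of_rel
  · intro hh
    have := congrArg Fin.val hh
    simp only at this
    omega
  · rw [HE_ab]
    simp only
    omega
  · rw [HE_ab]
    simp only
    omega
  · intro x y
    rw [HE_ab, HE_ab]
    simp only [Fin.ext_iff]
    constructor
    · rintro (h | h)
      · exact Or.inl (Or.inl h)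
      · by_cases hy : y.val + c ≤ a + b
        · exact Or.inl (Or.inr ⟨h.1, h.2.1, hy⟩)
        · exact Or.inr ⟨h.1, by omega⟩
    · rintro ((h | h) | h)
      · exact Or.inl h
      · exact Or.inr ⟨h.1, h.2.1, by omega⟩
      · exact Or.inr ⟨h.1, by omega, by omega⟩

theorem step2U {a b c : ℕ} (hc : c ≤ a) (h : a + b + 1 - c < n - 1) (ha : a < n - 1) :
    U (H n a b c 0) ⟨n - 1, by omega⟩ ⟨a + b + 1 - c, by omega⟩ = b + if b < c then 1 else 0 := by
  have h2 := card_interval (n := n) (a + 1 - c) (a + b + 1 - c) (by omega)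
  have e : a + b + 1 - c - (a + 1 - c) = b := by omega
  rw [e] at h2
  unfold U
  have hA : ∀ w : Fin n, (H n a b c 0).Adj ⟨n - 1, by omega⟩ w ↔
      (a + 1 - c ≤ w.val ∧ w.val < a + b + 1 - c) := by
    intro w
    have hw := w.isLt
    simp only [H, SimpleGraph.fromRel_adj, HE_ab, Fin.ext_iff, ne_eq]
    constructor
    · rintro ⟨_, (h | h) | (h | h)⟩ <;> omega
    · intro h
      exact ⟨by omega, Or.inl (Or.inr ⟨trivial, by omega, by omega⟩)⟩
  have hB : ∀ w : Fin n, (H n a b c 0).Adj ⟨a + b + 1 - c, by omega⟩ w ↔ (b < c ∧ w.val = 0) := by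
    intro w
    have hw := w.isLt
    simp only [H, SimpleGraph.fromRel_adj, HE_ab, Fin.ext_iff, ne_eq]
    constructor
    · rintro ⟨_, (h | h) | (h | h)⟩ <;> omega
    · intro h
      exact ⟨by omega, Or.inr (Or.inl ⟨by omega, by omega, by omega⟩)⟩
  split_ifs with hbc
  · have : (univ.filter fun w : Fin n => (H n a b c 0).Adj ⟨n - 1, by omega⟩ w ∨
        (H n a b c 0).Adj ⟨a + b + 1 - c, by omega⟩ w) =
        insert ⟨0, by omega⟩ (univ.filter fun w : Fin n => a + 1 - c ≤ w.val ∧
          w.val < a + b + 1 - c) := by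
      ext w
      rw [mem_filter, hA, hB, mem_insert, mem_filter, Fin.ext_iff]
      simp only [mem_univ, true_and]
      constructor
      · rintro (h | h)
        · exact Or.inr h
        · exact Or.inl h.2
      · rintro (h | h)
        · exact Or.inr ⟨hbc, h⟩
        · exact Or.inl h
    rw [this, card_insert_of_notMem, h2]
    simp only [mem_filter, mem_univ, true_and]
    omega
  · rw [add_zero]
    conv_rhs => rw [← h2]
    congr 1
    ext w
    rw [mem_filter, hA, hB, mem_filter]
    simp only [mem_univ, true_and]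
    constructor
    · rintro (h | h)
      · exact h
      · exact absurd h.1 hbc
    · exact Or.inl

theorem step3 {a b c s : ℕ} (hc : c ≤ a) (hcb : c ≤ b)
    (h : a + b + 2 - c + 2 * s < n) (h' : b ≠ 0 → a + b + 2 - c + 2 * s < n - 1) :
    AddEdge (H n a b c s) (H n a b c (s + 1)) ⟨a + b + 1 - c + 2 * s, by omega⟩
      ⟨a + b + 2 - c + 2 * s, h⟩ := by
  apply addEdge_of_rel
  · intro hh
    have := congrArg Fin.val hh
    simp only at this
    omega
  · unfold HE
    simp only
    rintro (h | h | h) <;> omega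
  · unfold HE
    simp only
    rintro (h | h | h) <;> omega
  · intro x y
    unfold HE
    simp only [Fin.ext_iff]
    constructor
    · rintro (h | h | h)
      · exact Or.inl (Or.inl h)
      · exact Or.inl (Or.inr (Or.inl h))
      · by_cases hx : x.val + c < a + b + 1 + 2 * s
        · exact Or.inl (Or.inr (Or.inr ⟨h.1, hx, h.2.2.1, h.2.2.2⟩))
        · exact Or.inr (by omega)
    · rintro ((h | h | h) | h)
      · exact Or.inl h
      · exact Or.inr (Or.inl h)
      · exact Or.inr (Or.inr ⟨h.1, by omega, h.2.2.1, h.2.2.2⟩)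
      · exact Or.inr (Or.inr ⟨by omega, by omega, by omega, by omega⟩)

theorem step3U {a b c s : ℕ} (hc : c ≤ a) (hcb : c ≤ b)
    (h : a + b + 2 - c + 2 * s < n) (h' : b ≠ 0 → a + b + 2 - c + 2 * s < n - 1) :
    U (H n a b c s) ⟨a + b + 1 - c + 2 * s, by omega⟩ ⟨a + b + 2 - c + 2 * s, h⟩ = 0 := by
  unfold U
  rw [card_eq_zero, filter_eq_empty_iff]
  intro w _
  have hw := w.isLt
  simp only [H, SimpleGraph.fromRel_adj, HE, Fin.ext_iff, ne_eq]
  rintro (⟨_, (h | h | h) | (h | h | h)⟩ | ⟨_, (h | h | h) | (h | h | h)⟩) <;> omega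

theorem card1 : ∀ a : ℕ, 1 + a ≤ n →
    ((Ind (H n a 0 0 0) 2).card : ℤ) + a = n.choose 2 ∧
    ((Ind (H n a 0 0 0) 3).card : ℤ) + a * ((n : ℤ) - 2) = n.choose 3 + a.choose 2 := by
  intro a
  induction a with
  | zero =>
    intro h
    have h0 : ∀ x y : Fin n, ¬ HE n 0 0 0 0 x y := by
      intro x y
      rw [HE_a]
      omega
    rw [Ind_bot h0, Ind_bot h0]
    simp
  | succ a ih =>
    intro h
    obtain ⟨i1, i2⟩ := ih (by omega)
    have hs := step1 (a := a) (n := n) (by omega)
    have e1 := hs.ind_two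
    have e2 := hs.ind_three
    rw [step1U] at e2
    have e3 : (a + 1).choose 2 = a + a.choose 2 := by
      rw [Nat.choose_succ_succ' a 1, Nat.choose_one_right]
    rw [e3]
    push_cast
    constructor
    · have : ((Ind (H n (a + 1) 0 0 0) 2).card : ℤ) + 1 = (Ind (H n a 0 0 0) 2).card := by
        exact_mod_cast e1
      linarith
    · have : ((Ind (H n (a + 1) 0 0 0) 3).card : ℤ) + n = (Ind (H n a 0 0 0) 3).card + a + 2 := by
        exact_mod_cast e2
      linarith

theorem card2 (a c : ℕ) (hc : c ≤ a) (ha : a < n) : ∀ b : ℕ, (b = 0 ∨ (a + b - c < n - 1 ∧ a < n - 1)) →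
    ((Ind (H n a b c 0) 2).card : ℤ) + (a + b) = n.choose 2 ∧
    ((Ind (H n a b c 0) 3).card : ℤ) + (a + b) * ((n : ℤ) - 2) =
      n.choose 3 + a.choose 2 + b.choose 2 + (min b c : ℕ) := by
  intro b
  induction b with
  | zero =>
    intro _
    have hH : H n a 0 c 0 = H n a 0 0 0 := by
      have : HE n a 0 c 0 = HE n a 0 0 0 := by
        ext x y
        rw [HE_ab, HE_a]
        constructor
        · rintro (h | h)
          · exact h
          · omega
        · exact Or.inl
      unfold H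
      rw [this]
    rw [hH]
    obtain ⟨i1, i2⟩ := card1 (n := n) a (by omega)
    constructor
    · simpa using i1
    · simpa using i2
  | succ b ih =>
    intro h
    have hh : a + b + 1 - c < n - 1 ∧ a < n - 1 := by omega
    obtain ⟨i1, i2⟩ := ih (by omega)
    have hs := step2 (a := a) (b := b) (c := c) (n := n) hc hh.1
    have e1 := hs.ind_two
    have e2 := hs.ind_three
    rw [step2U hc hh.1 hh.2] at e2
    have e3 : (b + 1).choose 2 = b + b.choose 2 := by
      rw [Nat.choose_succ_succ' b 1, Nat.choose_one_right]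
    have e4 : min (b + 1) c = min b c + if b < c then 1 else 0 := by
      split_ifs <;> omega
    rw [e3, e4]
    have e1' : ((Ind (H n a (b + 1) c 0) 2).card : ℤ) + 1 = (Ind (H n a b c 0) 2).card := by
      exact_mod_cast e1
    have e2' : ((Ind (H n a (b + 1) c 0) 3).card : ℤ) + n = (Ind (H n a b c 0) 3).card +
        (b + ((if b < c then 1 else 0 : ℕ) : ℤ)) + 2 := by
      exact_mod_cast e2
    push_cast at e2' i2 ⊢
    constructor
    · linarith
    · linarith

theorem card3 (a b c : ℕ) (hc : c ≤ a) (hcb : c ≤ b) (ha : a < n) (ha' : b ≠ 0 → a < n - 1) :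
    ∀ s : ℕ, a + b - c + 2 * s < n → (b ≠ 0 → a + b - c + 2 * s < n - 1) →
    ((Ind (H n a b c s) 2).card : ℤ) + (a + b + s) = n.choose 2 ∧
    ((Ind (H n a b c s) 3).card : ℤ) + (a + b + s) * ((n : ℤ) - 2) =
      n.choose 3 + a.choose 2 + b.choose 2 + c := by
  intro s
  induction s with
  | zero =>
    intro h h'
    obtain ⟨i1, i2⟩ := card2 (n := n) a c hc ha b (by
      by_cases hb : b = 0
      · exact Or.inl hb
      · exact Or.inr ⟨by have := h' hb; omega, ha' hb⟩)
    have : min b c = c := by omega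
    rw [this] at i2
    constructor
    · simpa using i1
    · simpa using i2
  | succ s ih =>
    intro h h'
    obtain ⟨i1, i2⟩ := ih (by omega) (fun hb => by have := h' hb; omega)
    have k1 : a + b + 2 - c + 2 * s < n := by omega
    have k2 : b ≠ 0 → a + b + 2 - c + 2 * s < n - 1 := fun hb => by have := h' hb; omega
    have hs := step3 (a := a) (b := b) (c := c) (s := s) (n := n) hc hcb k1 k2
    have e1 := hs.ind_two
    have e2 := hs.ind_three
    rw [step3U hc hcb k1 k2] at e2
    have e1' : ((Ind (H n a b c (s + 1)) 2).card : ℤ) + 1 = (Ind (H n a b c s) 2).card := by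
      exact_mod_cast e1
    have e2' : ((Ind (H n a b c (s + 1)) 3).card : ℤ) + n = (Ind (H n a b c s) 3).card + 2 := by
      exact_mod_cast e2
    push_cast
    constructor
    · linarith
    · linarith

end Pool.Agent.Work.MP_0ea01d_co
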