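import Pool.Agent.Work.MP_0ea01d_co.Upper

set_option autoImplicit false

namespace Pool.Agent.Work.MP_0ea01d_co.UpperSpectrum

open Pool.Agent.Work.MP_0ea01d_co

/-- `T(n,l) = C(n,l+1) - (n-l-1)⌈(n-l)/2⌉`. -/
def T (n l : ℕ) : ℤ := (n.choose (l + 1) : ℤ) - ((n : ℤ) - l - 1) * ⌈((n : ℚ) - l) / 2⌉

/-- `m` has the form `C(n,l+1) - t(n-l-1) + C(a,2) + C(b,2) + c` with `1 ≤ t ≤ n-l+1`,
`a ≥ b ≥ c ≥ 0` and `1 ≤ a+b ≤ t`. -/
def IsForm (n l : ℕ) (m : ℤ) : Prop :=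
  ∃ t a b c : ℕ, 1 ≤ t ∧ (t : ℤ) ≤ (n : ℤ) - l + 1 ∧ c ≤ b ∧ b ≤ a ∧ 1 ≤ a + b ∧ a + b ≤ t ∧
    m = n.choose (l + 1) - t * ((n : ℤ) - l - 1) + a.choose 2 + b.choose 2 + c

theorem ceil_half (d : ℕ) : ⌈(d : ℚ) / 2⌉ = ((d + 1) / 2 : ℕ) := by
  obtain ⟨z, hz⟩ : ∃ z, z = (d + 1) / 2 := ⟨_, rfl⟩
  have h1 : 2 * z ≤ d + 1 := by omega
  have h2 : d ≤ 2 * z := by omega
  rw [← hz, Int.ceil_eq_iff]
  have h1' : 2 * (z : ℚ) ≤ d + 1 := by exact_mod_cast h1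
  have h2' : (d : ℚ) ≤ 2 * (z : ℚ) := by exact_mod_cast h2
  rw [Int.cast_natCast]
  constructor
  · linarith
  · linarith

/-- Every `m` with `T(n,l) < m < C(n,l+1)` of the form `C(n,l+1) - t(n-l-1) + C(a,2) + C(b,2) + c`
is the size of a maximal antichain contained in the levels `l` and `l+1`, for every `l ≥ 2`. -/
theorem result (n l : ℕ) (hl : 2 ≤ l) (m : ℕ) (hT : T n l < m) (hm : m < n.choose (l + 1))
    (hform : IsForm n l m) : m ∈ S n l := by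
  obtain ⟨t, a, b, c, ht1, htn, hcb, hba, hab1, habt, hme⟩ := hform
  have hln : l + 1 ≤ n := by
    by_contra hcon
    rw [Nat.choose_eq_zero_of_lt (by omega)] at hm
    omega
  obtain ⟨d, rfl⟩ : ∃ d, n = l + d := ⟨n - l, by omega⟩
  have e0 : (((l + d : ℕ) : ℚ) - l) / 2 = (d : ℚ) / 2 := by push_cast; ring
  have e1 : (((l + d : ℕ)) : ℤ) - l - 1 = (d : ℤ) - 1 := by push_cast; ring
  unfold T at hT
  rw [e0, ceil_half, e1] at hT
  rw [e1] at hme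
  have hd3 : 3 ≤ d := by
    by_contra hcon
    have hd : d = 1 ∨ d = 2 := by omega
    have hm' : (m : ℤ) < (l + d).choose (l + 1) := by exact_mod_cast hm
    rcases hd with rfl | rfl
    · rw [Nat.choose_self] at hT hm
      norm_num at hT
      omega
    · rw [Nat.choose_succ_self_right (l + 1)] at hT hm
      norm_num at hT
      omega
  obtain ⟨k, rfl⟩ : ∃ k, l = k + 2 := ⟨l - 2, by omega⟩
  obtain ⟨m', hm', hme'⟩ := upper_all d hd3 hba hcb hab1 habt (by push_cast at htn; omega) (by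
    rw [hme] at hT
    have e3 : k + 2 + 1 = k + 3 := rfl
    rw [e3] at hT
    nlinarith) k
  have : m = m' := by
    have : (m : ℤ) = m' := by rw [hme, hme']
    exact_mod_cast this
  rw [this]
  exact hm'

end Pool.Agent.Work.MP_0ea01d_co.UpperSpectrum
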